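import Pool.Agent.LibEX15.EXDefs
import Pool.Agent.LibSX15.AS1

/-! ROW [EX EA1] (only algebra; see LibSX15/AS1 for `as1_zph`, `as1_zlam`). Second order expansion of `zph n (tt u)` at `u0`.
Let `b = n/12`, `v = u - u0 ≥ 0`, `g = √(u²+b)`, `g0 = √(u0²+b)`, `zph n (tt u) = 2√n g`, `zlam u0 n = 2√n u0/g0`. Exactly
`g - g0 - v u0/g0 = v² b (u+u0) / ((g+g0) g0 (u g0 + u0 g))` (multiply out, `u² g0² - u0² g² = b (u² - u0²)`), and `2√n v² b/(2u0³) = n√n v²/(12u0³)`.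
So it remains `|(u+u0)/((g+g0) g0 (u g0 + u0 g)) - 1/(2u0³)| ≤ (6/u0³)(v/u0 + n/u0²)`. As `g ≥ u`, `g0 ≥ u0` the first number is
`≤ (u+u0)/((u+u0) u0 (2 u u0)) ≤ 1/(2u0³)`; lower bound: `g ≤ g0 u/u0`, `g0 ≤ u0 (1 + b/(2u0²))`, hence it is
`≥ (u+u0)/( g0²(1+u/u0) * 2 u g0 ) = u0/(2 u g0³) ≥ (1/(2u0³)) (u0/u) (1 + b/(2u0²))^(-3)`, and `(u0/u) ≥ 1 - v/u0`, `(1+s)^(-3) ≥ 1 - 3s`.
(Numerically the constant is 0.09 instead of 1.) -/

set_option autoImplicit false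

namespace Pool.Agent.LibSX15

open Finset

theorem as1c (n : ℕ) (u0 u : ℝ) (h0 : 0 < u0) (h : u0 ≤ u) :
    |zph n (tt u) - (zph n (tt u0) + (u - u0) * zlam u0 n +
      n * Real.sqrt n * (u - u0) ^ 2 / (12 * u0 ^ 3))| ≤
      n * Real.sqrt n * (u - u0) ^ 2 / u0 ^ 3 * ((u - u0) / u0 + n / u0 ^ 2) := by
  rw [as1_zph, as1_zph, as1_zlam n u0 h0]
  obtain ⟨b, hb⟩ : ∃ b : ℝ, b = n / 12 := ⟨_, rfl⟩
  have hb0 : 0 ≤ b := by rw [hb]; positivity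
  have hn : (n : ℝ) = 12 * b := by rw [hb]; ring
  rw [← hb]
  have hu : 0 < u := lt_of_lt_of_le h0 h
  have hgpos : 0 < u ^ 2 + b := by positivity
  have hg0pos : 0 < u0 ^ 2 + b := by positivity
  obtain ⟨g, hg⟩ : ∃ g : ℝ, g = Real.sqrt (u ^ 2 + b) := ⟨_, rfl⟩
  obtain ⟨g0, hg0⟩ : ∃ g0 : ℝ, g0 = Real.sqrt (u0 ^ 2 + b) := ⟨_, rfl⟩
  have hgp : 0 < g := by rw [hg]; exact Real.sqrt_pos.2 hgpos
  have hg0p : 0 < g0 := by rw [hg0]; exact Real.sqrt_pos.2 hg0pos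
  have hg2 : g ^ 2 = u ^ 2 + b := by rw [hg]; exact Real.sq_sqrt hgpos.le
  have hg02 : g0 ^ 2 = u0 ^ 2 + b := by rw [hg0]; exact Real.sq_sqrt hg0pos.le
  rw [← hg, ← hg0]
  have hgu : u ≤ g := by
    rw [hg]
    exact Real.le_sqrt_of_sq_le (by linarith)
  have hg0u : u0 ≤ g0 := by
    rw [hg0]
    exact Real.le_sqrt_of_sq_le (by linarith)
  obtain ⟨D, hDdef⟩ : ∃ D : ℝ, D = g0 * (g * g0 + b + u * u0) := ⟨_, rfl⟩
  have hD : 0 < D := by rw [hDdef]; positivity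
  have key : g - g0 - (u - u0) * (u0 / g0) = b * (u - u0) ^ 2 / D := by
    rw [eq_div_iff hD.ne', hDdef]
    have h1 : (g - g0 - (u - u0) * (u0 / g0)) * (g0 * (g * g0 + b + u * u0)) =
        (g * g0 - g0 ^ 2 - (u - u0) * u0) * (g * g0 + b + u * u0) := by
      field_simp
    rw [h1, hg02]
    have h2 : (g * g0 - (u0 ^ 2 + b) - (u - u0) * u0) * (g * g0 + b + u * u0) =
        g ^ 2 * g0 ^ 2 - (b + u * u0) ^ 2 := by ring
    rw [h2, hg2, hg02]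
    ring
  obtain ⟨r, hr⟩ : ∃ r : ℝ, r = (u - u0) / u0 := ⟨_, rfl⟩
  obtain ⟨s, hs⟩ : ∃ s : ℝ, s = b / u0 ^ 2 := ⟨_, rfl⟩
  have hr0 : 0 ≤ r := by rw [hr]; exact div_nonneg (by linarith) h0.le
  have hs0 : 0 ≤ s := by rw [hs]; positivity
  have hur : u = u0 * (1 + r) := by rw [hr]; field_simp; ring
  have hbs : b = s * u0 ^ 2 := by rw [hs]; field_simp
  have hD1 : 2 * u0 ^ 3 ≤ D := by
    have h3 : u0 * u0 ≤ g * g0 := mul_le_mul (h.trans hgu) hg0u h0.le hgp.le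
    have h4 : u0 * u0 ≤ u * u0 := mul_le_mul_of_nonneg_right h h0.le
    have h5 : 2 * u0 ^ 2 ≤ g * g0 + b + u * u0 := by nlinarith
    calc 2 * u0 ^ 3 = u0 * (2 * u0 ^ 2) := by ring
      _ ≤ g0 * (g * g0 + b + u * u0) := mul_le_mul hg0u h5 (by positivity) hg0p.le
      _ = D := hDdef.symm
  have hD2 : D ≤ 2 * u0 ^ 3 * ((1 + r) * (1 + s) ^ 2) := by
    have h3 : g0 ≤ u0 * (1 + s) := by
      rw [hg0]
      refine Real.sqrt_le_iff.2 ⟨by positivity, ?_⟩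
      rw [hbs]
      nlinarith [sq_nonneg (u0 * s), mul_nonneg hs0 (sq_nonneg u0)]
    have h4 : g * g0 ≤ u0 ^ 2 * ((1 + r) * (1 + s)) := by
      have h5 : g ^ 2 * g0 ^ 2 ≤ (u0 ^ 2 * ((1 + r) * (1 + s))) ^ 2 := by
        rw [hg2, hg02, hbs, hur]
        have e1 : ((u0 * (1 + r)) ^ 2 + s * u0 ^ 2) * (u0 ^ 2 + s * u0 ^ 2) =
          u0 ^ 4 * (((1 + r) ^ 2 + s) * (1 + s)) := by ring
        have e2 : (u0 ^ 2 * ((1 + r) * (1 + s))) ^ 2 =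
          u0 ^ 4 * ((1 + r) ^ 2 * (1 + s) * (1 + s)) := by ring
        rw [e1, e2]
        have e3 : (1 + r) ^ 2 + s ≤ (1 + r) ^ 2 * (1 + s) := by
          nlinarith [mul_nonneg hs0 hr0, mul_nonneg hs0 (sq_nonneg r)]
        gcongr
      have h6 : (g * g0) ^ 2 ≤ (u0 ^ 2 * ((1 + r) * (1 + s))) ^ 2 := by
        rw [mul_pow]; exact h5
      exact le_of_sq_le_sq h6 (by positivity)
    have h7 : g * g0 + b + u * u0 ≤ 2 * u0 ^ 2 * ((1 + r) * (1 + s)) := by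
      have h8 : b + u * u0 ≤ u0 ^ 2 * ((1 + r) * (1 + s)) := by
        rw [hbs, hur]
        nlinarith [mul_nonneg (mul_nonneg hs0 hr0) (sq_nonneg u0)]
      linarith
    calc D = g0 * (g * g0 + b + u * u0) := hDdef
      _ ≤ (u0 * (1 + s)) * (2 * u0 ^ 2 * ((1 + r) * (1 + s))) :=
          mul_le_mul h3 h7 (by positivity) (by positivity)
      _ = 2 * u0 ^ 3 * ((1 + r) * (1 + s) ^ 2) := by ring
  have hmain : D - 2 * u0 ^ 3 ≤ 12 * (r + 12 * s) * D := by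
    by_cases hc : 1 ≤ 12 * (r + 12 * s)
    · have : 1 * D ≤ 12 * (r + 12 * s) * D := mul_le_mul_of_nonneg_right hc hD.le
      have h9 : 0 < u0 ^ 3 := by positivity
      linarith
    · have hc' : 12 * (r + 12 * s) < 1 := not_le.1 hc
      have hr1 : r ≤ 1 := by nlinarith
      have hs1 : s ≤ 1 := by nlinarith
      have h10 : (1 + r) * (1 + s) ^ 2 - 1 ≤ 12 * (r + 12 * s) := by
        nlinarith [mul_nonneg hs0 hr0, mul_nonneg hs0 (sub_nonneg.2 hr1),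
          mul_nonneg hs0 (sub_nonneg.2 hs1), mul_nonneg (mul_nonneg hs0 hr0) (sub_nonneg.2 hs1)]
      have h11 : D - 2 * u0 ^ 3 ≤ 2 * u0 ^ 3 * (12 * (r + 12 * s)) := by
        have : 2 * u0 ^ 3 * ((1 + r) * (1 + s) ^ 2 - 1) ≤ 2 * u0 ^ 3 * (12 * (r + 12 * s)) :=
          mul_le_mul_of_nonneg_left h10 (by positivity)
        linarith
      have h12 : 2 * u0 ^ 3 * (12 * (r + 12 * s)) ≤ D * (12 * (r + 12 * s)) :=
        mul_le_mul_of_nonneg_right hD1 (by positivity)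
      linarith
  have e : 2 * (Real.sqrt n * g) - (2 * (Real.sqrt n * g0) +
      (u - u0) * (2 * (Real.sqrt n * (u0 / g0))) +
      n * Real.sqrt n * (u - u0) ^ 2 / (12 * u0 ^ 3)) =
      -(2 * Real.sqrt n * (b * (u - u0) ^ 2) * ((D - 2 * u0 ^ 3) / D) / (2 * u0 ^ 3)) := by
    have e1 : 2 * (Real.sqrt n * g) - (2 * (Real.sqrt n * g0) +
      (u - u0) * (2 * (Real.sqrt n * (u0 / g0))) +
      n * Real.sqrt n * (u - u0) ^ 2 / (12 * u0 ^ 3)) =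
      2 * Real.sqrt n * (g - g0 - (u - u0) * (u0 / g0)) -
        n * Real.sqrt n * (u - u0) ^ 2 / (12 * u0 ^ 3) := by ring
    rw [e1, key]
    have e2 : (n : ℝ) * Real.sqrt n * (u - u0) ^ 2 / (12 * u0 ^ 3) =
        b * Real.sqrt n * (u - u0) ^ 2 / u0 ^ 3 := by
      have : (n : ℝ) * Real.sqrt n = 12 * b * Real.sqrt n := by rw [← hn]
      rw [this]
      field_simp
    rw [e2]
    have hDne := hD.ne'
    field_simp
    ring
  rw [e, abs_neg]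
  have hpos : 0 ≤ (D - 2 * u0 ^ 3) / D := div_nonneg (by linarith) hD.le
  have hsn : 0 ≤ Real.sqrt n := Real.sqrt_nonneg _
  rw [abs_of_nonneg (by positivity)]
  have hfrac : (D - 2 * u0 ^ 3) / D ≤ 12 * (r + 12 * s) := by
    rw [div_le_iff₀ hD]
    exact hmain
  calc 2 * Real.sqrt n * (b * (u - u0) ^ 2) * ((D - 2 * u0 ^ 3) / D) / (2 * u0 ^ 3)
      ≤ 2 * Real.sqrt n * (b * (u - u0) ^ 2) * (12 * (r + 12 * s)) / (2 * u0 ^ 3) := by
        gcongr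
    _ = 12 * b * Real.sqrt n * (u - u0) ^ 2 / u0 ^ 3 * ((u - u0) / u0 + 12 * b / u0 ^ 2) := by
        rw [hr, hs]
        field_simp
    _ = n * Real.sqrt n * (u - u0) ^ 2 / u0 ^ 3 * ((u - u0) / u0 + n / u0 ^ 2) := by
        rw [← hn]

end Pool.Agent.LibSX15
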