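import Pool.Agent.LibEX15.EA8
import Pool.Agent.LibSX15.AS4

/-! ROW [EX EA10] (uses as4, as4b, as8d as stated; as AS10, copy its frame and its private lemmas `AS10_mul`, `AS10_sq`, `AS10_pow`, `AS10_LV`). Everything is a power of `T`.
WLOG `η ≤ 1/100` (otherwise use `1/100`: the conclusion is weaker and the range is smaller: careful, the range of κ is LARGER for smaller η, so this is fine).
Choose `g = η/100`, `x = g/(20 (k + 20))`, `Λ = T^x`, `M = T^μ`, `μ = 1/10 - max (κ - 1/2) (3/5 (κ - 1/2)) - g` (`1/20 ≤ μ ≤ 1/8`), `H = Λ²K²/y²`, `h := 3κ/2 - 1/2`, `y ≥ Y/4000 ≥ T^((1+κ)/4 - x)/4000`: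
`H ≤ T^(h + 5x)`.  With `e = max 0 (2κ - 1)`: `1 + ε ≤ T^(e + x)`, `Err ≤ T^(max 0 (2μ + 4κ - 2) + 3x)`.
Linear checks (`κ ∈ [12/25, 13/25 - η]`):
* hE: `μ + 3κ/2 - 1/2`, `3μ + 4κ - 2`, `2μ + 9κ/2 - 5/2` all `≤ (1+κ)/4 - 3x - small`; hΘ: `2μ + 5κ/2 ≤ 3/2`; hκ: `μ + κ/2 ≤ 1/2`.
* `C H Err ≤ N`: `h + 5x + (2μ + 4κ - 2) + 4x ≤ κ`: `9κ/2 + 2μ ≤ 5/2 - 9x`; for `κ ≥ 1/2` the left side is `5κ/2 + 6/5 - 2g ≤ 5/2 - 5η/2 - 2g`.  And `h + 9x ≤ κ`.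
* `C (1+ε) M² ≤ N`: clear.
* the four cases of MP2 (with `W` of cardinality `w`), want `w ≤ B/y²`, `B = T^(2κ + μ - σ + η/2)`, where `σ = min (1/40 - 5/4 (κ - 1/2)) (1/40 - 13/20 (κ - 1/2))`; note `H M y² = Λ²K² M`:
  `w ≤ C H`: `-μ ≤ -σ`.   `w² ≤ CΛ^k H⁴M/N`: `w/(HM) ≤ T^(κ - 1/2 - μ/2 + ..)`.   `w⁴ ≤ ..`: `w/(HM) ≤ T^((e + 2κ - 1 - μ)/4 + ..)` and `(e + 2κ - 1 - μ)/4 = -σ + g/4` (κ ≥ 1/2: e = 2κ-1;
  κ ≤ 1/2: e = 0).   last: `w/(HM) ≤ T^((e + 5κ/2 - 3/2 + 2μ)/2 + ..)`, `(e + 5κ/2 - 3/2 + 2μ)/2 = -σ - g`.  The `..` are `≤ (k + 20) x ≤ g/20`.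
  (use `H^j ≤ (H) * T^((j-1)(h + 5x))`, or express everything through `w y²/(Λ²K²)`.)
* conclusion: `10^9 T/(M K) * B * (4 + 6 log(..)) ≤ T^(1 - μ - κ) T^(2κ + μ - σ + η/2) T^x... = T^(1 + κ - σ + η)`. -/

set_option autoImplicit false

namespace Pool.Agent.LibSX15

open Finset

private theorem EA10_mul {T C a b x : ℝ} (hT : 1 ≤ T) (hC : C ≤ T ^ x) (h : a + x ≤ b) :
    C * T ^ a ≤ T ^ b := by
  have hTp : 0 < T := by linarith
  calc C * T ^ a ≤ T ^ x * T ^ a := mul_le_mul_of_nonneg_right hC (Real.rpow_nonneg hTp.le _)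
    _ = T ^ (a + x) := by rw [← Real.rpow_add hTp, add_comm]
    _ ≤ T ^ b := Real.rpow_le_rpow_of_exponent_le hT h

private theorem EA10_pow {T : ℝ} (hT : 0 < T) (a : ℝ) (k : ℕ) : (T ^ a) ^ k = T ^ (a * k) := by
  rw [← Real.rpow_natCast, ← Real.rpow_mul hT.le]

/-- the large values theorem for the data of the kernel theorem -/
private theorem EA10_LV (C0 C2 : ℝ) (k : ℕ) (hC0 : 1 ≤ C0) (hMP : MP2 C2 k C0) (x g κ μ σ e b : ℝ)
    (hx : 0 < x) (hxk : (k : ℝ) * x + 20 * x ≤ g / 20) (hg : 0 < g) (he0 : 0 ≤ e) (he : 2 * κ - 1 ≤ e)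
    (hκ0 : 12 / 25 ≤ κ) (hκ1 : κ ≤ 13 / 25) (hμ0 : 1 / 20 ≤ μ) (hμ1 : μ ≤ 1 / 8)
    (he1 : e ≤ 1 / 25)
    (h1 : 9 / 2 * κ + 2 * μ ≤ 5 / 2 - 20 * x)
    (c1 : σ ≤ μ + g) (c2 : κ - 1 / 2 - μ / 2 + σ ≤ g) (c3 : (e + 2 * κ - 1 - μ) / 4 + σ ≤ g)
    (c4 : (e + 5 / 2 * κ - 3 / 2 + 2 * μ) / 2 + σ ≤ g)
    (hb : b = 2 * κ + μ - σ + 2 * g) (T Y : ℝ) (hT3 : 3 ≤ T) (hl1 : 1 ≤ Real.log T)
    (hbig : (20000000 + 8 * C0 + C2) * Real.log T ≤ T ^ x) (hY : T ^ ((1 + κ) / 4 - x) ≤ Y) :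
    ∀ v : ℝ, 0 < v → tt v ∈ Set.Icc T (2 * T) → ∀ d : Dat, d.Good C0 → d.N = T ^ κ →
      d.M = T ^ μ → d.ε = 3 * (T ^ κ) ^ 2 / v ^ 2 →
      d.Err = C0 * (1 + T ^ μ * (3 * (T ^ κ) ^ 2 / v ^ 2)) ^ 2 * (1 + Real.log (T ^ μ)) →
      S1 (T ^ κ) ⊆ d.S → Spc (T ^ κ) (S1 (T ^ κ)) d.ξ →
      ∀ (a : ℕ → ℂ) (W : Finset ℤ) (y : ℝ), Y / 4000 ≤ y → (∀ n, ‖a n‖ ≤ T ^ x * d.ω n) →
      (∀ n, n ∉ S1 (T ^ κ) → a n = 0) →
      (∀ t ∈ W, (0 : ℝ) ≤ t ∧ (t : ℝ) ≤ T ^ μ * T ^ κ) → (∀ t ∈ W, y ≤ ‖d.D a t‖) →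
      (W.card : ℝ) ≤ T ^ b / y ^ 2 := by
  intro v hv htv d hd hN hM hε hErr hsub hsp a W y hy ha ha0 hW hD
  obtain ⟨hC2, hMP'⟩ := hMP
  have hTp : 0 < T := by linarith
  have hT1 : 1 ≤ T := by linarith
  have hk0 : (0 : ℝ) ≤ k := Nat.cast_nonneg k
  have hkx : 0 ≤ (k : ℝ) * x := mul_nonneg hk0 hx.le
  have hpos : ∀ a : ℝ, 0 < T ^ a := fun a => Real.rpow_pos_of_pos hTp a
  have hle : ∀ {a b : ℝ}, a ≤ b → T ^ a ≤ T ^ b := fun h => Real.rpow_le_rpow_of_exponent_le hT1 h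
  have hadd : ∀ a b : ℝ, T ^ a * T ^ b = T ^ (a + b) := fun a b => (Real.rpow_add hTp a b).symm
  have hone : ∀ {a : ℝ}, 0 ≤ a → 1 ≤ T ^ a := fun h => Real.one_le_rpow hT1 h
  have hdiv : ∀ a b : ℝ, T ^ a / T ^ b = T ^ (a - b) := fun a b => (Real.rpow_sub hTp a b).symm
  have hC : 20000000 + 8 * C0 + C2 ≤ T ^ x := by
    refine le_trans ?_ hbig
    have h0 : 0 ≤ 20000000 + 8 * C0 + C2 := by linarith
    calc 20000000 + 8 * C0 + C2 = (20000000 + 8 * C0 + C2) * 1 := (mul_one _).symm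
      _ ≤ (20000000 + 8 * C0 + C2) * Real.log T := mul_le_mul_of_nonneg_left hl1 h0
  have hC2x : C2 ≤ T ^ x := by linarith
  have hy0 : 0 < y := by
    have := hpos ((1 + κ) / 4 - x)
    linarith
  -- epsilon
  have hv2 : T / (2 * Real.pi) ≤ v ^ 2 := by
    have h1 := htv.1
    unfold tt at h1
    rw [div_le_iff₀ Real.two_pi_pos]
    linarith
  have hε1 : 3 * (T ^ κ) ^ 2 / v ^ 2 ≤ 19 * T ^ (2 * κ - 1) := by
    have hπ := Real.pi_lt_d2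
    have hπ0 := Real.pi_pos
    have h1 : (T ^ κ) ^ 2 = T * T ^ (2 * κ - 1) := by
      rw [EA10_pow hTp, Real.rpow_sub hTp, Real.rpow_one]
      have h2 : κ * ((2 : ℕ) : ℝ) = 2 * κ := by push_cast; ring
      rw [h2]
      field_simp
    rw [div_le_iff₀ (by positivity), h1]
    have h2 : 19 * T ^ (2 * κ - 1) * (T / (2 * Real.pi)) ≤ 19 * T ^ (2 * κ - 1) * v ^ 2 :=
      mul_le_mul_of_nonneg_left hv2 (mul_nonneg (by norm_num) (hpos _).le)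
    refine le_trans ?_ h2
    rw [mul_div_assoc', le_div_iff₀ Real.two_pi_pos]
    have h4 : 0 < T * T ^ (2 * κ - 1) := mul_pos hTp (hpos _)
    nlinarith
  have hε0 : 0 ≤ 3 * (T ^ κ) ^ 2 / v ^ 2 := by positivity
  have hε2 : 3 * (T ^ κ) ^ 2 / v ^ 2 ≤ T ^ (2 * κ - 1 + x) :=
    hε1.trans (EA10_mul hT1 (by linarith : (19 : ℝ) ≤ T ^ x) le_rfl)
  have hε3 : 1 + d.ε ≤ T ^ (e + x) := by
    rw [hε]
    have h1 : 3 * (T ^ κ) ^ 2 / v ^ 2 ≤ 19 * T ^ e :=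
      hε1.trans (mul_le_mul_of_nonneg_left (hle he) (by norm_num))
    have h2 : 1 ≤ T ^ e := hone he0
    have h3 : 20 * T ^ e ≤ T ^ (e + x) := EA10_mul hT1 (by linarith : (20 : ℝ) ≤ T ^ x) le_rfl
    linarith
  have hε4 : 0 ≤ 1 + d.ε := by
    have := hd.hε
    linarith
  -- logarithm of M
  have hlogM : Real.log (T ^ μ) = μ * Real.log T := Real.log_rpow hTp _
  have hlogM0 : 0 ≤ μ * Real.log T := mul_nonneg (by linarith) (by linarith)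
  have hlogM2 : μ * Real.log T ≤ 1 * Real.log T := mul_le_mul_of_nonneg_right (by linarith) (by linarith)
  have hlogM1 : 1 + Real.log (T ^ μ) ≤ 2 * Real.log T := by
    rw [hlogM]
    linarith
  have hΛlog : Real.log (T ^ μ) + 1 ≤ T ^ x := by
    have h1 : 2 * Real.log T ≤ T ^ x := by
      refine le_trans ?_ hbig
      exact mul_le_mul_of_nonneg_right (by linarith) (by linarith)
    linarith
  -- Err
  obtain ⟨q, hq⟩ : ∃ q : ℝ, q = max 0 (μ + (2 * κ - 1 + x)) := ⟨_, rfl⟩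
  have hq0 : 0 ≤ q := by rw [hq]; exact le_max_left _ _
  have hq1 : μ + (2 * κ - 1 + x) ≤ q := by rw [hq]; exact le_max_right _ _
  have hErr1 : d.Err ≤ T ^ (2 * q + x) := by
    rw [hErr]
    have h1 : 1 + T ^ μ * (3 * (T ^ κ) ^ 2 / v ^ 2) ≤ 2 * T ^ q := by
      have h2 : T ^ μ * (3 * (T ^ κ) ^ 2 / v ^ 2) ≤ T ^ q := by
        refine (mul_le_mul_of_nonneg_left hε2 (hpos _).le).trans ?_
        rw [hadd]
        exact hle hq1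
      have h3 : 1 ≤ T ^ q := hone hq0
      linarith
    have h0 : 0 ≤ 1 + T ^ μ * (3 * (T ^ κ) ^ 2 / v ^ 2) := by
      have := mul_nonneg (hpos μ).le hε0
      linarith
    have h2 : (1 + T ^ μ * (3 * (T ^ κ) ^ 2 / v ^ 2)) ^ 2 ≤ 4 * T ^ (2 * q) := by
      refine (pow_le_pow_left₀ h0 h1 2).trans (le_of_eq ?_)
      rw [mul_pow, EA10_pow hTp]
      norm_num
      congr 1
      ring
    have h3 : C0 * (1 + T ^ μ * (3 * (T ^ κ) ^ 2 / v ^ 2)) ^ 2 * (1 + Real.log (T ^ μ)) ≤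
        C0 * (4 * T ^ (2 * q)) * (2 * Real.log T) := by
      have hl0 : 0 ≤ 1 + Real.log (T ^ μ) := by
        rw [hlogM]
        linarith
      refine mul_le_mul (mul_le_mul_of_nonneg_left h2 (by linarith)) hlogM1 hl0 ?_
      have := hpos (2 * q)
      positivity
    refine h3.trans ?_
    have h4 : 8 * C0 * Real.log T ≤ T ^ x := by
      refine le_trans ?_ hbig
      exact mul_le_mul_of_nonneg_right (by linarith) (by linarith)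
    calc C0 * (4 * T ^ (2 * q)) * (2 * Real.log T)
        = (8 * C0 * Real.log T) * T ^ (2 * q) := by ring
      _ ≤ T ^ (2 * q + x) := EA10_mul hT1 h4 le_rfl
  have hErr0 : 0 ≤ d.Err := le_trans zero_le_one hd.hErr
  -- H
  obtain ⟨H, hH⟩ : ∃ H : ℝ, H = (T ^ x) ^ 2 * d.N ^ 2 / y ^ 2 := ⟨_, rfl⟩
  have hH' : H = T ^ (2 * x + 2 * κ) / y ^ 2 := by
    rw [hH, hN, EA10_pow hTp, EA10_pow hTp, hadd]
    congr 2
    push_cast
    ring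
  have hy2 : 0 < y ^ 2 := by positivity
  have hH0 : 0 < H := by
    rw [hH']
    exact div_pos (hpos _) hy2
  obtain ⟨h, hh⟩ : ∃ h : ℝ, h = 3 / 2 * κ - 1 / 2 + 5 * x := ⟨_, rfl⟩
  have hH1 : H ≤ T ^ h := by
    have h1 : T ^ ((1 + κ) / 2 - 2 * x) ≤ 16000000 * y ^ 2 := by
      have h2 : T ^ ((1 + κ) / 4 - x) ≤ 4000 * y := by linarith
      have h3 := pow_le_pow_left₀ (hpos _).le h2 2
      rw [EA10_pow hTp] at h3
      calc T ^ ((1 + κ) / 2 - 2 * x) = T ^ (((1 + κ) / 4 - x) * (2 : ℕ)) := by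
            congr 1
            push_cast
            ring
        _ ≤ (4000 * y) ^ 2 := h3
        _ = 16000000 * y ^ 2 := by ring
    rw [hH', div_le_iff₀ hy2]
    have h5 : 16000000 * T ^ (2 * x + 2 * κ) ≤ T ^ h * T ^ ((1 + κ) / 2 - 2 * x) := by
      rw [hadd]
      refine EA10_mul hT1 (by linarith : (16000000 : ℝ) ≤ T ^ x) ?_
      linarith
    have h6 : T ^ h * T ^ ((1 + κ) / 2 - 2 * x) ≤ T ^ h * (16000000 * y ^ 2) :=
      mul_le_mul_of_nonneg_left h1 (hpos _).le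
    linarith
  -- the two conditions
  have d1 : C2 * H * d.Err ≤ d.N := by
    rw [hN]
    calc C2 * H * d.Err
        ≤ C2 * T ^ h * T ^ (2 * q + x) :=
          mul_le_mul (mul_le_mul_of_nonneg_left hH1 (by linarith)) hErr1 hErr0
            (mul_nonneg (by linarith) (hpos _).le)
      _ = C2 * T ^ (h + (2 * q + x)) := by rw [mul_assoc, hadd]
      _ ≤ T ^ κ := by
          refine EA10_mul hT1 hC2x ?_
          rcases max_cases 0 (μ + (2 * κ - 1 + x)) with ⟨hm, -⟩ | ⟨hm, -⟩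
          · rw [hq, hm, hh]
            linarith
          · rw [hq, hm, hh]
            linarith
  have d2 : C2 * (1 + d.ε) * d.M ^ 2 ≤ d.N := by
    rw [hN, hM, EA10_pow hTp]
    calc C2 * (1 + d.ε) * T ^ (μ * (2 : ℕ)) ≤ C2 * T ^ (e + x) * T ^ (μ * (2 : ℕ)) :=
          mul_le_mul_of_nonneg_right (mul_le_mul_of_nonneg_left hε3 (by linarith)) (hpos _).le
      _ = C2 * T ^ (e + x + μ * (2 : ℕ)) := by rw [mul_assoc, hadd]
      _ ≤ T ^ κ := by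
          refine EA10_mul hT1 hC2x ?_
          push_cast
          linarith
  have hspN : Spc d.N (S1 (T ^ κ)) d.ξ := by rw [hN]; exact hsp
  have hmain := hMP' d hd (S1 (T ^ κ)) hsub hspN (T ^ x) y H a W (hone hx.le) (by rw [hM]; exact hΛlog)
    hy0 ha ha0 (by rw [hM, hN]; exact hW) hD hH d1 d2
  have hw0 : (0 : ℝ) ≤ W.card := Nat.cast_nonneg _
  -- the final comparison: `W.card ≤ H T^f` with `f ≤ b - 2 κ - 2 x`
  have hfin : ∀ f : ℝ, f + (2 * x + 2 * κ) ≤ b → (W.card : ℝ) ≤ H * T ^ f →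
      (W.card : ℝ) ≤ T ^ b / y ^ 2 := by
    intro f hf hw
    refine hw.trans ?_
    rw [hH', div_mul_eq_mul_div, hadd]
    exact div_le_div_of_nonneg_right (hle (by linarith)) hy2.le
  have hΛk : (T ^ x) ^ k = T ^ (x * k) := EA10_pow hTp _ _
  have hCk : C2 * (T ^ x) ^ k ≤ T ^ (x * k + x) := by
    rw [hΛk]
    exact EA10_mul hT1 hC2x le_rfl
  have hxk' : x * k = (k : ℝ) * x := mul_comm _ _
  have hHp : ∀ j : ℕ, H ^ j ≤ T ^ (h * j) := fun j => by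
    rw [← EA10_pow hTp]
    exact pow_le_pow_left₀ hH0.le hH1 j
  have hHTpos : ∀ f : ℝ, 0 ≤ H * T ^ f := fun f => mul_nonneg hH0.le (hpos f).le
  rcases hmain with h5 | h5 | h5 | h5
  · refine hfin x (by linarith) (h5.trans ?_)
    rw [mul_comm]
    exact mul_le_mul_of_nonneg_left hC2x hH0.le
  · obtain ⟨f, hf⟩ : ∃ f : ℝ, f = (x * k + x + (h * (2 : ℕ) + μ - κ)) / 2 := ⟨_, rfl⟩
    refine hfin f (by rw [hf, hh, hxk']; push_cast; linarith)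
      (le_of_pow_le_pow_left₀ two_ne_zero (hHTpos f) ?_)
    calc (W.card : ℝ) ^ 2 ≤ C2 * (T ^ x) ^ k * (H ^ 4 * d.M / d.N) := h5
      _ ≤ T ^ (x * k + x) * (H ^ 2 * T ^ (h * (2 : ℕ) + μ - κ)) := by
          refine mul_le_mul hCk ?_ (by rw [hM, hN]; positivity) (hpos _).le
          rw [hM, hN]
          calc H ^ 4 * T ^ μ / T ^ κ = H ^ 2 * (H ^ 2 * T ^ μ / T ^ κ) := by ring
            _ ≤ H ^ 2 * (T ^ (h * (2 : ℕ)) * T ^ μ / T ^ κ) := by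
                have := hHp 2
                gcongr
            _ = H ^ 2 * T ^ (h * (2 : ℕ) + μ - κ) := by rw [hadd, hdiv]
      _ = (H * T ^ f) ^ 2 := by
          have e1 : T ^ (x * k + x) * T ^ (h * (2 : ℕ) + μ - κ) = (T ^ f) ^ 2 := by
            rw [hadd, EA10_pow hTp, hf]
            congr 1
            push_cast
            ring
          rw [mul_pow, ← e1]
          ring
  · obtain ⟨f, hf⟩ : ∃ f : ℝ, f = (x * k + x + (e + x + (h * (2 : ℕ) + μ * (3 : ℕ) - κ))) / 4 :=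
      ⟨_, rfl⟩
    refine hfin f (by rw [hf, hh, hxk']; push_cast; linarith)
      (le_of_pow_le_pow_left₀ four_ne_zero (hHTpos f) ?_)
    calc (W.card : ℝ) ^ 4 ≤ C2 * (T ^ x) ^ k * ((1 + d.ε) * H ^ 6 * d.M ^ 3 / d.N) := h5
      _ ≤ T ^ (x * k + x) * (H ^ 4 * T ^ (e + x + (h * (2 : ℕ) + μ * (3 : ℕ) - κ))) := by
          refine mul_le_mul hCk ?_ (by rw [hM, hN]; positivity) (hpos _).le
          rw [hM, hN, EA10_pow hTp]
          calc (1 + d.ε) * H ^ 6 * T ^ (μ * (3 : ℕ)) / T ^ κ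
              = H ^ 4 * ((1 + d.ε) * (H ^ 2 * T ^ (μ * (3 : ℕ)) / T ^ κ)) := by ring
            _ ≤ H ^ 4 * (T ^ (e + x) * (T ^ (h * (2 : ℕ)) * T ^ (μ * (3 : ℕ)) / T ^ κ)) := by
                have := hHp 2
                gcongr
            _ = H ^ 4 * T ^ (e + x + (h * (2 : ℕ) + μ * (3 : ℕ) - κ)) := by rw [hadd, hdiv, hadd]
      _ = (H * T ^ f) ^ 4 := by
          have e1 : T ^ (x * k + x) * T ^ (e + x + (h * (2 : ℕ) + μ * (3 : ℕ) - κ)) = (T ^ f) ^ 4 := by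
            rw [hadd, EA10_pow hTp, hf]
            congr 1
            push_cast
            ring
          rw [mul_pow, ← e1]
          ring
  · obtain ⟨f, hf⟩ : ∃ f : ℝ, f = (x * k + x + (e + x + (h * (3 : ℕ) + μ * (4 : ℕ) - κ * (2 : ℕ)))) / 2 :=
      ⟨_, rfl⟩
    refine hfin f (by rw [hf, hh, hxk']; push_cast; linarith)
      (le_of_pow_le_pow_left₀ two_ne_zero (hHTpos f) ?_)
    calc (W.card : ℝ) ^ 2 ≤ C2 * (T ^ x) ^ k * ((1 + d.ε) * H ^ 5 * d.M ^ 4 / d.N ^ 2) := h5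
      _ ≤ T ^ (x * k + x) * (H ^ 2 * T ^ (e + x + (h * (3 : ℕ) + μ * (4 : ℕ) - κ * (2 : ℕ)))) := by
          refine mul_le_mul hCk ?_ (by rw [hM, hN]; positivity) (hpos _).le
          rw [hM, hN, EA10_pow hTp μ 4, EA10_pow hTp κ 2]
          calc (1 + d.ε) * H ^ 5 * T ^ (μ * (4 : ℕ)) / T ^ (κ * (2 : ℕ))
              = H ^ 2 * ((1 + d.ε) * (H ^ 3 * T ^ (μ * (4 : ℕ)) / T ^ (κ * (2 : ℕ)))) := by ring
            _ ≤ H ^ 2 * (T ^ (e + x) * (T ^ (h * (3 : ℕ)) * T ^ (μ * (4 : ℕ)) / T ^ (κ * (2 : ℕ)))) := by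
                have := hHp 3
                gcongr
            _ = H ^ 2 * T ^ (e + x + (h * (3 : ℕ) + μ * (4 : ℕ) - κ * (2 : ℕ))) := by
                rw [hadd, hdiv, hadd]
      _ = (H * T ^ f) ^ 2 := by
          have e1 : T ^ (x * k + x) * T ^ (e + x + (h * (3 : ℕ) + μ * (4 : ℕ) - κ * (2 : ℕ))) =
              (T ^ f) ^ 2 := by
            rw [hadd, EA10_pow hTp, hf]
            congr 1
            push_cast
            ring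
          rw [mul_pow, ← e1]
          ring

theorem as10d (C0 C2 C1 : ℝ) (k : ℕ) (hKP : KP C0) (hMP : MP2 C2 k C0) (hC1 : 1 ≤ C1) (η : ℝ)
    (hη : 0 < η) : ∃ x T0 : ℝ, 0 < x ∧ x ≤ η ∧ 3 ≤ T0 ∧ ∀ T : ℝ, T0 ≤ T →
      ∀ κ : ℝ, 12 / 25 ≤ κ → κ ≤ 13 / 25 - η → ∀ c : ℕ → ℝ → ℂ, CC C1 T (T ^ κ) c →
      ∀ Y : ℝ, (T * T ^ κ) ^ (1 / 4 : ℝ) * T ^ (-x) ≤ Y →
      TT (T ^ κ) c T Y ≤ T ^ (1 + κ -
        min (1 / 40 - 5 / 4 * (κ - 1 / 2)) (1 / 40 - 13 / 20 * (κ - 1 / 2)) + η) := by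
  obtain ⟨hC0, hker⟩ := hKP
  have hC2 : 1 ≤ C2 := hMP.1
  have hk0 : (0 : ℝ) ≤ k := Nat.cast_nonneg k
  obtain ⟨w, hw0, hw1, hw2⟩ : ∃ w : ℝ, 0 < w ∧ w ≤ η ∧ w ≤ 1 / 100 :=
    ⟨min η (1 / 100), lt_min hη (by norm_num), min_le_left _ _, min_le_right _ _⟩
  obtain ⟨g, hg⟩ : ∃ g : ℝ, g = w / 100 := ⟨_, rfl⟩
  have hg0 : 0 < g := by rw [hg]; positivity
  obtain ⟨x, hxdef⟩ : ∃ x : ℝ, x = g / (20 * (k + 20)) := ⟨_, rfl⟩
  have hx0 : 0 < x := by rw [hxdef]; positivity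
  have hxk : (k : ℝ) * x + 20 * x ≤ g / 20 := by
    rw [hxdef]
    have : (k : ℝ) * (g / (20 * (k + 20))) + 20 * (g / (20 * (k + 20))) = g / 20 := by
      field_simp
    exact this.le
  have hkx : 0 ≤ (k : ℝ) * x := mul_nonneg hk0 hx0.le
  obtain ⟨T4, hT4, h4⟩ := as4 C1 x (by linarith) hx0
  obtain ⟨T5, hT5, h5⟩ := as4b (20000000000 + 8 * C0 + C2) x 1 (by linarith) hx0
  refine ⟨x, max T4 T5, hx0, by linarith, hT4.trans (le_max_left _ _),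
    fun T hT κ hκ1 hκ2 c hc Y hY => ?_⟩
  have hT3 : 3 ≤ T := hT4.trans ((le_max_left _ _).trans hT)
  have hTp : 0 < T := by linarith
  have hT1 : 1 ≤ T := by linarith
  have hdiv := h4 T ((le_max_left _ _).trans hT)
  have hbig := h5 T ((le_max_right _ _).trans hT)
  rw [pow_one] at hbig
  have hl1 : 1 ≤ Real.log T := by
    rw [Real.le_log_iff_exp_le hTp]
    have := Real.exp_one_lt_d9
    linarith
  have hpos : ∀ a : ℝ, 0 < T ^ a := fun a => Real.rpow_pos_of_pos hTp a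
  have hle : ∀ {a b : ℝ}, a ≤ b → T ^ a ≤ T ^ b := fun h => Real.rpow_le_rpow_of_exponent_le hT1 h
  have hadd : ∀ a b : ℝ, T ^ a * T ^ b = T ^ (a + b) := fun a b => (Real.rpow_add hTp a b).symm
  have hone : ∀ {a : ℝ}, 0 ≤ a → 1 ≤ T ^ a := fun h => Real.one_le_rpow hT1 h
  have hC : 20000000000 + 8 * C0 + C2 ≤ T ^ x := by
    refine le_trans ?_ hbig
    have h0 : 0 ≤ 20000000000 + 8 * C0 + C2 := by linarith
    calc 20000000000 + 8 * C0 + C2 = (20000000000 + 8 * C0 + C2) * 1 := (mul_one _).symm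
      _ ≤ (20000000000 + 8 * C0 + C2) * Real.log T := mul_le_mul_of_nonneg_left hl1 h0
  -- the parameters
  obtain ⟨σ, hσ⟩ : ∃ σ : ℝ, σ = min (1 / 40 - 5 / 4 * (κ - 1 / 2)) (1 / 40 - 13 / 20 * (κ - 1 / 2)) :=
    ⟨_, rfl⟩
  obtain ⟨μ, hμ⟩ : ∃ μ : ℝ, μ = 1 / 10 - max (κ - 1 / 2) (3 / 5 * (κ - 1 / 2)) - g := ⟨_, rfl⟩
  obtain ⟨e, he⟩ : ∃ e : ℝ, e = max 0 (2 * κ - 1) := ⟨_, rfl⟩
  have hcases : (1 / 2 ≤ κ ∧ σ = 1 / 40 - 5 / 4 * (κ - 1 / 2) ∧ μ = 1 / 10 - (κ - 1 / 2) - g ∧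
      e = 2 * κ - 1) ∨ (κ ≤ 1 / 2 ∧ σ = 1 / 40 - 13 / 20 * (κ - 1 / 2) ∧
      μ = 1 / 10 - 3 / 5 * (κ - 1 / 2) - g ∧ e = 0) := by
    rcases le_total (1 / 2) κ with h | h
    · left
      refine ⟨h, ?_, ?_, ?_⟩
      · rw [hσ, min_eq_left (by linarith)]
      · rw [hμ, max_eq_left (by linarith)]
      · rw [he, max_eq_right (by linarith)]
    · right
      refine ⟨h, ?_, ?_, ?_⟩
      · rw [hσ, min_eq_right (by linarith)]
      · rw [hμ, max_eq_right (by linarith)]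
      · rw [he, max_eq_left (by linarith)]
  obtain ⟨b, hb⟩ : ∃ b : ℝ, b = 2 * κ + μ - σ + 2 * g := ⟨_, rfl⟩
  rw [← hσ]
  have hY' : T ^ ((1 + κ) / 4 - x) ≤ Y := by
    refine le_trans (le_of_eq ?_) hY
    have h1 : T * T ^ κ = T ^ (1 + κ) := by
      rw [Real.rpow_add hTp, Real.rpow_one]
    rw [h1, ← Real.rpow_mul hTp.le, hadd]
    congr 1
    ring
  have hY1 : 1 ≤ Y := le_trans (hone (by linarith)) hY'
  have hμ0 : 1 / 20 ≤ μ := by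
    rcases hcases with ⟨h1, h2, h3, h4⟩ | ⟨h1, h2, h3, h4⟩ <;> rw [h3] <;> linarith
  have hμ1 : μ ≤ 1 / 8 := by
    rcases hcases with ⟨h1, h2, h3, h4⟩ | ⟨h1, h2, h3, h4⟩ <;> rw [h3] <;> linarith
  have hKT : T ^ κ ≤ T / 1000 := by
    rw [le_div_iff₀ (by norm_num)]
    calc T ^ κ * 1000 = 1000 * T ^ κ := mul_comm _ _
      _ ≤ T ^ (1 : ℝ) := EA10_mul hT1 (by linarith : (1000 : ℝ) ≤ T ^ x) (by linarith)
      _ = T := Real.rpow_one T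
  have hKle : ∀ n : ℕ, (n : ℝ) ≤ T ^ κ → (n : ℝ) ≤ T := fun n hn => by linarith
  have hΛ : ∀ n : ℕ, (n : ℝ) ≤ T ^ κ → C1 * n.divisors.card ≤ T ^ x :=
    fun n hn => hdiv n (hKle n hn)
  by_cases hYX : Y ≤ 2 * (T ^ x * T ^ κ)
  swap
  · push Not at hYX
    have h1 := (as5c C1 T (T ^ κ) (T ^ x) c hc (hpos _).le hΛ).1
    have h2 : TT (T ^ κ) c T Y = 0 := by
      unfold TT
      have h3 : ∫ t in T..(2 * T), (if Y ≤ ‖SS (T ^ κ) c t‖ then ‖SS (T ^ κ) c t‖ ^ 2 else 0) =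
          ∫ t in T..(2 * T), (0 : ℝ) := by
        refine intervalIntegral.integral_congr fun t ht => ?_
        rw [Set.uIcc_of_le (by linarith)] at ht
        have h4 := h1 t ht
        have h5 : 0 < T ^ x * T ^ κ := mul_pos (hpos _) (hpos _)
        exact if_neg (by linarith)
      rw [h3, intervalIntegral.integral_zero]
    rw [h2]
    exact (hpos _).le
  have r2 : T ^ 2 = T ^ (2 : ℝ) := (Real.rpow_natCast T 2).symm
  have hdv : ∀ a b : ℝ, T ^ a / T ^ b = T ^ (a - b) := fun a b => (Real.rpow_sub hTp a b).symm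
  have hE : T ^ x * (T ^ μ * (T ^ κ) ^ (3 / 2 : ℝ) / T ^ (1 / 2 : ℝ) + (T ^ μ) ^ 3 * (T ^ κ) ^ 4 / T ^ 2 +
      (T ^ μ) ^ 2 * (T ^ κ) ^ (9 / 2 : ℝ) / T ^ (5 / 2 : ℝ)) ≤ Y / 100 := by
    have e1 : T ^ x * (T ^ μ * (T ^ κ) ^ (3 / 2 : ℝ) / T ^ (1 / 2 : ℝ)) =
        T ^ (x + (μ + κ * (3 / 2) - 1 / 2)) := by
      rw [← Real.rpow_mul hTp.le, hadd, hdv, hadd]
    have e2 : T ^ x * ((T ^ μ) ^ 3 * (T ^ κ) ^ 4 / T ^ 2) =
        T ^ (x + (μ * (3 : ℕ) + κ * (4 : ℕ) - 2)) := by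
      rw [r2, EA10_pow hTp, EA10_pow hTp, hadd, hdv, hadd]
    have e3 : T ^ x * ((T ^ μ) ^ 2 * (T ^ κ) ^ (9 / 2 : ℝ) / T ^ (5 / 2 : ℝ)) =
        T ^ (x + (μ * (2 : ℕ) + κ * (9 / 2) - 5 / 2)) := by
      rw [EA10_pow hTp, ← Real.rpow_mul hTp.le, hadd, hdv, hadd]
    have k1 : 300 * T ^ (x + (μ + κ * (3 / 2) - 1 / 2)) ≤ T ^ ((1 + κ) / 4 - x) := by
      refine EA10_mul hT1 (by linarith : (300 : ℝ) ≤ T ^ x) ?_
      rcases hcases with ⟨h1, h2, h3, h4⟩ | ⟨h1, h2, h3, h4⟩ <;> rw [h3] <;> linarith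
    have k2 : 300 * T ^ (x + (μ * (3 : ℕ) + κ * (4 : ℕ) - 2)) ≤ T ^ ((1 + κ) / 4 - x) := by
      refine EA10_mul hT1 (by linarith : (300 : ℝ) ≤ T ^ x) ?_
      push_cast
      rcases hcases with ⟨h1, h2, h3, h4⟩ | ⟨h1, h2, h3, h4⟩ <;> rw [h3] <;> linarith
    have k3 : 300 * T ^ (x + (μ * (2 : ℕ) + κ * (9 / 2) - 5 / 2)) ≤ T ^ ((1 + κ) / 4 - x) := by
      refine EA10_mul hT1 (by linarith : (300 : ℝ) ≤ T ^ x) ?_
      push_cast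
      rcases hcases with ⟨h1, h2, h3, h4⟩ | ⟨h1, h2, h3, h4⟩ <;> rw [h3] <;> linarith
    rw [mul_add, mul_add, e1, e2, e3]
    linarith
  have hΘ : (T ^ μ) ^ 2 * (T ^ κ) ^ (5 / 2 : ℝ) ≤ T ^ (3 / 2 : ℝ) := by
    rw [EA10_pow hTp, ← Real.rpow_mul hTp.le, hadd]
    refine hle ?_
    push_cast
    rcases hcases with ⟨h1, h2, h3, h4⟩ | ⟨h1, h2, h3, h4⟩ <;> rw [h3] <;> linarith
  have hκM : T ^ μ * (T ^ κ) ^ (1 / 2 : ℝ) ≤ 12 * T ^ (1 / 2 : ℝ) := by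
    rw [← Real.rpow_mul hTp.le, hadd]
    have h1 : T ^ (μ + κ * (1 / 2)) ≤ T ^ (1 / 2 : ℝ) := hle (by linarith)
    have h2 := hpos (1 / 2 : ℝ)
    linarith
  have hK2' : 2 ≤ T ^ κ := by
    have h1 : T ^ x ≤ T ^ κ := hle (by linarith)
    linarith
  have hT1000 : 1000 ≤ T := by
    have h1 : T ^ x ≤ T ^ (1 : ℝ) := hle (by linarith)
    rw [Real.rpow_one] at h1
    linarith
  have hLV := EA10_LV C0 C2 k hC0 hMP x g κ μ σ e b hx0 hxk hg0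
    (by rw [he]; exact le_max_left _ _) (by rw [he]; exact le_max_right _ _) hκ1 (by linarith) hμ0 hμ1
    (by rcases hcases with ⟨h1, h2, h3, h4⟩ | ⟨h1, h2, h3, h4⟩ <;> rw [h4] <;> linarith)
    (by rcases hcases with ⟨h1, h2, h3, h4⟩ | ⟨h1, h2, h3, h4⟩ <;> rw [h3] <;> linarith)
    (by rcases hcases with ⟨h1, h2, h3, h4⟩ | ⟨h1, h2, h3, h4⟩ <;> rw [h2, h3] <;> linarith)
    (by rcases hcases with ⟨h1, h2, h3, h4⟩ | ⟨h1, h2, h3, h4⟩ <;> rw [h2, h3] <;> linarith)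
    (by rcases hcases with ⟨h1, h2, h3, h4⟩ | ⟨h1, h2, h3, h4⟩ <;> rw [h2, h3, h4] <;> linarith)
    (by rcases hcases with ⟨h1, h2, h3, h4⟩ | ⟨h1, h2, h3, h4⟩ <;> rw [h2, h3, h4] <;> linarith)
    hb T Y hT3 hl1
    (by
      refine le_trans ?_ hbig
      exact mul_le_mul_of_nonneg_right (by linarith) (by linarith)) hY'
  have h8 := as8d C0 C1 T (T ^ κ) (T ^ μ) (T ^ x) Y (T ^ b) c ⟨hC0, hker⟩ hc hΛ (hone hx0.le) hT1000
    hK2' hKT (hone (by linarith)) (hle (by linarith)) (by linarith) (hpos _).le hYX hE hΘ hκM hLV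
  refine h8.trans ?_
  -- the logarithm
  have hlog : Real.log (4000 * (T ^ x * T ^ κ) / Y) ≤ 2 * Real.log T := by
    have h1 : 4000 * (T ^ x * T ^ κ) / Y ≤ T ^ (2 : ℝ) := by
      rw [div_le_iff₀ (by linarith), hadd]
      have h2 : 4000 * T ^ (x + κ) ≤ T ^ (2 : ℝ) :=
        EA10_mul hT1 (by linarith : (4000 : ℝ) ≤ T ^ x) (by linarith)
      have h3 : T ^ (2 : ℝ) * 1 ≤ T ^ (2 : ℝ) * Y := mul_le_mul_of_nonneg_left hY1 (hpos _).le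
      linarith
    have h2 : 0 < 4000 * (T ^ x * T ^ κ) / Y := by
      have h3 := mul_pos (hpos x) (hpos κ)
      positivity
    have h3 := Real.log_le_log h2 h1
    rw [Real.log_rpow hTp] at h3
    exact h3
  have hL : 4 + 6 * Real.log (4000 * (T ^ x * T ^ κ) / Y) ≤ 16 * Real.log T := by linarith
  have h9 : 16000000000 * Real.log T ≤ T ^ x := by
    refine le_trans ?_ hbig
    exact mul_le_mul_of_nonneg_right (by linarith) (by linarith)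
  have e3 : 10 ^ 9 * T / (T ^ μ * T ^ κ) * T ^ b = 10 ^ 9 * T ^ (1 + κ - σ + 2 * g) := by
    have h1 : T ^ (1 + κ - σ + 2 * g) = T ^ (1 : ℝ) / (T ^ μ * T ^ κ) * T ^ b := by
      rw [hadd, hdv, hadd, hb]
      congr 1
      ring
    rw [h1, Real.rpow_one]
    ring
  rw [e3]
  calc 10 ^ 9 * T ^ (1 + κ - σ + 2 * g) * (4 + 6 * Real.log (4000 * (T ^ x * T ^ κ) / Y))
      ≤ 10 ^ 9 * T ^ (1 + κ - σ + 2 * g) * (16 * Real.log T) :=
        mul_le_mul_of_nonneg_left hL (mul_nonneg (by norm_num) (hpos _).le)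
    _ = (16000000000 * Real.log T) * T ^ (1 + κ - σ + 2 * g) := by ring
    _ ≤ T ^ (1 + κ - σ + η) := EA10_mul hT1 h9 (by linarith)

end Pool.Agent.LibSX15
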