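import Pool.Agent.LibEX15.EA10
import Pool.Agent.LibSX15.AS14

/-! ROW [EX EA14] (uses as10d, AS4 (as4b), AS9, AS11, AS13 as stated; as AS14, copy its frame).
`V = T^v`, `v ≥ 1/8 - 1/200 + η/16`; WLOG `η ≤ 1/100`? (NO: `η` only enters as a loss; if `η > 1/100` the range of `V` is smaller and the bound weaker: replace `η` by `min η (1/100)`.)
as13 gives `ι, K i, c i`, `K i ≤ C1 L⁶ T/V⁴ ≤ T^(1 - 4v + s)`, `s = η/1000` (T large). `δ = min ((A-4)/200) ((12-A)/216)`.  Claim for every `i`: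
`V^(A-2) (T K i)^(-1/2) TT_i ≤ T^(1 + (A-4)/8 - δ + η/4)`; then `V^A #RS ≤ C1 L⁷ (C1 L²) T^(..+η/4) ≤ T^(.. + η/2)`. Threshold `≥ (TK)^(1/4) T^(-s')` for every `s' > 0`.
Write `K i = T^κ`, `κ ≤ 1 - 4v + s` (`κ = logb T (K i)`).
(0) `κ ≤ 1/3 - s/20`: as11: `TT = 0`.
(1) `1/3 - s/20 ≤ κ ≤ 1/2 - 1/54`: as9 with `e = s`: `TT ≤ T^s K³`, exponent `(A-2)v - 1/2 + 5κ/2 + s`.
    If `v ≥ 1/8 + 1/216`: `κ ≤ 1 - 4v + s`: `≤ 2 - (12-A) v + 7s/2 ≤ 1 + (A-4)/8 - (12-A)/216 + 4s`.  If `v ≤ 1/8 + 1/216`: `κ ≤ 1/2 - 1/54`: the same bound.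
(2) `1/2 - 1/54 ≤ κ` (`≥ 12/25`), `κ ≤ 1 - 4v + s ≤ 13/25 - η/4 + s ≤ 13/25 - η/8`: as10d with `η/8`: exponent `f = (A-2)v + (1+κ)/2 - σ(κ) + η/8`, `σ κ = min (1/40 - 5/4 (κ-1/2)) (1/40 - 13/20 (κ-1/2))`,
    increasing in κ with slope `≤ 7/4`, so `≤` its value at `κ' = 1 - 4v` plus `2s` (if `κ ≤ κ'` just monotone).  With `v = 1/8 - z`: `κ' = 1/2 + 4z`:
    `f ≤ 1 + (A-4)/8 - (A-4) z - σ(1/2 + 4z) + η/8 + 2s`.   `0 ≤ z ≤ 1/200`: `(A-4)z + 1/40 - 5z ≥ δ` (linear in z: `1/40 ≥ (12-A)/216` or `≥ (A-4)/200`, and at `z = 1/200` it is `(A-4)/200`);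
    `z = -y`, `0 ≤ y`: `1/40 + 2.6y - (A-4)y ≥ δ` for `y ≤ 1/216` (at `y = 0`: `1/40`, at `y = 1/216`: `(12-A)/216`); `y ≤ 1/216 + s` because `κ ≥ 1/2 - 1/54` and `κ ≤ 1 - 4v + s`. -/

set_option autoImplicit false

namespace Pool.Agent.LibSX15

open Finset

/-- case (1): the exponent -/
theorem as14d_e1 (A v κ s δ : ℝ) (hA : 4 < A) (hA2 : A < 12) (hs : 0 < s) (hκv : κ + 4 * v ≤ 1 + s)
    (hκ : κ ≤ 1 / 2 - 1 / 54) (hδ : δ ≤ (12 - A) / 216) :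
    (A - 2) * v + (-(1 + κ) / 2 + (s + 3 * κ)) ≤ 1 + (A - 4) / 8 - δ + 4 * s := by
  rcases le_total v (1 / 8 + 1 / 216) with h | h
  · have h1 : (A - 2) * v ≤ (A - 2) * (1 / 8 + 1 / 216) :=
      mul_le_mul_of_nonneg_left h (by linarith)
    linarith
  · have h1 : (12 - A) * (1 / 8 + 1 / 216) ≤ (12 - A) * v :=
      mul_le_mul_of_nonneg_left h (by linarith)
    linarith

/-- case (2): the exponent -/
theorem as14d_e2 (A v κ s η δ : ℝ) (hA : 4 < A) (hA2 : A < 12) (hs : 0 < s) (hη : 0 < η)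
    (hsη : s = η / 1000) (hκv : κ + 4 * v ≤ 1 + s) (hv : 1 / 8 - 1 / 200 + η / 16 ≤ v)
    (hκ : 1 / 2 - 1 / 54 ≤ κ) (hδ1 : δ ≤ (A - 4) / 200) (hδ2 : δ ≤ (12 - A) / 216) :
    (A - 2) * v + (-(1 + κ) / 2 + (1 + κ -
        min (1 / 40 - 5 / 4 * (κ - 1 / 2)) (1 / 40 - 13 / 20 * (κ - 1 / 2)) + η / 8)) ≤
      1 + (A - 4) / 8 - δ + η / 4 := by
  have hδ3 : δ ≤ 1 / 40 := by
    rcases le_total A 9 with h | h <;> linarith
  rcases le_total κ (1 / 2) with hk | hk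
  · rw [min_eq_right (by linarith)]
    rcases le_total v (1 / 8) with h | h
    · have h1 : (A - 2) * v ≤ (A - 2) * (1 / 8) := mul_le_mul_of_nonneg_left h (by linarith)
      linarith
    · have hv2 : v ≤ 1 / 8 + 1 / 216 + s / 4 := by linarith
      rcases le_total A (33 / 5) with h2 | h2
      · have h3 : (33 / 5 - A) * (1 / 8) ≤ (33 / 5 - A) * v :=
          mul_le_mul_of_nonneg_left h (by linarith)
        linarith
      · have h3 : (A - 33 / 5) * v ≤ (A - 33 / 5) * (1 / 8 + 1 / 216 + s / 4) :=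
          mul_le_mul_of_nonneg_left hv2 (by linarith)
        have h4 : (A - 33 / 5) * (s / 4) ≤ (27 / 5) * (s / 4) :=
          mul_le_mul_of_nonneg_right (by linarith) (by linarith)
        have h5 : (A - 33 / 5) * (1 / 8 + 1 / 216 + s / 4) =
          (A - 33 / 5) * (1 / 8 + 1 / 216) + (A - 33 / 5) * (s / 4) := by ring
        linarith
  · rw [min_eq_left (by linarith)]
    rcases le_total A 9 with h | h
    · have h1 : (9 - A) * (1 / 8 - 1 / 200) ≤ (9 - A) * v :=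
        mul_le_mul_of_nonneg_left (by linarith) (by linarith)
      linarith
    · have hv2 : v ≤ 1 / 8 + s / 4 := by linarith
      have h1 : (A - 9) * v ≤ (A - 9) * (1 / 8 + s / 4) :=
        mul_le_mul_of_nonneg_left hv2 (by linarith)
      have h4 : (A - 9) * (s / 4) ≤ 3 * (s / 4) :=
        mul_le_mul_of_nonneg_right (by linarith) (by linarith)
      have h5 : (A - 9) * (1 / 8 + s / 4) = (A - 9) * (1 / 8) + (A - 9) * (s / 4) := by ring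
      linarith

theorem as14d_claim (C0 C2 C3 C1 : ℝ) (k : ℕ) (hKP : KP C0) (hHP : HP C0 C2) (hMP : MP2 C3 k C0)
    (hC1 : 1 ≤ C1) (A η : ℝ) (hA : 4 < A) (hA2 : A < 12) (hη : 0 < η) (hη1 : η ≤ 1 / 100) :
    ∃ T0 : ℝ, 3 ≤ T0 ∧ ∀ T : ℝ, T0 ≤ T → ∀ V : ℝ, T ^ (1 / 8 - 1 / 200 + η / 16) ≤ V →
      ∀ (K : ℝ) (c : ℕ → ℝ → ℂ), CC C1 T K c → 0 < K → K ≤ C1 * (Real.log T) ^ 6 * T / V ^ 4 →
      V ^ (A - 2) * ((T * K) ^ (-1 / 2 : ℝ) *
        TT K c T ((T * K) ^ (1 / 4 : ℝ) / (C1 * (Real.log T) ^ 2))) ≤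
        T ^ (1 + (A - 4) / 8 - min ((A - 4) / 200) ((12 - A) / 216) + η / 4) := by
  obtain ⟨s, hs⟩ : ∃ s : ℝ, s = η / 1000 := ⟨_, rfl⟩
  have hs0 : 0 < s := by
    rw [hs]
    linarith
  obtain ⟨δ, hδ⟩ : ∃ δ : ℝ, δ = min ((A - 4) / 200) ((12 - A) / 216) := ⟨_, rfl⟩
  have hδ1 : δ ≤ (A - 4) / 200 := hδ ▸ min_le_left _ _
  have hδ2 : δ ≤ (12 - A) / 216 := hδ ▸ min_le_right _ _
  rw [← hδ]
  obtain ⟨Ta, hTa, ha⟩ := as11 C1 (s / 20) hC1 (by positivity) (by linarith)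
  obtain ⟨Tb, hTb, hb⟩ := as9 C0 C2 C1 s hKP hHP hC1 hs0 (by linarith)
  obtain ⟨x, Tc, hx, hx1, hTc, hc⟩ := as10d C0 C3 C1 k hKP hMP hC1 (η / 8) (by linarith)
  obtain ⟨r, hr⟩ : ∃ r : ℝ, r = min (s / 100) x := ⟨_, rfl⟩
  have hr0 : 0 < r := hr ▸ lt_min (by linarith) hx
  have hr1 : r ≤ s / 100 := hr ▸ min_le_left _ _
  have hr2 : r ≤ x := hr ▸ min_le_right _ _
  obtain ⟨Td, hTd, hd⟩ := as4b C1 r 2 (by linarith) hr0
  obtain ⟨Te, hTe, hE⟩ := as4b C1 s 6 (by linarith) hs0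
  refine ⟨max Ta (max Tb (max Tc (max Td Te))), hTa.trans (le_max_left _ _),
    fun T hT V hV K c hcc hK hK2 => ?_⟩
  simp only [max_le_iff] at hT
  obtain ⟨hT1, hT2, hT3, hT4, hT5⟩ := hT
  have hT0 : 0 < T := by linarith
  have hT' : 1 < T := by linarith
  have hT'' : 1 ≤ T := hT'.le
  have hlog : 0 < Real.log T := Real.log_pos (by linarith)
  have hC0' : 0 < C1 := by linarith
  have hP2 : 0 < C1 * Real.log T ^ 2 := by positivity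
  have hd' := hd T hT4
  have hE' := hE T hT5
  have hV0 : 0 < V := lt_of_lt_of_le (Real.rpow_pos_of_pos hT0 _) hV
  have hTK : 0 < T * K := mul_pos hT0 hK
  have hq : 0 ≤ (T * K) ^ (1 / 4 : ℝ) := (Real.rpow_pos_of_pos hTK _).le
  have thr : ∀ y : ℝ, r ≤ y → (T * K) ^ (1 / 4 : ℝ) * T ^ (-y) ≤
      (T * K) ^ (1 / 4 : ℝ) / (C1 * (Real.log T) ^ 2) := fun y hy =>
    as14_thr hT0 hq hP2 (hd'.trans (Real.rpow_le_rpow_of_exponent_le hT'' hy))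
  -- everything is a power of `T`
  obtain ⟨v, hv⟩ : ∃ v : ℝ, T ^ v = V := ⟨Real.logb T V, Real.rpow_logb hT0 hT'.ne' hV0⟩
  obtain ⟨κ, hκ⟩ : ∃ κ : ℝ, T ^ κ = K := ⟨Real.logb T K, Real.rpow_logb hT0 hT'.ne' hK⟩
  have hv1 : 1 / 8 - 1 / 200 + η / 16 ≤ v := by
    rw [← hv] at hV
    exact (Real.rpow_le_rpow_left_iff hT').1 hV
  have hκv : κ + 4 * v ≤ 1 + s := by
    rw [le_div_iff₀ (by positivity)] at hK2
    have h1 : K * V ^ 4 ≤ T ^ (1 + s) := by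
      refine hK2.trans ?_
      rw [Real.rpow_add hT0, Real.rpow_one, mul_comm T]
      exact mul_le_mul_of_nonneg_right hE' hT0.le
    rw [← hv, ← hκ, ← Real.rpow_natCast, ← Real.rpow_mul hT0.le, ← Real.rpow_add hT0] at h1
    have h2 := (Real.rpow_le_rpow_left_iff hT').1 h1
    push_cast at h2
    linarith
  have hVA : V ^ (A - 2) = T ^ ((A - 2) * v) := by
    rw [← hv, ← Real.rpow_mul hT0.le, mul_comm v]
  have hTKe : T * K = T ^ (1 + κ) := by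
    rw [← hκ, Real.rpow_add hT0, Real.rpow_one]
  have hTKh : (T * K) ^ (-1 / 2 : ℝ) = T ^ (-(1 + κ) / 2) := by
    rw [hTKe, ← Real.rpow_mul hT0.le]
    congr 1
    ring
  have fin : ∀ E : ℝ, TT K c T ((T * K) ^ (1 / 4 : ℝ) / (C1 * (Real.log T) ^ 2)) ≤ T ^ E →
      (A - 2) * v + (-(1 + κ) / 2 + E) ≤ 1 + (A - 4) / 8 - δ + η / 4 →
      V ^ (A - 2) * ((T * K) ^ (-1 / 2 : ℝ) *
        TT K c T ((T * K) ^ (1 / 4 : ℝ) / (C1 * (Real.log T) ^ 2))) ≤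
        T ^ (1 + (A - 4) / 8 - δ + η / 4) := by
    intro E h1 h2
    rw [hTKh, hVA]
    calc T ^ ((A - 2) * v) * (T ^ (-(1 + κ) / 2) *
          TT K c T ((T * K) ^ (1 / 4 : ℝ) / (C1 * (Real.log T) ^ 2)))
        ≤ T ^ ((A - 2) * v) * (T ^ (-(1 + κ) / 2) * T ^ E) :=
          mul_le_mul_of_nonneg_left (mul_le_mul_of_nonneg_left h1 (by positivity)) (by positivity)
      _ = T ^ ((A - 2) * v + (-(1 + κ) / 2 + E)) := by
          rw [Real.rpow_add hT0, Real.rpow_add hT0 (-(1 + κ) / 2)]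
      _ ≤ _ := Real.rpow_le_rpow_of_exponent_le hT'' h2
  rcases le_or_gt K (T ^ (1 / 3 - s / 20)) with h0 | h0
  · rw [ha T hT1 K c hcc hK h0 _ (thr _ (by linarith)), mul_zero, mul_zero]
    positivity
  rcases le_or_gt κ (1 / 2 - 1 / 54) with h3 | h3
  · have hK3 : K ≤ T ^ (1 / 2 - s) := by
      rw [← hκ]
      exact Real.rpow_le_rpow_of_exponent_le hT'' (by linarith)
    have hTT := hb T hT2 K c hcc h0.le hK3 _ (thr _ hr1)
    refine fin (s + 3 * κ) (hTT.trans (le_of_eq ?_)) ?_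
    · rw [← hκ, ← Real.rpow_natCast, ← Real.rpow_mul hT0.le, ← Real.rpow_add hT0]
      congr 1
      push_cast
      ring
    · have := as14d_e1 A v κ s δ hA hA2 hs0 hκv h3 hδ2
      linarith
  · have hTT := hc T hT3 κ (by linarith) (by linarith) c (by rw [hκ]; exact hcc)
      ((T * K) ^ (1 / 4 : ℝ) / (C1 * (Real.log T) ^ 2)) (by rw [hκ]; exact thr x hr2)
    rw [hκ] at hTT
    exact fin _ hTT (as14d_e2 A v κ s η δ hA hA2 hs0 hη hs hκv hv1 h3.le hδ1 hδ2)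

theorem as14d (C0 C2 C3 C4 T4 : ℝ) (k : ℕ) (hKP : KP C0) (hHP : HP C0 C2) (hMP : MP2 C3 k C0)
    (hZP : ZP C4 T4) (A : ℝ) (hA : 4 < A) (hA2 : A < 12) (η : ℝ) (hη : 0 < η) :
    ∃ T0 : ℝ, 3 ≤ T0 ∧ ∀ T : ℝ, T0 ≤ T →
      ∀ V : ℝ, T ^ (1 / 8 - 1 / 200 + η / 16) ≤ V → V ≤ T ^ (9 / 50 : ℝ) →
        V ^ A * ((RS T V).card : ℝ) ≤
          T ^ (1 + (A - 4) / 8 - min ((A - 4) / 200) ((12 - A) / 216) + η / 2) := by
  obtain ⟨C1, T1, hC1, hT1, h13⟩ := as13 C4 T4 hZP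
  obtain ⟨e, he⟩ : ∃ e : ℝ, e = min η (1 / 100) := ⟨_, rfl⟩
  have he0 : 0 < e := he ▸ lt_min hη (by norm_num)
  have he1 : e ≤ η := he ▸ min_le_left _ _
  have he2 : e ≤ 1 / 100 := he ▸ min_le_right _ _
  obtain ⟨T2, hT2, hcl⟩ := as14d_claim C0 C2 C3 C1 k hKP hHP hMP hC1 A e hA hA2 he0 he2
  obtain ⟨T3, hT3, hL⟩ := as4b (C1 ^ 2) (e / 4) 9 (by positivity) (by linarith)
  refine ⟨max T1 (max T2 T3), hT1.trans (le_max_left _ _), fun T hT V hV hV2 => ?_⟩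
  simp only [max_le_iff] at hT
  obtain ⟨hTa, hTb, hTc⟩ := hT
  have hT0 : 0 < T := by linarith
  have hT' : 1 ≤ T := by linarith
  have hlog : 0 < Real.log T := Real.log_pos (by linarith)
  have hC0' : 0 < C1 := by linarith
  have hV0 : 0 < V := lt_of_lt_of_le (Real.rpow_pos_of_pos hT0 _) hV
  obtain ⟨F, hF⟩ : ∃ F : ℝ, F = 1 + (A - 4) / 8 - min ((A - 4) / 200) ((12 - A) / 216) := ⟨_, rfl⟩
  rw [← hF]
  obtain ⟨ι, K, c, hι, hK, hc, hRS⟩ := h13 T hTa V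
    ((Real.rpow_le_rpow_of_exponent_le hT' (by linarith)).trans hV)
    (hV2.trans (Real.rpow_le_rpow_of_exponent_le hT' (by norm_num)))
  have hVA : V ^ A = V ^ (A - 2) * V ^ 2 := by
    rw [← Real.rpow_natCast V 2, ← Real.rpow_add hV0]
    congr 1
    push_cast
    ring
  have hVe : T ^ (1 / 8 - 1 / 200 + e / 16) ≤ V :=
    (Real.rpow_le_rpow_of_exponent_le hT' (by linarith)).trans hV
  have hsum : ∑ i ∈ ι, V ^ (A - 2) * ((T * K i) ^ (-1 / 2 : ℝ) *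
      TT (K i) (c i) T ((T * K i) ^ (1 / 4 : ℝ) / (C1 * (Real.log T) ^ 2))) ≤
      C1 * (Real.log T) ^ 2 * T ^ (F + e / 4) := by
    refine (Finset.sum_le_card_nsmul ι _ (T ^ (F + e / 4)) fun i hi => ?_).trans ?_
    · rw [hF]
      exact hcl T hTb V hVe (K i) (c i) (hc i hi) (hK i hi).1 (hK i hi).2
    · rw [nsmul_eq_mul]
      exact mul_le_mul_of_nonneg_right hι (by positivity)
  calc V ^ A * ((RS T V).card : ℝ)
      ≤ V ^ A * (C1 * (Real.log T) ^ 7 / V ^ 2 * ∑ i ∈ ι, (T * K i) ^ (-1 / 2 : ℝ) *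
        TT (K i) (c i) T ((T * K i) ^ (1 / 4 : ℝ) / (C1 * (Real.log T) ^ 2))) :=
        mul_le_mul_of_nonneg_left hRS (by positivity)
    _ = C1 * (Real.log T) ^ 7 * ∑ i ∈ ι, V ^ (A - 2) * ((T * K i) ^ (-1 / 2 : ℝ) *
        TT (K i) (c i) T ((T * K i) ^ (1 / 4 : ℝ) / (C1 * (Real.log T) ^ 2))) := by
        rw [← Finset.mul_sum, hVA]
        field_simp
    _ ≤ C1 * (Real.log T) ^ 7 * (C1 * (Real.log T) ^ 2 * T ^ (F + e / 4)) :=
        mul_le_mul_of_nonneg_left hsum (by positivity)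
    _ = (C1 ^ 2 * (Real.log T) ^ 9) * T ^ (F + e / 4) := by ring
    _ ≤ T ^ (e / 4) * T ^ (F + e / 4) :=
        mul_le_mul_of_nonneg_right (hL T hTc) (by positivity)
    _ = T ^ (F + e / 2) := by
        rw [← Real.rpow_add hT0]
        congr 1
        ring
    _ ≤ T ^ (F + η / 2) := Real.rpow_le_rpow_of_exponent_le hT' (by linarith)

end Pool.Agent.LibSX15
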