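import Pool.Agent.LibEX15.EXDefs
import Pool.Agent.LibSX15.AS16

/-! ROW [EX EA16] (short; as AS16, copy its proof, explicit exponents). `E = 1 + (A-4)/8 - D + 3η/4 ≥ 0` (as `D ≤ 1`):
`∫_0^T ≤ C + 2 (log T + 1) 2^E T^E ≤ T^(E + η/4)` for large `T`. -/

set_option autoImplicit false

namespace Pool.Agent.LibSX15

open Finset

private theorem EA16_dy (A E : ℝ) (N0 : ℕ) (hA : 4 < A) (hE : 0 ≤ E)
    (h : ∀ N : ℕ, N0 ≤ N → 1 ≤ N →
      ∫ t in (N : ℝ)..(2 * N), ‖riemannZeta (1 / 2 + (t : ℂ) * Complex.I)‖ ^ A ≤ (N : ℝ) ^ E) :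
    ∃ C : ℝ, 0 ≤ C ∧ ∃ m0 : ℕ, ∀ m : ℕ, m0 ≤ m →
      ∫ t in (0:ℝ)..((2 : ℝ) ^ m), ‖riemannZeta (1 / 2 + (t : ℂ) * Complex.I)‖ ^ A ≤
        C + m * ((2 : ℝ) ^ m) ^ E := by
  have hcont : Continuous fun t : ℝ => ‖riemannZeta (1 / 2 + (t : ℂ) * Complex.I)‖ ^ A :=
    Continuous.rpow_const Pool.Agent.LibPH.a01_cont' fun _ => Or.inr (by linarith)
  have hnn : ∀ t : ℝ, 0 ≤ ‖riemannZeta (1 / 2 + (t : ℂ) * Complex.I)‖ ^ A := fun t =>
    Real.rpow_nonneg (norm_nonneg _) _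
  refine ⟨∫ t in (0:ℝ)..((2 : ℝ) ^ N0), ‖riemannZeta (1 / 2 + (t : ℂ) * Complex.I)‖ ^ A,
    intervalIntegral.integral_nonneg (by positivity) fun t _ => hnn t, N0, fun m hm => ?_⟩
  induction m, hm using Nat.le_induction with
  | base =>
    have h1 : (0 : ℝ) ≤ (N0 : ℝ) * ((2 : ℝ) ^ N0) ^ E := by positivity
    linarith
  | succ m hm ih =>
    have h1 : (2 : ℝ) ^ (m + 1) = 2 * (2 : ℝ) ^ m := by rw [pow_succ]; ring
    have h2 := intervalIntegral.integral_add_adjacent_intervals (μ := MeasureTheory.volume)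
      (hcont.intervalIntegrable (0 : ℝ) ((2 : ℝ) ^ m))
      (hcont.intervalIntegrable ((2 : ℝ) ^ m) ((2 : ℝ) ^ (m + 1)))
    have h3 := h (2 ^ m) (hm.trans Nat.lt_two_pow_self.le) Nat.one_le_two_pow
    push_cast at h3
    rw [← h1] at h3
    rw [← h2]
    have h4 : ((2 : ℝ) ^ m) ^ E ≤ ((2 : ℝ) ^ (m + 1)) ^ E := by
      refine Real.rpow_le_rpow (by positivity) ?_ hE
      rw [h1]
      have : (0 : ℝ) < (2 : ℝ) ^ m := by positivity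
      linarith
    have h5 : (m : ℝ) * ((2 : ℝ) ^ m) ^ E ≤ (m : ℝ) * ((2 : ℝ) ^ (m + 1)) ^ E :=
      mul_le_mul_of_nonneg_left h4 (Nat.cast_nonneg _)
    push_cast
    linarith

theorem as16d (A D η : ℝ) (N0 : ℕ) (hA : 4 < A) (hη : 0 < η) (hD : D ≤ 1)
    (h : ∀ N : ℕ, N0 ≤ N →
      ∫ t in (N : ℝ)..(2 * N), ‖riemannZeta (1 / 2 + (t : ℂ) * Complex.I)‖ ^ A ≤
        (N : ℝ) ^ (1 + (A - 4) / 8 - D + 3 * η / 4)) :
    ∃ T0 : ℝ, 1 ≤ T0 ∧ ∀ T : ℝ, T0 ≤ T →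
      ∫ t in (0:ℝ)..T, ‖riemannZeta (1 / 2 + (t : ℂ) * Complex.I)‖ ^ A ≤
        T ^ (1 + (A - 4) / 8 - D + η) := by
  obtain ⟨E, hE⟩ : ∃ E : ℝ, E = 1 + (A - 4) / 8 - D + 3 * η / 4 := ⟨_, rfl⟩
  have hE0 : 0 ≤ E := by
    rw [hE]
    linarith
  obtain ⟨C, hC0, m0, hC⟩ := EA16_dy A E N0 hA hE0 (fun N hN hN1 => by
    rw [hE]
    exact h N hN)
  obtain ⟨T1, hT1, hlog⟩ := as4b (C + 4 * 2 ^ E) (η / 4) 1
    (by positivity) (by linarith)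
  have hcont : Continuous fun t : ℝ => ‖riemannZeta (1 / 2 + (t : ℂ) * Complex.I)‖ ^ A :=
    Continuous.rpow_const Pool.Agent.LibPH.a01_cont' fun _ => Or.inr (by linarith)
  have hnn : ∀ t : ℝ, 0 ≤ ‖riemannZeta (1 / 2 + (t : ℂ) * Complex.I)‖ ^ A := fun t =>
    Real.rpow_nonneg (norm_nonneg _) _
  refine ⟨max T1 (2 ^ m0), le_trans (by linarith) (le_max_left _ _),
    fun T hT => ?_⟩
  have hTT1 : T1 ≤ T := (le_max_left _ _).trans hT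
  have hTm : (2 : ℝ) ^ m0 ≤ T := (le_max_right _ _).trans hT
  have hT3 : 3 ≤ T := hT1.trans hTT1
  have hTp : 0 < T := by linarith
  have hl1 : 1 ≤ Real.log T := by
    rw [Real.le_log_iff_exp_le hTp]
    have := Real.exp_one_lt_d9
    linarith
  obtain ⟨n, hn1, hn2⟩ := exists_nat_pow_near (show (1 : ℝ) ≤ T by linarith)
    (show (1 : ℝ) < 2 by norm_num)
  have hmn : m0 ≤ n + 1 := by
    by_contra hcon
    push Not at hcon
    have h1 : (2 : ℝ) ^ (n + 1) ≤ (2 : ℝ) ^ m0 := pow_le_pow_right₀ (by norm_num) hcon.le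
    linarith
  have h1 := hC (n + 1) hmn
  have h2 : ∫ t in (0:ℝ)..T, ‖riemannZeta (1 / 2 + (t : ℂ) * Complex.I)‖ ^ A ≤
      ∫ t in (0:ℝ)..((2 : ℝ) ^ (n + 1)), ‖riemannZeta (1 / 2 + (t : ℂ) * Complex.I)‖ ^ A := by
    rw [← intervalIntegral.integral_add_adjacent_intervals
      (hcont.intervalIntegrable (0 : ℝ) T)
      (hcont.intervalIntegrable T ((2 : ℝ) ^ (n + 1)))]
    have h3 : 0 ≤ ∫ t in T..((2 : ℝ) ^ (n + 1)),
        ‖riemannZeta (1 / 2 + (t : ℂ) * Complex.I)‖ ^ A :=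
      intervalIntegral.integral_nonneg hn2.le fun t _ => hnn t
    linarith
  have hpow : (2 : ℝ) ^ (n + 1) ≤ 2 * T := by
    rw [pow_succ]
    linarith
  have h3 : ((2 : ℝ) ^ (n + 1)) ^ E ≤ 2 ^ E * T ^ E := by
    rw [← Real.mul_rpow (by norm_num) hTp.le]
    exact Real.rpow_le_rpow (by positivity) hpow hE0
  have h4 : ((n + 1 : ℕ) : ℝ) ≤ 4 * Real.log T := by
    have h5 : (n : ℝ) * Real.log 2 ≤ Real.log T := by
      rw [← Real.log_pow]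
      exact Real.log_le_log (by positivity) hn1
    have h6 : (0.6931471803 : ℝ) < Real.log 2 := Real.log_two_gt_d9
    push_cast
    nlinarith [Nat.cast_nonneg (α := ℝ) n]
  have h5 := hlog T hTT1
  rw [pow_one] at h5
  have hTE : 1 ≤ T ^ E := Real.one_le_rpow (by linarith) hE0
  have h2E : (0 : ℝ) < 2 ^ E := by positivity
  have h6 : ((n + 1 : ℕ) : ℝ) * ((2 : ℝ) ^ (n + 1)) ^ E ≤ (4 * Real.log T) * (2 ^ E * T ^ E) :=
    mul_le_mul h4 h3 (by positivity) (by linarith)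
  have h7 : C ≤ C * Real.log T * T ^ E := by
    have h8 : C * 1 ≤ C * Real.log T := mul_le_mul_of_nonneg_left hl1 hC0
    have h9 : C * Real.log T * 1 ≤ C * Real.log T * T ^ E :=
      mul_le_mul_of_nonneg_left hTE (by positivity)
    linarith
  have h8 : T ^ (1 + (A - 4) / 8 - D + η) = T ^ (η / 4) * T ^ E := by
    rw [← Real.rpow_add hTp, hE]
    congr 1
    ring
  rw [h8]
  calc ∫ t in (0:ℝ)..T, ‖riemannZeta (1 / 2 + (t : ℂ) * Complex.I)‖ ^ A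
      ≤ C + ((n + 1 : ℕ) : ℝ) * ((2 : ℝ) ^ (n + 1)) ^ E := h2.trans h1
    _ ≤ C * Real.log T * T ^ E + (4 * Real.log T) * (2 ^ E * T ^ E) := add_le_add h7 h6
    _ = ((C + 4 * 2 ^ E) * Real.log T) * T ^ E := by ring
    _ ≤ T ^ (η / 4) * T ^ E := mul_le_mul_of_nonneg_right h5 (by linarith)

end Pool.Agent.LibSX15
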