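import Pool.Agent.LibEX15.EXDefs

/-! ROW [EX MA2] (short, only Mathlib). Taylor series of `ee`. `Complex.exp_bound'` with `x = -2πi r`, `‖x‖ ≤ ρ`, `‖x‖/(A0+1) ≤ 1/2`. -/

set_option autoImplicit false

namespace Pool.Agent.LibSX15

open Finset

theorem ee_taylor (r ρ : ℝ) (A0 : ℕ) (hr : 2 * Real.pi * |r| ≤ ρ) (hA : 2 * ρ ≤ A0 + 1) :
    ‖ee (-r) - ∑ a ∈ range A0, (-(2 * Real.pi * r : ℝ) * Complex.I) ^ a / (a.factorial : ℂ)‖ ≤
      2 * (ρ ^ A0 / A0.factorial) := by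
  have e : ee (-r) = Complex.exp (-((2 * Real.pi * r : ℝ) : ℂ) * Complex.I) := by
    unfold ee
    congr 1
    push_cast
    ring
  have hn : ‖-((2 * Real.pi * r : ℝ) : ℂ) * Complex.I‖ = 2 * Real.pi * |r| := by
    rw [norm_mul, norm_neg, Complex.norm_I, mul_one, Complex.norm_real, Real.norm_eq_abs, abs_mul,
      abs_of_pos (by positivity : (0 : ℝ) < 2 * Real.pi)]
  have h1 : ‖-((2 * Real.pi * r : ℝ) : ℂ) * Complex.I‖ / ((A0.succ : ℕ) : ℝ) ≤ 1 / 2 := by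
    rw [hn, div_le_iff₀ (by positivity)]
    push_cast
    linarith
  have h2 := Complex.exp_bound' h1
  rw [e]
  refine h2.trans ?_
  rw [hn, mul_comm]
  have h3 : 0 ≤ 2 * Real.pi * |r| := by positivity
  gcongr

/-- `∑_{a<A0} ρ^a/a! ≤ exp ρ` -/
theorem sum_taylor_le (ρ : ℝ) (hρ : 0 ≤ ρ) (A0 : ℕ) :
    ∑ a ∈ range A0, ρ ^ a / (a.factorial : ℝ) ≤ Real.exp ρ := by
  exact Real.sum_le_exp_of_nonneg hρ A0

/-- for every `X` there is a large `A0` with `X ρ^A0/A0! ≤ 1` -/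
theorem exists_taylor (ρ X : ℝ) (hρ : 0 ≤ ρ) (n : ℕ) :
    ∃ A0 : ℕ, n ≤ A0 ∧ X * (ρ ^ A0 / A0.factorial) ≤ 1 := by
  have h1 := FloorSemiring.tendsto_pow_div_factorial_atTop ρ
  have h2 : Filter.Tendsto (fun A0 : ℕ => X * (ρ ^ A0 / A0.factorial)) Filter.atTop (nhds 0) := by
    have := h1.const_mul X
    rwa [mul_zero] at this
  have h3 := (h2.eventually (Iic_mem_nhds (show (0 : ℝ) < 1 by norm_num))).and
    (Filter.eventually_ge_atTop n)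
  obtain ⟨A0, hA, hn⟩ := h3.exists
  exact ⟨A0, hn, hA⟩

end Pool.Agent.LibSX15
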