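import Pool.Agent.LibEX15.EA1
import Pool.Agent.LibEX15.MA2
import Pool.Agent.LibSX15.AS5

/-! ROW [EX EA5] (uses as1c, ee_taylor as stated; as AS5). Put `v = u - u0`, `Θ = K√K v²/(12u0³) ∈ [0,1]`, `n√n v²/(12u0³) = Θ bb K n`, `0 ≤ bb K n ≤ 1` (`n ≤ K`).
Termwise, `1 ≤ n ≤ K`: `c n (tt u) ee(-f(u))` against `c n (tt u0) ee(-f(u0)) ee(-(v zlam)) ∑_{a<A0} (-2πiΘ)^a/a! bb^a`:
`|c n (tt u) - c n (tt u0)| ≤ Λ |tt u - tt u0|/T`; `‖ee(-f(u)) - ee(-(f(u0) + v zlam + Θ bb))‖ ≤ 2π * (as1c) ≤ 7 K√K v²/u0³ (v/u0 + K/u0²)`;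
`‖ee(-(Θ bb)) - ∑_{a<A0} (-(2πΘ bb) i)^a/a!‖ ≤ 2 (2π)^A0/A0!` (ee_taylor, `ρ = 2π`, `4π ≤ 13 ≤ A0 + 1`). Factors `‖c n‖ ≤ Λ`, at most `K` terms. -/

set_option autoImplicit false

namespace Pool.Agent.LibSX15

open Finset

private theorem ea5_norm_ee (x : ℝ) : ‖ee x‖ = 1 := by
  unfold ee
  exact Complex.norm_exp_ofReal_mul_I _

private theorem ea5_ee_add (x y : ℝ) : ee (x + y) = ee x * ee y := by
  unfold ee
  rw [← Complex.exp_add]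
  congr 1
  push_cast
  ring

private theorem ea5_ee_lip (x y : ℝ) : ‖ee x - ee y‖ ≤ 2 * Real.pi * |x - y| := by
  have h1 : ee x - ee y = ee y * (ee (x - y) - 1) := by
    rw [mul_sub, ← ea5_ee_add, mul_one]
    congr 2
    ring
  rw [h1, norm_mul, ea5_norm_ee, one_mul]
  have h2 := Real.norm_exp_I_mul_ofReal_sub_one_le (x := 2 * Real.pi * (x - y))
  have h3 : Complex.exp (Complex.I * ((2 * Real.pi * (x - y) : ℝ) : ℂ)) = ee (x - y) := by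
    unfold ee
    rw [mul_comm]
  rw [h3] at h2
  refine h2.trans (le_of_eq ?_)
  rw [Real.norm_eq_abs, abs_mul, abs_of_nonneg (by positivity)]

private theorem ea5_lam {C K Λ : ℝ} (hK : 0 ≤ K)
    (hΛ : ∀ n : ℕ, (n : ℝ) ≤ K → C * n.divisors.card ≤ Λ) : 0 ≤ Λ := by
  have := hΛ 0 (by simpa using hK)
  simpa using this

private theorem ea5_sum {K B : ℝ} (hK : 0 ≤ K) (hB : 0 ≤ B) (F : ℕ → ℂ)
    (hF : ∀ n ∈ Finset.Icc 1 ⌊K⌋₊, ‖F n‖ ≤ B) : ‖∑ n ∈ Finset.Icc 1 ⌊K⌋₊, F n‖ ≤ K * B := by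
  calc ‖∑ n ∈ Finset.Icc 1 ⌊K⌋₊, F n‖ ≤ ∑ n ∈ Finset.Icc 1 ⌊K⌋₊, ‖F n‖ := norm_sum_le _ _
    _ ≤ ∑ n ∈ Finset.Icc 1 ⌊K⌋₊, B := Finset.sum_le_sum hF
    _ = (⌊K⌋₊ : ℝ) * B := by simp
    _ ≤ K * B := mul_le_mul_of_nonneg_right (Nat.floor_le hK) hB

private theorem ea5_le {K : ℝ} (hK : 0 ≤ K) {n : ℕ} (hn : n ∈ Finset.Icc 1 ⌊K⌋₊) : (n : ℝ) ≤ K :=
  (Nat.le_floor_iff hK).1 (Finset.mem_Icc.1 hn).2

private theorem ea5_bb {K : ℝ} (hK : 0 < K) {n : ℕ} (hn : (n : ℝ) ≤ K) :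
    0 ≤ bb K n ∧ bb K n ≤ 1 := by
  have h1 : (n : ℝ) / K ≤ 1 := (div_le_one hK).2 hn
  have h0 : 0 ≤ (n : ℝ) / K := by positivity
  have h2 : Real.sqrt ((n : ℝ) / K) ≤ 1 := Real.sqrt_le_one.2 h1
  unfold bb
  exact ⟨by positivity, mul_le_one₀ h1 (Real.sqrt_nonneg _) h2⟩

private theorem ea5_bb_mul {K : ℝ} (hK : 0 < K) (n : ℕ) :
    K * Real.sqrt K * bb K n = n * Real.sqrt n := by
  unfold bb
  have h1 : Real.sqrt K * Real.sqrt ((n : ℝ) / K) = Real.sqrt n := by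
    rw [← Real.sqrt_mul hK.le]
    congr 1
    field_simp
  calc K * Real.sqrt K * ((n : ℝ) / K * Real.sqrt ((n : ℝ) / K))
      = (K * ((n : ℝ) / K)) * (Real.sqrt K * Real.sqrt ((n : ℝ) / K)) := by ring
    _ = n * Real.sqrt n := by
        rw [h1]
        congr 1
        field_simp

theorem as5d (C T K Λ : ℝ) (c : ℕ → ℝ → ℂ) (hc : CC C T K c) (hT : 0 < T) (hK : 0 < K)
    (hΛ : ∀ n : ℕ, (n : ℝ) ≤ K → C * n.divisors.card ≤ Λ) (u0 u : ℝ) (h0 : 0 < u0) (hu : u0 ≤ u)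
    (h1 : T ≤ tt u0) (h2 : tt u ≤ 2 * T) (A0 : ℕ) (hA0 : 13 ≤ A0)
    (hΘ : K * Real.sqrt K * (u - u0) ^ 2 / (12 * u0 ^ 3) ≤ 1) :
    ‖SS K c (tt u) - ∑ a ∈ range A0,
      (-(2 * Real.pi * (K * Real.sqrt K * (u - u0) ^ 2 / (12 * u0 ^ 3)) : ℝ) * Complex.I) ^ a /
        (a.factorial : ℂ) * SLa K c a u0 (u - u0)‖ ≤
      Λ * K * ((tt u - tt u0) / T +
        7 * (K * Real.sqrt K * (u - u0) ^ 2 / u0 ^ 3 * ((u - u0) / u0 + K / u0 ^ 2)) +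
        2 * ((2 * Real.pi) ^ A0 / A0.factorial)) := by
  have hΛ0 := ea5_lam hK.le hΛ
  have hab : tt u0 ≤ tt u := by
    unfold tt
    have : u0 ^ 2 ≤ u ^ 2 := pow_le_pow_left₀ h0.le hu 2
    have hpi : 0 ≤ 2 * Real.pi := by positivity
    exact mul_le_mul_of_nonneg_left this hpi
  have ha : tt u0 ∈ Set.Icc T (2 * T) := ⟨h1, hab.trans h2⟩
  have hb : tt u ∈ Set.Icc T (2 * T) := ⟨h1.trans hab, h2⟩
  have hv : 0 ≤ u - u0 := by linarith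
  have hA1 : 0 ≤ (tt u - tt u0) / T := div_nonneg (by linarith) hT.le
  have hB1 : 0 ≤ 7 * (K * Real.sqrt K * (u - u0) ^ 2 / u0 ^ 3 * ((u - u0) / u0 + K / u0 ^ 2)) := by
    positivity
  have hC1 : 0 ≤ 2 * ((2 * Real.pi) ^ A0 / (A0.factorial : ℝ)) := by positivity
  obtain ⟨Θ, hΘd⟩ : ∃ Θ : ℝ, Θ = K * Real.sqrt K * (u - u0) ^ 2 / (12 * u0 ^ 3) := ⟨_, rfl⟩
  have hΘ0 : 0 ≤ Θ := by rw [hΘd]; positivity
  rw [← hΘd] at hΘ ⊢
  have hswap : ∑ a ∈ range A0, (-(2 * Real.pi * Θ : ℝ) * Complex.I) ^ a /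
        (a.factorial : ℂ) * SLa K c a u0 (u - u0) =
      ∑ n ∈ Finset.Icc 1 ⌊K⌋₊, c n (tt u0) * ee (-zph n (tt u0)) *
        ee (-((u - u0) * zlam u0 n)) *
        ∑ a ∈ range A0, (-(2 * Real.pi * (Θ * bb K n) : ℝ) * Complex.I) ^ a /
          (a.factorial : ℂ) := by
    unfold SLa
    simp only [Finset.mul_sum]
    rw [Finset.sum_comm]
    refine Finset.sum_congr rfl fun n _ => Finset.sum_congr rfl fun a _ => ?_
    have e1 : (-(2 * Real.pi * (Θ * bb K n) : ℝ) * Complex.I : ℂ) ^ a =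
        (-(2 * Real.pi * Θ : ℝ) * Complex.I) ^ a * ((bb K n) ^ a : ℝ) := by
      push_cast
      rw [← mul_pow]
      congr 1
      ring
    rw [e1]
    ring
  have hmain : ‖SS K c (tt u) - ∑ a ∈ range A0,
      (-(2 * Real.pi * Θ : ℝ) * Complex.I) ^ a /
        (a.factorial : ℂ) * SLa K c a u0 (u - u0)‖ ≤
      K * (Λ * ((tt u - tt u0) / T) +
        Λ * (7 * (K * Real.sqrt K * (u - u0) ^ 2 / u0 ^ 3 * ((u - u0) / u0 + K / u0 ^ 2))) +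
        Λ * (2 * ((2 * Real.pi) ^ A0 / A0.factorial))) := by
    rw [hswap]
    unfold SS
    rw [← Finset.sum_sub_distrib]
    refine ea5_sum hK.le (by positivity) _ fun n hn => ?_
    have hnK := ea5_le hK.le hn
    have hCn := hΛ n hnK
    obtain ⟨hb0, hb1⟩ := ea5_bb hK hnK
    obtain ⟨f, hf⟩ : ∃ f : ℝ, f = zph n (tt u) := ⟨_, rfl⟩
    obtain ⟨g, hg⟩ : ∃ g : ℝ, g = zph n (tt u0) + (u - u0) * zlam u0 n := ⟨_, rfl⟩
    obtain ⟨r, hr⟩ : ∃ r : ℝ, r = Θ * bb K n := ⟨_, rfl⟩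
    obtain ⟨P, hP⟩ : ∃ P : ℂ, P = ∑ a ∈ range A0,
      (-(2 * Real.pi * r : ℝ) * Complex.I) ^ a / (a.factorial : ℂ) := ⟨_, rfl⟩
    rw [← hr, ← hP, ← hf]
    have hr0 : 0 ≤ r := by rw [hr]; exact mul_nonneg hΘ0 hb0
    have hr1 : r ≤ 1 := by rw [hr]; exact mul_le_one₀ hΘ hb0 hb1
    have hr2 : r = n * Real.sqrt n * (u - u0) ^ 2 / (12 * u0 ^ 3) := by
      rw [hr, hΘd, ← ea5_bb_mul hK n]
      ring
    have e1 : ee (-zph n (tt u0)) * ee (-((u - u0) * zlam u0 n)) = ee (-g) := by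
      rw [← ea5_ee_add, hg]
      congr 1
      ring
    have e3 : ee (-(g + r)) = ee (-g) * ee (-r) := by
      rw [← ea5_ee_add]
      congr 1
      ring
    have e2 : c n (tt u) * ee (-f) - c n (tt u0) * ee (-zph n (tt u0)) *
        ee (-((u - u0) * zlam u0 n)) * P =
        (c n (tt u) - c n (tt u0)) * ee (-f) + c n (tt u0) * (ee (-f) - ee (-(g + r))) +
          c n (tt u0) * ee (-g) * (ee (-r) - P) := by
      rw [mul_assoc (c n (tt u0)) (ee (-zph n (tt u0))), e1, e3]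
      ring
    rw [e2]
    have hcn : ‖c n (tt u0)‖ ≤ Λ := (hc.b n _ ha).trans hCn
    refine (norm_add_le _ _).trans (add_le_add ((norm_add_le _ _).trans (add_le_add ?_ ?_)) ?_)
    · rw [norm_mul, ea5_norm_ee, mul_one]
      refine (hc.l n _ hb _ ha).trans ?_
      rw [abs_of_nonneg (by linarith), mul_div_assoc]
      exact mul_le_mul_of_nonneg_right hCn hA1
    · rw [norm_mul]
      have e4 : ‖ee (-f) - ee (-(g + r))‖ ≤
          7 * (K * Real.sqrt K * (u - u0) ^ 2 / u0 ^ 3 * ((u - u0) / u0 + K / u0 ^ 2)) := by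
        refine (ea5_ee_lip _ _).trans ?_
        have e5 : |-f - -(g + r)| = |f - (g + r)| := by
          rw [← abs_neg]
          congr 1
          ring
        rw [e5]
        have e6 := as1c n u0 u h0 hu
        rw [← hr2, ← hf, ← hg] at e6
        have e7 : (n : ℝ) * Real.sqrt n ≤ K * Real.sqrt K :=
          mul_le_mul hnK (Real.sqrt_le_sqrt hnK) (Real.sqrt_nonneg _) hK.le
        have e8 : 2 * Real.pi ≤ 7 := by
          have := Real.pi_lt_d2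
          linarith
        refine mul_le_mul e8 (e6.trans ?_) (abs_nonneg _) (by norm_num)
        have e9 : (u - u0) / u0 + n / u0 ^ 2 ≤ (u - u0) / u0 + K / u0 ^ 2 := by
          gcongr
        have e10 : (n : ℝ) * Real.sqrt n * (u - u0) ^ 2 / u0 ^ 3 ≤
            K * Real.sqrt K * (u - u0) ^ 2 / u0 ^ 3 := by
          gcongr
        exact mul_le_mul e10 e9 (by positivity) (by positivity)
      exact mul_le_mul hcn e4 (norm_nonneg _) hΛ0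
    · rw [norm_mul, norm_mul, ea5_norm_ee, mul_one]
      have e4 : ‖ee (-r) - P‖ ≤ 2 * ((2 * Real.pi) ^ A0 / A0.factorial) := by
        rw [hP]
        refine ee_taylor r (2 * Real.pi) A0 ?_ ?_
        · rw [abs_of_nonneg hr0]
          have : 0 ≤ 2 * Real.pi := by positivity
          nlinarith
        · have := Real.pi_lt_d2
          have h13 : (13 : ℝ) ≤ A0 := by exact_mod_cast hA0
          linarith
      exact mul_le_mul hcn e4 (norm_nonneg _) hΛ0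
  refine hmain.trans (le_of_eq ?_)
  ring

/-- trivial bound -/
theorem as5e (C T K Λ : ℝ) (c : ℕ → ℝ → ℂ) (hc : CC C T K c) (hK : 0 < K)
    (hΛ : ∀ n : ℕ, (n : ℝ) ≤ K → C * n.divisors.card ≤ Λ) (a : ℕ) (u0 v : ℝ)
    (h : tt u0 ∈ Set.Icc T (2 * T)) : ‖SLa K c a u0 v‖ ≤ Λ * K := by
  have hΛ0 := ea5_lam hK.le hΛ
  rw [mul_comm]
  unfold SLa
  refine ea5_sum hK.le hΛ0 _ fun n hn => ?_
  have hnK := ea5_le hK.le hn
  obtain ⟨hb0, hb1⟩ := ea5_bb hK hnK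
  rw [norm_mul, norm_mul, norm_mul, ea5_norm_ee, ea5_norm_ee, mul_one, mul_one,
    Complex.norm_real, Real.norm_eq_abs, abs_of_nonneg (pow_nonneg hb0 a)]
  calc ‖c n (tt u0)‖ * bb K n ^ a ≤ Λ * 1 :=
        mul_le_mul ((hc.b n _ h).trans (hΛ n hnK)) (pow_le_one₀ hb0 hb1) (pow_nonneg hb0 a) hΛ0
    _ = Λ := mul_one _

end Pool.Agent.LibSX15
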