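import Pool.Agent.LibEX15.EXDefs
import Pool.Agent.LibSX15.AS6

/-! ROW [EX EA6] (short; as AS6, use `as6` and `0 ≤ bb K n ≤ 1` for `n ≤ K`; `aa c u0 n = 0` unless `K/2000 ≤ n ≤ K` by `hc.s`).
Second conjunct: if `n ∉ S1 K` then `aa c u0 n = 0`: `c n (tt u0) ≠ 0` implies `K/2000 ≤ n ≤ K` and `n ≥ 1` (`K > 0`).
Third: copy the proof of the second conjunct of `as6` with the extra factor. -/

set_option autoImplicit false

namespace Pool.Agent.LibSX15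

open Finset

private theorem ea6_bb {K : ℝ} (hK : 0 < K) {n : ℕ} (hn : (n : ℝ) ≤ K) :
    0 ≤ bb K n ∧ bb K n ≤ 1 := by
  have h0 : (0 : ℝ) ≤ n / K := by positivity
  have h1 : (n : ℝ) / K ≤ 1 := (div_le_one hK).2 hn
  have h2 : Real.sqrt ((n : ℝ) / K) ≤ 1 := Real.sqrt_le_one.2 h1
  have h3 : 0 ≤ Real.sqrt ((n : ℝ) / K) := Real.sqrt_nonneg _
  unfold bb
  exact ⟨mul_nonneg h0 h3, mul_le_one₀ h1 h3 h2⟩

theorem as6d (d : Dat) (C T K Λ u0 : ℝ) (c : ℕ → ℝ → ℂ) (hc : CC C T K c) (hK : 0 < K) (hΛ0 : 0 ≤ Λ)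
    (hω0 : ∀ n, 0 ≤ d.ω n)
    (hΛ : ∀ n : ℕ, (n : ℝ) ≤ K → C * n.divisors.card ≤ Λ)
    (hS : ∀ n : ℕ, K / 2000 ≤ n → (n : ℝ) ≤ K → n ∈ d.S ∧ d.ω n = 1)
    (hξ : ∀ n ∈ d.S, d.ξ n = zxi K u0 n) (h1 : tt u0 ∈ Set.Icc T (2 * T)) (a : ℕ) :
    (∀ n, ‖aaa K c a u0 n‖ ≤ Λ * d.ω n) ∧ (∀ n, n ∉ S1 K → aaa K c a u0 n = 0) ∧
    ∀ j : ℤ, ‖d.D (aaa K c a u0) j‖ = ‖SLa K c a u0 (kap K * j)‖ := by
  have hcn : ∀ n, c n (tt u0) ≠ 0 → (K / 2000 ≤ n ∧ (n : ℝ) ≤ K) := fun n hn => hc.s n _ h1 hn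
  have haa : ∀ n, c n (tt u0) = 0 → aaa K c a u0 n = 0 := by
    intro n h0
    unfold aaa aa
    rw [h0, zero_mul, map_zero, zero_mul]
  have h1n : ∀ n, c n (tt u0) ≠ 0 → n ∈ Icc 1 ⌊K⌋₊ := by
    intro n h0
    obtain ⟨h2, h3⟩ := hcn n h0
    rw [mem_Icc]
    refine ⟨?_, Nat.le_floor h3⟩
    have h4 : (0 : ℝ) < n := lt_of_lt_of_le (by positivity) h2
    exact_mod_cast h4
  refine ⟨fun n => ?_, fun n hn => ?_, fun j => ?_⟩
  · by_cases h0 : c n (tt u0) = 0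
    · rw [haa n h0, norm_zero]
      exact mul_nonneg hΛ0 (hω0 n)
    · obtain ⟨h2, h3⟩ := hcn n h0
      obtain ⟨b0, b1⟩ := ea6_bb hK h3
      have h4 := (as6 d C T K Λ u0 c hc hK hΛ0 hω0 hΛ hS hξ h1).1 n
      have h5 : ‖(((bb K n) ^ a : ℝ) : ℂ)‖ ≤ 1 := by
        rw [Complex.norm_real, Real.norm_eq_abs, abs_of_nonneg (pow_nonneg b0 a)]
        exact pow_le_one₀ b0 b1
      unfold aaa
      rw [norm_mul]
      calc ‖aa c u0 n‖ * ‖(((bb K n) ^ a : ℝ) : ℂ)‖ ≤ ‖aa c u0 n‖ * 1 :=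
            mul_le_mul_of_nonneg_left h5 (norm_nonneg _)
        _ ≤ Λ * d.ω n := by rw [mul_one]; exact h4
  · by_contra h0
    have h2 : c n (tt u0) ≠ 0 := fun h3 => h0 (haa n h3)
    refine hn ?_
    unfold S1
    exact mem_filter.2 ⟨h1n n h2, (hcn n h2).1⟩
  · have hD : d.D (aaa K c a u0) j = ∑ n ∈ d.S, aaa K c a u0 n * ee (zxi K u0 n * j) := by
      unfold Dat.D
      exact sum_congr rfl fun n hn => by rw [hξ n hn]
    have hSL : (starRingEnd ℂ) (SLa K c a u0 (kap K * j)) =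
        ∑ n ∈ Icc 1 ⌊K⌋₊, aaa K c a u0 n * ee (zxi K u0 n * j) := by
      unfold SLa aaa aa
      rw [map_sum]
      refine sum_congr rfl fun n _ => ?_
      rw [map_mul, map_mul, Complex.conj_ofReal, as6_conj_ee (-(kap K * j * zlam u0 n)), neg_neg,
        ← as1b K u0 n hK]
      congr 2
      ring
    rw [← RCLike.norm_conj (SLa K c a u0 (kap K * j)), hSL, hD]
    congr 1
    rw [← sum_filter_ne_zero (s := d.S), ← sum_filter_ne_zero (s := Icc 1 ⌊K⌋₊)]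
    refine sum_congr ?_ fun _ _ => rfl
    ext n
    rw [mem_filter, mem_filter]
    refine and_congr_left fun hn => ?_
    have h0 : c n (tt u0) ≠ 0 := by
      intro h0
      apply hn
      rw [haa n h0, zero_mul]
    obtain ⟨h2, h3⟩ := hcn n h0
    exact iff_of_true (hS n h2 h3).1 (h1n n h0)

end Pool.Agent.LibSX15
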