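import Pool.Agent.LibEX15.EXDefs
import Pool.Agent.LibEX15.MA2
import Pool.Agent.LibSX15.AS7

/-! ROW [EX EA7] (uses as7a, as3, sum_taylor_le as stated; as AS7). Apply as7a with `Q = 10^6 * B * (4 + 6 log (4000 X/Y))`.
For one `x` and the `j` with `tt(x+κj) ≤ 2T`, `‖SS‖ ≥ Y`: `‖SS‖ ≤ ∑_a w_a ‖SLa‖ + Y/4`, `w_a = (2π)^a/a!`, `∑ w_a ≤ exp(2π) ≤ 540`
(`Real.exp (2π) ≤ exp 6.2832`; e.g. `exp 1 < 2.7182818286`, `exp(2π) = (exp 1)^6 * exp(0.2832)`). The `a` with `‖SLa‖ < Y/4000` contribute `≤ 540 Y/4000 ≤ 0.135 ‖SS‖`, so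
`0.6 ‖SS‖ ≤ ∑_{a : ‖SLa‖ ≥ Y/4000} w_a ‖SLa‖` and `‖SS‖² ≤ 2.8 * 540 ∑_{big a} w_a ‖SLa‖²`.  For one `a`: `∑_{j : ‖SLa‖ ≥ Y/4000} ‖SLa‖² ≤ B (4 + 6 log(4000X/Y))` (as3,
`y0 = Y/4000`, hcount).  Total `≤ 2.8 * 540 * 540 * B (..) ≤ 10^6 B (..)`; `12 * 10^6 ≤ 10^8`. -/

set_option autoImplicit false

namespace Pool.Agent.LibSX15

open Finset

private theorem ea7_exp : Real.exp (2 * Real.pi) ≤ 563 := by
  have h1 : 2 * Real.pi ≤ 6 + 0.2832 := by linarith [Real.pi_lt_d4]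
  have h2 : Real.exp (2 * Real.pi) ≤ Real.exp (6 + 0.2832) := Real.exp_le_exp.2 h1
  have h3 : Real.exp (6 + 0.2832) = Real.exp 1 ^ 6 * Real.exp 0.2832 := by
    rw [Real.exp_add, ← Real.exp_nat_mul]
    norm_num
  have h4 : Real.exp 1 ^ 6 ≤ 2.7182818286 ^ 6 :=
    pow_le_pow_left₀ (Real.exp_pos 1).le Real.exp_one_lt_d9.le 6
  have h5 : Real.exp 0.2832 * (1 - 0.2832) ≤ 1 := by
    have h6 : (1 : ℝ) - 0.2832 ≤ Real.exp (-0.2832) := Real.one_sub_le_exp_neg 0.2832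
    have h7 : Real.exp 0.2832 * Real.exp (-0.2832) = 1 := by
      rw [← Real.exp_add, add_neg_cancel, Real.exp_zero]
    nlinarith [Real.exp_pos 0.2832]
  have h8 : Real.exp 0.2832 ≤ 1.3951 := by
    norm_num at h5 ⊢
    linarith
  rw [h3] at h2
  refine h2.trans ?_
  calc Real.exp 1 ^ 6 * Real.exp 0.2832 ≤ 2.7182818286 ^ 6 * 1.3951 :=
        mul_le_mul h4 h8 (Real.exp_pos _).le (by norm_num)
    _ ≤ 563 := by norm_num

private theorem ea7_abs (A0 : ℕ) (w f : ℕ → ℝ) (s Y : ℝ) (hw : ∀ a, 0 ≤ w a)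
    (hws : ∑ a ∈ range A0, w a ≤ 563) (hY : 0 < Y) (hs : Y ≤ s)
    (h : s ≤ ∑ a ∈ range A0, w a * f a + Y / 4) :
    s ^ 2 ≤ 3 * 563 * ∑ a ∈ range A0, w a * (if Y / 4000 ≤ f a then f a ^ 2 else 0) := by
  set F : ℕ → ℝ := fun a => if Y / 4000 ≤ f a then f a else 0 with hF
  have hF0 : ∀ a, 0 ≤ F a := by
    intro a
    simp only [hF]
    split_ifs with h1
    · linarith [show (0 : ℝ) < Y / 4000 by positivity]
    · exact le_rfl
  have hfF : ∀ a, f a ≤ F a + Y / 4000 := by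
    intro a
    simp only [hF]
    split_ifs with h1
    · linarith [show (0 : ℝ) < Y / 4000 by positivity]
    · linarith
  have h1 : ∑ a ∈ range A0, w a * f a ≤
      ∑ a ∈ range A0, w a * F a + 563 * (Y / 4000) := by
    calc ∑ a ∈ range A0, w a * f a ≤ ∑ a ∈ range A0, (w a * F a + w a * (Y / 4000)) := by
          refine Finset.sum_le_sum fun a _ => ?_
          have := mul_le_mul_of_nonneg_left (hfF a) (hw a)
          linarith
      _ = ∑ a ∈ range A0, w a * F a + (∑ a ∈ range A0, w a) * (Y / 4000) := by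
          rw [Finset.sum_add_distrib, Finset.sum_mul]
      _ ≤ _ := by
          have := mul_le_mul_of_nonneg_right hws (show (0 : ℝ) ≤ Y / 4000 by positivity)
          linarith
  have h2 : 0.6 * s ≤ ∑ a ∈ range A0, w a * F a := by
    linarith
  have h3 : (∑ a ∈ range A0, w a * F a) ^ 2 ≤
      (∑ a ∈ range A0, w a) * ∑ a ∈ range A0, w a * F a ^ 2 := by
    refine Finset.sum_sq_le_sum_mul_sum_of_sq_le_mul _ (fun a _ => hw a)
      (fun a _ => mul_nonneg (hw a) (sq_nonneg _)) (fun a _ => le_of_eq ?_)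
    ring
  have h4 : ∀ a, F a ^ 2 = if Y / 4000 ≤ f a then f a ^ 2 else 0 := by
    intro a
    simp only [hF]
    split_ifs with h1
    · rfl
    · norm_num
  simp only [← h4]
  have h5 : 0 ≤ ∑ a ∈ range A0, w a * F a ^ 2 :=
    Finset.sum_nonneg fun a _ => mul_nonneg (hw a) (sq_nonneg _)
  have h6 : (∑ a ∈ range A0, w a) * ∑ a ∈ range A0, w a * F a ^ 2 ≤
      563 * ∑ a ∈ range A0, w a * F a ^ 2 := mul_le_mul_of_nonneg_right hws h5
  have h7 : (0.6 * s) ^ 2 ≤ (∑ a ∈ range A0, w a * F a) ^ 2 :=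
    pow_le_pow_left₀ (by linarith) h2 2
  nlinarith [h3, h6, h7, h5]

theorem as7d (C T K Y X B κ : ℝ) (J A0 : ℕ) (c : ℕ → ℝ → ℂ) (hc : CC C T K c) (hT : 1 ≤ T)
    (hJ : 1 ≤ J) (hY : 0 < Y) (hκ : 0 < κ) (hκJ : κ * J ≤ Real.sqrt T) (hB : 0 ≤ B)
    (hYX : Y ≤ 2 * X)
    (hX : ∀ (a : ℕ) (x v : ℝ), tt x ∈ Set.Icc T (2 * T) → ‖SLa K c a x v‖ ≤ X)
    (herr : ∀ x : ℝ, 0 < x → ∀ j : ℕ, j < J → T ≤ tt x → tt (x + κ * j) ≤ 2 * T →
      ‖SS K c (tt (x + κ * j))‖ ≤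
        ∑ a ∈ range A0, (2 * Real.pi) ^ a / (a.factorial : ℝ) * ‖SLa K c a x (κ * j)‖ + Y / 4)
    (hcount : ∀ x : ℝ, 0 < x → tt x ∈ Set.Icc T (2 * T) → ∀ (a : ℕ) (y : ℝ), Y / 4000 ≤ y →
      (((range J).filter (fun j : ℕ => y ≤ ‖SLa K c a x (κ * j)‖)).card : ℝ) ≤ B / y ^ 2) :
    TT K c T Y ≤ 10 ^ 8 * T / J * B * (4 + 6 * Real.log (4000 * X / Y)) := by
  classical
  have hX0 : 0 < X := by linarith
  have hJ0 : (0 : ℝ) < J := by exact_mod_cast hJ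
  have hL0 : 0 ≤ 4 + 6 * Real.log (4000 * X / Y) := by
    have : 0 ≤ Real.log (4000 * X / Y) := by
      apply Real.log_nonneg
      rw [le_div_iff₀ hY]
      linarith
    linarith
  have hws : ∑ a ∈ range A0, (2 * Real.pi) ^ a / (a.factorial : ℝ) ≤ 563 :=
    (sum_taylor_le (2 * Real.pi) (by positivity) A0).trans ea7_exp
  have hw : ∀ a : ℕ, 0 ≤ (2 * Real.pi) ^ a / (a.factorial : ℝ) := fun a => by positivity
  have key := as7a C T K Y κ (3 * 563 * (563 * (B * (4 + 6 * Real.log (4000 * X / Y))))) J c hc hT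
    hJ hY hκ hκJ ?_
  · refine key.trans ?_
    have h1 : 12 * T / J * (3 * 563 * (563 * (B * (4 + 6 * Real.log (4000 * X / Y))))) =
        (12 * (3 * 563 * 563)) * (T / J * (B * (4 + 6 * Real.log (4000 * X / Y)))) := by ring
    have h2 : 10 ^ 8 * T / J * B * (4 + 6 * Real.log (4000 * X / Y)) =
        10 ^ 8 * (T / J * (B * (4 + 6 * Real.log (4000 * X / Y)))) := by ring
    rw [h1, h2]
    refine mul_le_mul_of_nonneg_right (by norm_num) ?_
    have : 0 ≤ T / J := by positivity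
    exact mul_nonneg this (mul_nonneg hB hL0)
  intro x hx0 hx
  have h3 : ∀ a : ℕ, ∑ j ∈ range J, (if Y / 4000 ≤ ‖SLa K c a x (κ * (j : ℕ))‖ then
      ‖SLa K c a x (κ * (j : ℕ))‖ ^ 2 else 0) ≤ B * (4 + 6 * Real.log (4000 * X / Y)) := by
    intro a
    have h3 := as3 (range J) (fun j : ℕ => ‖SLa K c a x (κ * j)‖) (Y / 4000) X B (by positivity)
      (by linarith) hB (fun j _ => hX a x _ hx) (fun y hy => hcount x hx0 hx a y hy)
    have hlog : X / (Y / 4000) = 4000 * X / Y := by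
      field_simp
    rw [hlog, Finset.sum_filter] at h3
    exact h3
  calc ∑ j ∈ (range J).filter (fun j : ℕ => tt (x + κ * j) ≤ 2 * T ∧
        Y ≤ ‖SS K c (tt (x + κ * j))‖), ‖SS K c (tt (x + κ * j))‖ ^ 2
      ≤ ∑ j ∈ (range J).filter (fun j : ℕ => tt (x + κ * j) ≤ 2 * T ∧
        Y ≤ ‖SS K c (tt (x + κ * j))‖), 3 * 563 * ∑ a ∈ range A0,
          (2 * Real.pi) ^ a / (a.factorial : ℝ) * (if Y / 4000 ≤ ‖SLa K c a x (κ * (j : ℕ))‖ then
            ‖SLa K c a x (κ * (j : ℕ))‖ ^ 2 else 0) := by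
        refine Finset.sum_le_sum fun j hj => ?_
        rw [Finset.mem_filter, Finset.mem_range] at hj
        obtain ⟨hj1, hj2, hj3⟩ := hj
        exact ea7_abs A0 _ (fun a => ‖SLa K c a x (κ * (j : ℕ))‖) _ Y hw hws hY hj3
          (herr x hx0 j hj1 hx.1 hj2)
    _ ≤ ∑ j ∈ range J, 3 * 563 * ∑ a ∈ range A0,
          (2 * Real.pi) ^ a / (a.factorial : ℝ) * (if Y / 4000 ≤ ‖SLa K c a x (κ * (j : ℕ))‖ then
            ‖SLa K c a x (κ * (j : ℕ))‖ ^ 2 else 0) := by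
        refine Finset.sum_le_sum_of_subset_of_nonneg (Finset.filter_subset _ _)
          fun j _ _ => ?_
        refine mul_nonneg (by norm_num) (Finset.sum_nonneg fun a _ => mul_nonneg (hw a) ?_)
        split_ifs
        · positivity
        · exact le_rfl
    _ = 3 * 563 * ∑ a ∈ range A0, (2 * Real.pi) ^ a / (a.factorial : ℝ) *
          ∑ j ∈ range J, (if Y / 4000 ≤ ‖SLa K c a x (κ * (j : ℕ))‖ then
            ‖SLa K c a x (κ * (j : ℕ))‖ ^ 2 else 0) := by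
        rw [← Finset.mul_sum, Finset.sum_comm]
        congr 1
        refine Finset.sum_congr rfl fun a _ => ?_
        rw [Finset.mul_sum]
    _ ≤ 3 * 563 * ∑ a ∈ range A0, (2 * Real.pi) ^ a / (a.factorial : ℝ) *
          (B * (4 + 6 * Real.log (4000 * X / Y))) := by
        refine mul_le_mul_of_nonneg_left (Finset.sum_le_sum fun a _ => ?_) (by norm_num)
        exact mul_le_mul_of_nonneg_left (h3 a) (hw a)
    _ ≤ 3 * 563 * (563 * (B * (4 + 6 * Real.log (4000 * X / Y)))) := by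
        refine mul_le_mul_of_nonneg_left ?_ (by norm_num)
        rw [← Finset.sum_mul]
        exact mul_le_mul_of_nonneg_right hws (mul_nonneg hB hL0)

end Pool.Agent.LibSX15
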