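import Pool.Agent.LibEX15.EXDefs

/-! ROW [EX FE1] (only calculus). The frequencies `zxi N u n = (1/6) √(n/N) / √(1 + n/(12u²))` satisfy `Spc` on `S1 N = {n : N/2000 ≤ n ≤ N}`.
PLAN. Put `η = N/(12u²) ∈ (0, 1/1200]`, `F x = (1/6) √(x/(1+ηx))` (= (1/6) √x/√(1+ηx)), `zxi N u n = F (n/N)`, `x = n/N ∈ [1/2000, 1]`.
`F' x = (1/12) x^(-1/2) (1+ηx)^(-3/2)`: on `[1/2000, 1]` it is `≥ (1/12)/(1.001)^(3/2) ≥ 1/13` and `≤ √2000/12 ≤ 4`.
`F'` is decreasing with `F'(x) - F'(y) ≥ (y - x)/26` for `1/2000 ≤ x ≤ y ≤ 1`  (`F'' = -(1/24) x^(-3/2)(1+ηx)^(-3/2) - (η/8) x^(-1/2) (1+ηx)^(-5/2) ≤ -1/25`;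
or directly: `(1+ηx)^(-3/2)` is decreasing, `x^(-1/2) - y^(-1/2) = (y-x)/(√x √y (√x+√y)) ≥ (y-x)/2`).
lo, hi: mean value theorem for `F`.  qd: with `g t = F (t + h/N) - F t`, `g' ≤ -(h/N)/26` on the range, mean value theorem for `g` between `n/N` and `n'/N`
(all the points stay in `[1/2000, 1]`).   r1: `F ≤ 1/6`.  card: at most `⌊N⌋` elements. -/

set_option autoImplicit false

namespace Pool.Agent.LibSX15

open Finset

private noncomputable def fe1_F (η x : ℝ) : ℝ := 1 / 6 * Real.sqrt x / Real.sqrt (1 + η * x)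

private noncomputable def fe1_D (η x : ℝ) : ℝ := 1 / (12 * Real.sqrt x * Real.sqrt (1 + η * x) ^ 3)

private theorem fe1_hasDeriv {η x : ℝ} (hη : 0 ≤ η) (hx : 0 < x) :
    HasDerivAt (fe1_F η) (fe1_D η x) x := by
  have h1 : HasDerivAt (fun x : ℝ => Real.sqrt x) (1 / (2 * Real.sqrt x)) x :=
    Real.hasDerivAt_sqrt hx.ne'
  have h2 : 0 < 1 + η * x := by positivity
  have h3 : HasDerivAt (fun x : ℝ => 1 + η * x) η x := by
    simpa using ((hasDerivAt_id x).const_mul η).const_add 1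
  have h4 : HasDerivAt (fun x : ℝ => Real.sqrt (1 + η * x)) (η / (2 * Real.sqrt (1 + η * x))) x :=
    h3.sqrt h2.ne'
  have h5 := (h1.const_mul (1 / 6)).div h4 (Real.sqrt_pos.2 h2).ne'
  have h6 : HasDerivAt (fe1_F η)
      ((1 / 6 * (1 / (2 * Real.sqrt x)) * Real.sqrt (1 + η * x) -
        1 / 6 * Real.sqrt x * (η / (2 * Real.sqrt (1 + η * x)))) / Real.sqrt (1 + η * x) ^ 2) x := h5
  have e1 : Real.sqrt x ^ 2 = x := Real.sq_sqrt hx.le
  have e2 : Real.sqrt (1 + η * x) ^ 2 = 1 + η * x := Real.sq_sqrt h2.le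
  have p1 : 0 < Real.sqrt x := Real.sqrt_pos.2 hx
  have p2 : 0 < Real.sqrt (1 + η * x) := Real.sqrt_pos.2 h2
  have e : fe1_D η x = (1 / 6 * (1 / (2 * Real.sqrt x)) * Real.sqrt (1 + η * x) -
        1 / 6 * Real.sqrt x * (η / (2 * Real.sqrt (1 + η * x)))) / Real.sqrt (1 + η * x) ^ 2 := by
    unfold fe1_D
    generalize Real.sqrt (1 + η * x) = b at *
    generalize Real.sqrt x = a at *
    have e3 : b ^ 2 - η * a ^ 2 = 1 := by rw [e1, e2]; ring
    have e4 : 1 / 6 * (1 / (2 * a)) * b - 1 / 6 * a * (η / (2 * b)) =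
        (b ^ 2 - η * a ^ 2) / (12 * a * b) := by
      field_simp
      ring
    rw [e4, e3]
    field_simp
  rw [e]
  exact h6

private theorem fe1_sqrt_lo {x : ℝ} (hx : 1 / 2000 ≤ x) : 1 / 45 ≤ Real.sqrt x := by
  refine Real.le_sqrt_of_sq_le ?_
  norm_num
  linarith

private theorem fe1_r {η x : ℝ} (hη : 0 ≤ η) (hη' : η ≤ 1 / 1200) (hx0 : 0 ≤ x) (hx : x ≤ 1) :
    1 ≤ Real.sqrt (1 + η * x) ∧ Real.sqrt (1 + η * x) ^ 3 ≤ 13 / 12 := by
  have h1 : 0 ≤ η * x := mul_nonneg hη hx0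
  have h2 : η * x ≤ 1 / 1200 := by nlinarith
  have h3 : Real.sqrt (1 + η * x) ≤ 1.001 := by
    rw [Real.sqrt_le_left (by norm_num)]
    norm_num at h2 ⊢
    linarith
  refine ⟨?_, ?_⟩
  · rw [Real.one_le_sqrt]; linarith
  · have h4 : Real.sqrt (1 + η * x) ^ 3 ≤ 1.001 ^ 3 :=
      pow_le_pow_left₀ (Real.sqrt_nonneg _) h3 3
    norm_num at h4 ⊢
    linarith

private theorem fe1_D_hi {η x : ℝ} (hη : 0 ≤ η) (hη' : η ≤ 1 / 1200) (hx0 : 1 / 2000 ≤ x)
    (hx : x ≤ 1) : fe1_D η x ≤ 40 := by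
  have h1 := fe1_sqrt_lo hx0
  have h2 := (fe1_r hη hη' (by linarith) hx).1
  unfold fe1_D
  have h3 : (1 : ℝ) ≤ Real.sqrt (1 + η * x) ^ 3 := one_le_pow₀ h2
  rw [div_le_iff₀ (by positivity)]
  nlinarith [mul_le_mul h1 h3 (by norm_num) (Real.sqrt_nonneg x)]

private theorem fe1_D_lo {η x : ℝ} (hη : 0 ≤ η) (hη' : η ≤ 1 / 1200) (hx0 : 1 / 2000 ≤ x)
    (hx : x ≤ 1) : 1 / 40 ≤ fe1_D η x := by
  have h1 := fe1_sqrt_lo hx0
  have h2 := (fe1_r hη hη' (by linarith) hx).1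
  have h3 := (fe1_r hη hη' (by linarith) hx).2
  have h4 : Real.sqrt x ≤ 1 := by rw [Real.sqrt_le_one]; exact hx
  unfold fe1_D
  have h5 : (1 : ℝ) ≤ Real.sqrt (1 + η * x) ^ 3 := one_le_pow₀ h2
  refine one_div_le_one_div_of_le (by positivity) ?_
  nlinarith [mul_le_mul h4 h3 (by positivity) (by norm_num)]

private theorem fe1_D_sub {η x y : ℝ} (hη : 0 ≤ η) (hη' : η ≤ 1 / 1200) (hx0 : 1 / 2000 ≤ x)
    (hxy : x ≤ y) (hy : y ≤ 1) : (y - x) / 40 ≤ fe1_D η x - fe1_D η y := by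
  have a0 := fe1_sqrt_lo hx0
  have b0 := fe1_sqrt_lo (hx0.trans hxy)
  have a1 : Real.sqrt x ≤ 1 := by rw [Real.sqrt_le_one]; linarith
  have b1 : Real.sqrt y ≤ 1 := by rw [Real.sqrt_le_one]; exact hy
  have a2 : Real.sqrt x ^ 2 = x := Real.sq_sqrt (by linarith)
  have b2 : Real.sqrt y ^ 2 = y := Real.sq_sqrt (by linarith)
  have r1 := (fe1_r hη hη' (x := x) (by linarith) (by linarith)).1
  have r3 := (fe1_r hη hη' (x := x) (by linarith) (by linarith)).2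
  have s1 : Real.sqrt (1 + η * x) ≤ Real.sqrt (1 + η * y) :=
    Real.sqrt_le_sqrt (by nlinarith)
  have s3 : Real.sqrt (1 + η * x) ^ 3 ≤ Real.sqrt (1 + η * y) ^ 3 :=
    pow_le_pow_left₀ (Real.sqrt_nonneg _) s1 3
  have r3' : (1 : ℝ) ≤ Real.sqrt (1 + η * x) ^ 3 := one_le_pow₀ r1
  have hab : Real.sqrt x ≤ Real.sqrt y := Real.sqrt_le_sqrt hxy
  unfold fe1_D
  generalize Real.sqrt (1 + η * x) ^ 3 = R at *
  generalize Real.sqrt (1 + η * y) ^ 3 = S at *
  generalize hα : Real.sqrt x = α at *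
  generalize hβ : Real.sqrt y = β at *
  have hα0 : 0 < α := by linarith
  have hβ0 : 0 < β := by linarith
  have hR0 : 0 < R := by linarith
  have h1 : 1 / (12 * β * S) ≤ 1 / (12 * β * R) :=
    one_div_le_one_div_of_le (by positivity) (mul_le_mul_of_nonneg_left s3 (by positivity))
  have h2 : 1 / (12 * α * R) - 1 / (12 * β * R) = (β - α) / (12 * R * (α * β)) := by
    field_simp
  have h3 : (y - x) / 40 ≤ (β - α) / (12 * R * (α * β)) := by
    rw [div_le_div_iff₀ (by norm_num) (by positivity)]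
    have h4 : y - x = (β - α) * (β + α) := by rw [← a2, ← b2]; ring
    rw [h4]
    have h5 : (β + α) * (12 * R * (α * β)) ≤ 40 := by
      have h6 : α * β ≤ 1 := mul_le_one₀ a1 hβ0.le b1
      have h7 : 12 * R * (α * β) ≤ 13 * 1 :=
        mul_le_mul (by linarith) h6 (by positivity) (by norm_num)
      nlinarith [mul_le_mul (show β + α ≤ 2 by linarith) h7 (by positivity) (by norm_num)]
    have h8 : 0 ≤ β - α := by linarith
    nlinarith [mul_le_mul_of_nonneg_left h5 h8]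
  linarith

private theorem fe1_mvt {η x y : ℝ} (hη : 0 ≤ η) (hη' : η ≤ 1 / 1200) (hx0 : 1 / 2000 ≤ x)
    (hxy : x < y) (hy : y ≤ 1) :
    (y - x) / 40 ≤ fe1_F η y - fe1_F η x ∧ fe1_F η y - fe1_F η x ≤ 40 * (y - x) := by
  have hd : ∀ t, x ≤ t → HasDerivAt (fe1_F η) (fe1_D η t) t := fun t ht =>
    fe1_hasDeriv hη (by linarith)
  obtain ⟨c, hc, hc'⟩ := exists_hasDerivAt_eq_slope (fe1_F η) (fe1_D η) hxy
    (fun t ht => (hd t ht.1).continuousAt.continuousWithinAt) (fun t ht => hd t ht.1.le)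
  have hyx : 0 < y - x := by linarith
  have e : fe1_F η y - fe1_F η x = fe1_D η c * (y - x) := by
    rw [hc']; field_simp
  have h1 := fe1_D_lo hη hη' (x := c) (by linarith [hc.1]) (by linarith [hc.2])
  have h2 := fe1_D_hi hη hη' (x := c) (by linarith [hc.1]) (by linarith [hc.2])
  rw [e]
  constructor
  · nlinarith
  · nlinarith

private theorem fe1_qd {η x y s : ℝ} (hη : 0 ≤ η) (hη' : η ≤ 1 / 1200) (hx0 : 1 / 2000 ≤ x)
    (hxy : x < y) (hs : 0 ≤ s) (hy : y + s ≤ 1) :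
    s * (y - x) / 40 ≤ (fe1_F η (x + s) - fe1_F η x) - (fe1_F η (y + s) - fe1_F η y) := by
  have hd : ∀ t, x ≤ t → HasDerivAt (fun t => fe1_F η (t + s) - fe1_F η t)
      (fe1_D η (t + s) - fe1_D η t) t := by
    intro t ht
    have h1 : HasDerivAt (fe1_F η) (fe1_D η (t + s)) (t + s) := fe1_hasDeriv hη (by linarith)
    exact (h1.comp_add_const t s).sub (fe1_hasDeriv hη (by linarith))
  obtain ⟨c, hc, hc'⟩ := exists_hasDerivAt_eq_slope (fun t => fe1_F η (t + s) - fe1_F η t)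
    (fun t => fe1_D η (t + s) - fe1_D η t) hxy
    (fun t ht => (hd t ht.1).continuousAt.continuousWithinAt) (fun t ht => hd t ht.1.le)
  have hyx : 0 < y - x := by linarith
  have e : (fe1_F η (y + s) - fe1_F η y) - (fe1_F η (x + s) - fe1_F η x) =
      (fe1_D η (c + s) - fe1_D η c) * (y - x) := by
    rw [hc']; field_simp
  have h1 := fe1_D_sub hη hη' (x := c) (y := c + s) (by linarith [hc.1]) (by linarith)
    (by linarith [hc.2])
  have h2 : (c + s - c) / 40 * (y - x) ≤ (fe1_D η c - fe1_D η (c + s)) * (y - x) :=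
    mul_le_mul_of_nonneg_right h1 hyx.le
  have h3 : (c + s - c) / 40 * (y - x) = s * (y - x) / 40 := by ring
  rw [h3] at h2
  linarith

theorem fe1 (N u : ℝ) (hN : 2 ≤ N) (hu : 1 ≤ u) (h : N ≤ u ^ 2 / 100) : Spc N (S1 N) (zxi N u) := by
  have hN0 : 0 < N := by linarith
  have hu0 : 0 < u := by linarith
  set η : ℝ := N / (12 * u ^ 2) with hηd
  have hη : 0 ≤ η := by positivity
  have hη' : η ≤ 1 / 1200 := by
    rw [hηd, div_le_div_iff₀ (by positivity) (by norm_num)]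
    nlinarith
  have hmem : ∀ n ∈ S1 N, 1 / 2000 ≤ (n : ℝ) / N ∧ (n : ℝ) / N ≤ 1 := by
    intro n hn
    rw [S1, Finset.mem_filter, Finset.mem_Icc] at hn
    constructor
    · rw [div_le_div_iff₀ (by norm_num) hN0]
      linarith [hn.2]
    · rw [div_le_one hN0]
      exact (Nat.le_floor_iff hN0.le).1 hn.1.2
  have hz : ∀ n : ℕ, zxi N u n = fe1_F η ((n : ℝ) / N) := by
    intro n
    unfold zxi fe1_F
    have e : η * ((n : ℝ) / N) = n / (12 * u ^ 2) := by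
      rw [hηd]; field_simp
    rw [e]
  constructor
  · have h1 : ((S1 N).card : ℝ) ≤ (⌊N⌋₊ : ℝ) := by
      have h2 : (S1 N).card ≤ ⌊N⌋₊ := by
        unfold S1
        refine (Finset.card_filter_le _ _).trans ?_
        rw [Nat.card_Icc]; omega
      exact_mod_cast h2
    have h3 := Nat.floor_le hN0.le
    linarith
  · intro n _
    unfold zxi
    positivity
  · intro n hn
    obtain ⟨h1, h2⟩ := hmem n hn
    rw [hz]
    unfold fe1_F
    have h3 : Real.sqrt ((n : ℝ) / N) ≤ 1 := by rw [Real.sqrt_le_one]; exact h2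
    have h4 := (fe1_r hη hη' (x := (n : ℝ) / N) (by linarith) h2).1
    rw [div_le_iff₀ (by linarith)]
    linarith
  · intro n hn n' hn' hlt
    obtain ⟨h1, _⟩ := hmem n hn
    obtain ⟨_, h2⟩ := hmem n' hn'
    have hlt' : (n : ℝ) / N < (n' : ℝ) / N :=
      (div_lt_div_iff_of_pos_right hN0).2 (by exact_mod_cast hlt)
    have h3 := (fe1_mvt hη hη' h1 hlt' h2).1
    rw [hz, hz]
    refine le_trans (le_of_eq ?_) h3
    field_simp
  · intro n hn n' hn' hlt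
    obtain ⟨h1, _⟩ := hmem n hn
    obtain ⟨_, h2⟩ := hmem n' hn'
    have hlt' : (n : ℝ) / N < (n' : ℝ) / N :=
      (div_lt_div_iff_of_pos_right hN0).2 (by exact_mod_cast hlt)
    have h3 := (fe1_mvt hη hη' h1 hlt' h2).2
    rw [hz, hz]
    refine le_trans h3 (le_of_eq ?_)
    field_simp
  · intro n n' h' hn _ _ hn'h hlt
    obtain ⟨h1, _⟩ := hmem n hn
    obtain ⟨_, h2⟩ := hmem (n' + h') hn'h
    have hlt' : (n : ℝ) / N < (n' : ℝ) / N :=
      (div_lt_div_iff_of_pos_right hN0).2 (by exact_mod_cast hlt)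
    have e1 : ∀ m : ℕ, ((m + h' : ℕ) : ℝ) / N = (m : ℝ) / N + (h' : ℝ) / N := by
      intro m; push_cast; ring
    rw [e1] at h2
    have h3 := fe1_qd hη hη' h1 hlt' (s := (h' : ℝ) / N) (by positivity) h2
    rw [hz, hz, hz, hz, e1, e1]
    refine le_trans (le_of_eq ?_) h3
    field_simp

end Pool.Agent.LibSX15
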