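import Pool.Agent.LibEX15.EA5
import Pool.Agent.LibEX15.EA6
import Pool.Agent.LibEX15.EA7
import Pool.Agent.LibEX15.FE1
import Pool.Agent.LibSX15.AS8

/-! ROW [EX EA8] (uses as5d, as5e, as6d, as7d, fe1 as stated; as AS8, copy its frame). Apply `as7d` with `κ = kap K`, `J = ⌊M K⌋₊` (`1 ≤ J`, `M K/2 ≤ J ≤ M K`), `X = Λ K` (as5e),
`A0 ≥ 13` with `(16 Λ K/Y) (2π)^A0/A0! ≤ 1` (exists_taylor).
herr: as5d with `u = x + κ j`, `v = κ j ≤ M √K/12`, `x ≥ √(T/2π)`: `(tt u - tt x)/T ≤ M √K/√T` (as in AS8), `v²/x³ ≤ M² K (2π)^(3/2)/(144 T^(3/2)) ≤ 0.11 M² K/T^(3/2)`, `v/x ≤ 0.21 M √K/√T`,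
`K/x² ≤ 2π K/T`: so the error is `≤ Λ (M K^(3/2)/T^(1/2) + M³ K⁴/T² + 5 M² K^(9/2)/T^(5/2)) + Y/8 ≤ 5 Y/100 + Y/8 ≤ Y/4`; `Θ ≤ 0.01 M² K^(5/2)/T^(3/2) ≤ 1` (hΘ); the coefficients have
norm `(2πΘ)^a/a! ≤ (2π)^a/a!`.
hcount: for `x > 0` with `tt x ∈ [T, 2T]`: `1 ≤ x`, `K ≤ x²/100`, take the `d` of `hKP` at `(K, M, x)`; `S1 K ⊆ d.S`; `Spc K (S1 K) d.ξ` from `fe1` (`d.ξ = zxi K x` on `S1 K`); `as6d`;
`W` = image in `ℤ` of the filtered set (`j < J` implies `0 ≤ j ≤ M K`); hypothesis hLV.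
Conclusion: `10^8 T/J ≤ 2 * 10^8 T/(M K)`. -/

set_option autoImplicit false

namespace Pool.Agent.LibSX15

open Finset

private theorem as8d_err (K M Λ T s r x v U Y : ℝ) (hs : 0 < s) (hr : 0 < r) (hKs : K = s ^ 2)
    (hTr : T = r ^ 2) (hM : 1 ≤ M) (hΛ : 1 ≤ Λ) (hx : 0 < x) (hv0 : 0 ≤ v) (hv : v ≤ M * s / 12)
    (hU : U = x + v) (h1 : T ≤ tt x) (h2 : tt U ≤ 2 * T)
    (hE : Λ * (M * s ^ 3 / r + M ^ 3 * s ^ 8 / r ^ 4 + M ^ 2 * s ^ 9 / r ^ 5) ≤ Y / 100)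
    (hΘ : M ^ 2 * s ^ 5 ≤ r ^ 3) :
    0 ≤ K * s * v ^ 2 / (12 * x ^ 3) ∧ K * s * v ^ 2 / (12 * x ^ 3) ≤ 1 ∧
    Λ * K * ((tt U - tt x) / T + 7 * (K * s * v ^ 2 / x ^ 3 * (v / x + K / x ^ 2))) ≤ Y / 8 := by
  unfold tt at h1 h2 ⊢
  have hpi3 : (3.1 : ℝ) < Real.pi := by
    have := Real.pi_gt_d2
    linarith
  have hpi4 : Real.pi < 3.15 := Real.pi_lt_d2
  have hU0 : 0 < U := by rw [hU]; linarith
  -- U ≤ 0.57 r, in the form 3.1 U^2 ≤ r^2
  have hUr : U ^ 2 * 3.1 ≤ r ^ 2 := by nlinarith [sq_nonneg U]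
  have hUr2 : U ≤ r * (0.57 : ℝ) := by
    by_contra hcon
    push Not at hcon
    have : (r * 0.57) ^ 2 < U ^ 2 := pow_lt_pow_left₀ hcon (by positivity) (by norm_num)
    nlinarith [pow_pos hr 2]
  have hxr : r ^ 2 ≤ 6.3 * x ^ 2 := by nlinarith [sq_nonneg x]
  have hxr2 : r ≤ 2.6 * x := by
    by_contra hcon
    push Not at hcon
    have : (2.6 * x) ^ 2 < r ^ 2 := pow_lt_pow_left₀ hcon (by positivity) (by norm_num)
    nlinarith [pow_pos hx 2]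
  -- first part
  have hA : (2 * Real.pi * U ^ 2 - 2 * Real.pi * x ^ 2) / T ≤ M * s / r := by
    have e1 : 2 * Real.pi * U ^ 2 - 2 * Real.pi * x ^ 2 = 2 * Real.pi * (v * (U + x)) := by
      rw [hU]; ring
    rw [e1, hTr, div_le_div_iff₀ (by positivity) hr]
    have e2 : v * (U + x) ≤ (M * s / 12) * (r * 0.57 + r * 0.57) := by
      refine mul_le_mul hv ?_ (by linarith) (by positivity)
      have : x ≤ U := by rw [hU]; linarith
      linarith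
    have e3 : 0 ≤ v * (U + x) := by positivity
    have e4 : 2 * Real.pi * (v * (U + x)) ≤ 6.3 * ((M * s / 12) * (r * 0.57 + r * 0.57)) := by
      refine mul_le_mul (by linarith) e2 e3 (by norm_num)
    have e5 : 6.3 * ((M * s / 12) * (r * 0.57 + r * 0.57)) ≤ M * s * r := by
      have : 0 < M * s * r := by positivity
      nlinarith
    calc 2 * Real.pi * (v * (U + x)) * r ≤ (M * s * r) * r :=
          mul_le_mul_of_nonneg_right (e4.trans e5) hr.le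
      _ = M * s * r ^ 2 := by ring
  -- second part
  have hB : K * s * v ^ 2 / x ^ 3 ≤ 0.13 * (M ^ 2 * s ^ 5 / r ^ 3) := by
    rw [hKs, mul_div_assoc', div_le_div_iff₀ (by positivity) (by positivity)]
    have f1 : v ^ 2 ≤ (M * s / 12) ^ 2 := pow_le_pow_left₀ hv0 hv 2
    have f2 : r ^ 3 ≤ (2.6 * x) ^ 3 := pow_le_pow_left₀ hr.le hxr2 3
    have f3 : v ^ 2 * r ^ 3 ≤ (M * s / 12) ^ 2 * (2.6 * x) ^ 3 :=
      mul_le_mul f1 f2 (by positivity) (by positivity)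
    have f4 : (M * s / 12) ^ 2 * (2.6 * x) ^ 3 ≤ 0.13 * (M ^ 2 * s ^ 2 * x ^ 3) := by
      have : 0 < M ^ 2 * s ^ 2 * x ^ 3 := by positivity
      nlinarith
    calc s ^ 2 * s * v ^ 2 * r ^ 3 = s ^ 3 * (v ^ 2 * r ^ 3) := by ring
      _ ≤ s ^ 3 * (0.13 * (M ^ 2 * s ^ 2 * x ^ 3)) :=
          mul_le_mul_of_nonneg_left (f3.trans f4) (by positivity)
      _ = 0.13 * (M ^ 2 * s ^ 5) * x ^ 3 := by ring
  have hC1 : v / x ≤ 0.22 * (M * s / r) := by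
    rw [mul_div_assoc', div_le_div_iff₀ hx hr]
    calc v * r ≤ (M * s / 12) * (2.6 * x) := mul_le_mul hv hxr2 hr.le (by positivity)
      _ ≤ 0.22 * (M * s) * x := by
        have : 0 < M * s * x := by positivity
        nlinarith
  have hC2 : K / x ^ 2 ≤ 6.3 * (s ^ 2 / r ^ 2) := by
    rw [hKs, mul_div_assoc', div_le_div_iff₀ (by positivity) (by positivity)]
    have := mul_le_mul_of_nonneg_left hxr (sq_nonneg s)
    linarith
  have hB0 : 0 ≤ K * s * v ^ 2 / x ^ 3 := by rw [hKs]; positivity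
  have hΘe : K * s * v ^ 2 / (12 * x ^ 3) = K * s * v ^ 2 / x ^ 3 / 12 := by
    rw [div_div, mul_comm 12]
  have hB1 : M ^ 2 * s ^ 5 / r ^ 3 ≤ 1 := by
    rw [div_le_one (by positivity)]
    exact hΘ
  refine ⟨?_, ?_, ?_⟩
  · rw [hΘe]
    positivity
  · rw [hΘe]
    linarith
  · have hK0 : 0 ≤ Λ * K := by rw [hKs]; positivity
    have hv1 : 0 ≤ v / x + K / x ^ 2 := by rw [hKs]; positivity
    have hD : K * s * v ^ 2 / x ^ 3 * (v / x + K / x ^ 2) ≤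
        0.13 * (M ^ 2 * s ^ 5 / r ^ 3) * (0.22 * (M * s / r) + 6.3 * (s ^ 2 / r ^ 2)) :=
      mul_le_mul hB (add_le_add hC1 hC2) hv1 (by positivity)
    have hP1 : 0 ≤ Λ * (M * s ^ 3 / r) := by positivity
    have hP2 : 0 ≤ Λ * (M ^ 3 * s ^ 8 / r ^ 4) := by positivity
    have hP3 : 0 ≤ Λ * (M ^ 2 * s ^ 9 / r ^ 5) := by positivity
    calc Λ * K * ((2 * Real.pi * U ^ 2 - 2 * Real.pi * x ^ 2) / T +
          7 * (K * s * v ^ 2 / x ^ 3 * (v / x + K / x ^ 2)))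
        ≤ Λ * K * (M * s / r + 7 * (0.13 * (M ^ 2 * s ^ 5 / r ^ 3) *
            (0.22 * (M * s / r) + 6.3 * (s ^ 2 / r ^ 2)))) :=
          mul_le_mul_of_nonneg_left (add_le_add hA (by linarith)) hK0
      _ = Λ * (M * s ^ 3 / r) + 7 * 0.13 * 0.22 * (Λ * (M ^ 3 * s ^ 8 / r ^ 4)) +
            7 * 0.13 * 6.3 * (Λ * (M ^ 2 * s ^ 9 / r ^ 5)) := by
          rw [hKs]
          field_simp
          ring
      _ ≤ 6 * (Λ * (M * s ^ 3 / r + M ^ 3 * s ^ 8 / r ^ 4 + M ^ 2 * s ^ 9 / r ^ 5)) := by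
          rw [mul_add, mul_add]
          linarith
      _ ≤ Y / 8 := by
          have hY0 : 0 ≤ Y := by
            have : 0 ≤ Λ * (M * s ^ 3 / r + M ^ 3 * s ^ 8 / r ^ 4 + M ^ 2 * s ^ 9 / r ^ 5) := by
              positivity
            linarith
          linarith

theorem as8d (C0 C T K M Λ Y B : ℝ) (c : ℕ → ℝ → ℂ) (hKP : KP C0) (hc : CC C T K c)
    (hΛ : ∀ n : ℕ, (n : ℝ) ≤ K → C * n.divisors.card ≤ Λ) (hΛ1 : 1 ≤ Λ)
    (hT : 1000 ≤ T) (hK2 : 2 ≤ K) (hKT : K ≤ T / 1000) (hM1 : 1 ≤ M) (hMK : M ≤ K) (hY : 0 < Y) (hB : 0 ≤ B)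
    (hYX : Y ≤ 2 * (Λ * K))
    (hE : Λ * (M * K ^ (3 / 2 : ℝ) / T ^ (1 / 2 : ℝ) + M ^ 3 * K ^ 4 / T ^ 2 +
      M ^ 2 * K ^ (9 / 2 : ℝ) / T ^ (5 / 2 : ℝ)) ≤ Y / 100)
    (hΘ : M ^ 2 * K ^ (5 / 2 : ℝ) ≤ T ^ (3 / 2 : ℝ))
    (hκ : M * K ^ (1 / 2 : ℝ) ≤ 12 * T ^ (1 / 2 : ℝ))
    (hLV : ∀ x : ℝ, 0 < x → tt x ∈ Set.Icc T (2 * T) → ∀ d : Dat, d.Good C0 → d.N = K → d.M = M →
      d.ε = 3 * K ^ 2 / x ^ 2 → d.Err = C0 * (1 + M * (3 * K ^ 2 / x ^ 2)) ^ 2 * (1 + Real.log M) →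
      S1 K ⊆ d.S → Spc K (S1 K) d.ξ →
      ∀ (a : ℕ → ℂ) (W : Finset ℤ) (y : ℝ), Y / 4000 ≤ y → (∀ n, ‖a n‖ ≤ Λ * d.ω n) →
      (∀ n, n ∉ S1 K → a n = 0) →
      (∀ t ∈ W, (0 : ℝ) ≤ t ∧ (t : ℝ) ≤ M * K) → (∀ t ∈ W, y ≤ ‖d.D a t‖) →
      (W.card : ℝ) ≤ B / y ^ 2) :
    TT K c T Y ≤ 10 ^ 9 * T / (M * K) * B * (4 + 6 * Real.log (4000 * (Λ * K) / Y)) := by
  have hK0 : 0 < K := by linarith
  have hT0 : 0 < T := by linarith
  have hM0 : 0 < M := by linarith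
  have hΛ0 : 0 ≤ Λ := by linarith
  obtain ⟨s, hsdef⟩ : ∃ s : ℝ, s = Real.sqrt K := ⟨_, rfl⟩
  obtain ⟨r, hrdef⟩ : ∃ r : ℝ, r = Real.sqrt T := ⟨_, rfl⟩
  have hs : 0 < s := hsdef ▸ Real.sqrt_pos.mpr hK0
  have hr : 0 < r := hrdef ▸ Real.sqrt_pos.mpr hT0
  have hKs : K = s ^ 2 := by rw [hsdef, Real.sq_sqrt hK0.le]
  have hTr : T = r ^ 2 := by rw [hrdef, Real.sq_sqrt hT0.le]
  -- the real powers
  have rp : ∀ z w : ℝ, 0 < w → z = w ^ 2 → ∀ k : ℕ, z ^ ((k : ℝ) / 2) = w ^ k := by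
    intro z w hw hz k
    rw [hz, ← Real.rpow_natCast w 2, ← Real.rpow_mul hw.le, ← Real.rpow_natCast w k]
    congr 1
    push_cast
    ring
  have p1 : K ^ (3 / 2 : ℝ) = s ^ 3 := by
    have := rp K s hs hKs 3
    norm_num at this ⊢
    exact this
  have p2 : K ^ (9 / 2 : ℝ) = s ^ 9 := by
    have := rp K s hs hKs 9
    norm_num at this ⊢
    exact this
  have p3 : K ^ (1 / 2 : ℝ) = s := by
    rw [hsdef, Real.sqrt_eq_rpow]
  have p4 : T ^ (1 / 2 : ℝ) = r := by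
    rw [hrdef, Real.sqrt_eq_rpow]
  have p5 : T ^ (5 / 2 : ℝ) = r ^ 5 := by
    have := rp T r hr hTr 5
    norm_num at this ⊢
    exact this
  have p6 : K ^ (5 / 2 : ℝ) = s ^ 5 := by
    have := rp K s hs hKs 5
    norm_num at this ⊢
    exact this
  have p7 : T ^ (3 / 2 : ℝ) = r ^ 3 := by
    have := rp T r hr hTr 3
    norm_num at this ⊢
    exact this
  have p8 : K ^ 4 = s ^ 8 := by rw [hKs]; ring
  have p9 : T ^ 2 = r ^ 4 := by rw [hTr]; ring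
  rw [p1, p2, p4, p5, p8, p9] at hE
  rw [p3, p4] at hκ
  rw [p6, p7] at hΘ
  -- the number of points
  obtain ⟨J, hJdef⟩ : ∃ J : ℕ, J = ⌊M * K⌋₊ := ⟨_, rfl⟩
  have hMK2 : 2 ≤ M * K := by nlinarith
  have hJ1 : (J : ℝ) ≤ M * K := hJdef ▸ Nat.floor_le (by positivity)
  have hJ2 : M * K < J + 1 := hJdef ▸ Nat.lt_floor_add_one _
  have hJ3 : M * K / 2 ≤ J := by linarith
  have hJ4 : 1 ≤ J := by
    have : (1 : ℝ) ≤ J := by linarith
    exact_mod_cast this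
  have hkap : kap K = 1 / (12 * s) := by rw [kap, hsdef]
  have hkap0 : 0 < kap K := by rw [hkap]; positivity
  have hkapJ : ∀ j : ℝ, j ≤ M * K → kap K * j ≤ M * s / 12 := by
    intro j hj
    rw [hkap, div_mul_eq_mul_div, one_mul, div_le_div_iff₀ (by positivity) (by norm_num)]
    have : j ≤ M * s ^ 2 := hKs ▸ hj
    nlinarith
  have hκJ : kap K * J ≤ Real.sqrt T := by
    refine (hkapJ J hJ1).trans ?_
    rw [← hrdef]
    linarith
  have hΛK : 0 < Λ * K := by positivity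
  obtain ⟨A0, hA0, hA1⟩ := exists_taylor (2 * Real.pi) (16 * (Λ * K) / Y) (by positivity) 13
  have hmain := as7d C T K Y (Λ * K) B (kap K) J A0 c hc (by linarith) hJ4 hY hkap0 hκJ hB hYX
    (fun a x v hx => as5e C T K Λ c hc hK0 hΛ a x v hx) ?_ ?_
  · -- conclusion
    refine hmain.trans ?_
    have hlog : 0 ≤ Real.log (4000 * (Λ * K) / Y) := by
      refine Real.log_nonneg ?_
      rw [le_div_iff₀ hY]
      linarith
    have hJ0 : (0 : ℝ) < J := by linarith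
    have h1 : 10 ^ 8 * T / J ≤ 10 ^ 9 * T / (M * K) := by
      rw [div_le_div_iff₀ hJ0 (by positivity)]
      nlinarith
    exact mul_le_mul_of_nonneg_right (mul_le_mul_of_nonneg_right h1 hB) (by linarith)
  · -- the error of the linearisation
    intro x hx j hj h1 h2
    have hj0 : (0 : ℝ) ≤ j := Nat.cast_nonneg _
    have hjJ : (j : ℝ) ≤ M * K := by
      have : (j : ℝ) < J := by exact_mod_cast hj
      linarith
    have hv0 : 0 ≤ kap K * j := mul_nonneg hkap0.le hj0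
    obtain ⟨hΘ0, hΘ1, herr⟩ := as8d_err K M Λ T s r x (kap K * j) (x + kap K * j) Y hs hr hKs hTr hM1
      hΛ1 hx hv0 (hkapJ j hjJ) rfl h1 h2 hE hΘ
    have h5 := as5d C T K Λ c hc hT0 hK0 hΛ x (x + kap K * j) hx (by linarith) h1 h2 A0 hA0
      (by rw [add_sub_cancel_left, ← hsdef]; exact hΘ1)
    rw [add_sub_cancel_left, ← hsdef] at h5
    obtain ⟨Θ, hΘdef⟩ : ∃ Θ : ℝ, Θ = K * s * (kap K * j) ^ 2 / (12 * x ^ 3) := ⟨_, rfl⟩
    rw [← hΘdef] at h5 hΘ0 hΘ1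
    have htail : Λ * K * (2 * ((2 * Real.pi) ^ A0 / A0.factorial)) ≤ Y / 8 := by
      have h6 : 16 * (Λ * K) / Y * ((2 * Real.pi) ^ A0 / A0.factorial) =
          (Λ * K * (2 * ((2 * Real.pi) ^ A0 / A0.factorial))) / (Y / 8) := by
        field_simp
        ring
      rw [h6, div_le_one (by positivity)] at hA1
      exact hA1
    have h7 : ‖SS K c (tt (x + kap K * j)) - ∑ a ∈ range A0,
        (-(2 * Real.pi * Θ : ℝ) * Complex.I) ^ a / (a.factorial : ℂ) * SLa K c a x (kap K * j)‖ ≤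
        Y / 4 := by
      refine h5.trans ?_
      rw [mul_add]
      linarith
    have h8 : ‖∑ a ∈ range A0, (-(2 * Real.pi * Θ : ℝ) * Complex.I) ^ a / (a.factorial : ℂ) *
        SLa K c a x (kap K * j)‖ ≤
        ∑ a ∈ range A0, (2 * Real.pi) ^ a / (a.factorial : ℝ) * ‖SLa K c a x (kap K * j)‖ := by
      refine (norm_sum_le _ _).trans (Finset.sum_le_sum fun a _ => ?_)
      rw [norm_mul, norm_div, norm_pow, norm_mul, norm_neg, Complex.norm_I, mul_one,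
        Complex.norm_real, Real.norm_of_nonneg (by positivity), Complex.norm_natCast]
      refine mul_le_mul_of_nonneg_right ?_ (norm_nonneg _)
      refine div_le_div_of_nonneg_right ?_ (by positivity)
      refine pow_le_pow_left₀ (by positivity) ?_ _
      have hpi := Real.pi_pos
      nlinarith
    have h9 := norm_sub_norm_le (SS K c (tt (x + kap K * j))) (∑ a ∈ range A0,
        (-(2 * Real.pi * Θ : ℝ) * Complex.I) ^ a / (a.factorial : ℂ) * SLa K c a x (kap K * j))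
    linarith
  · -- the count
    intro x hx hxT a y hy
    have hpi4 : Real.pi < 3.15 := Real.pi_lt_d2
    have hx2 : T ≤ 6.3 * x ^ 2 := by
      have := hxT.1
      unfold tt at this
      nlinarith [sq_nonneg x]
    have hx1 : 1 ≤ x := by
      by_contra hcon
      push Not at hcon
      have : x ^ 2 < 1 := by nlinarith
      linarith
    obtain ⟨d, hd, hdN, hdM, hdε, hdErr, hS, hξ⟩ := hKP.2 K M x hK2 hM1 hMK hx1 (by linarith)
    obtain ⟨ha, ha0, hD⟩ := as6d d C T K Λ x c hc hK0 hΛ0 hd.hω0 hΛ hS hξ hxT a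
    have hsub : S1 K ⊆ d.S := by
      intro n hn
      unfold S1 at hn
      rw [Finset.mem_filter, Finset.mem_Icc] at hn
      exact (hS n hn.2 ((Nat.le_floor_iff hK0.le).1 hn.1.2)).1
    have hsp : Spc K (S1 K) d.ξ := by
      have h0 := fe1 K x hK2 hx1 (by linarith)
      have e : ∀ n ∈ S1 K, d.ξ n = zxi K x n := fun n hn => hξ n (hsub hn)
      refine ⟨h0.card, fun n hn => ?_, fun n hn => ?_, fun n hn n' hn' h => ?_,
        fun n hn n' hn' h => ?_, fun n n' h h1 h2 h3 h4 h5 => ?_⟩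
      · rw [e n hn]; exact h0.r0 n hn
      · rw [e n hn]; exact h0.r1 n hn
      · rw [e n hn, e n' hn']; exact h0.lo n hn n' hn' h
      · rw [e n hn, e n' hn']; exact h0.hi n hn n' hn' h
      · rw [e n h1, e _ h2, e n' h3, e _ h4]; exact h0.qd n n' h h1 h2 h3 h4 h5
    have hcount := hLV x hx hxT d hd hdN hdM hdε hdErr hsub hsp (aaa K c a x)
      (((range J).filter (fun j : ℕ => y ≤ ‖SLa K c a x (kap K * j)‖)).image (fun j : ℕ => (j : ℤ)))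
      y hy ha ha0 ?_ ?_
    · rw [Finset.card_image_of_injective _ (fun a b h => by exact_mod_cast h)] at hcount
      exact hcount
    · intro t ht
      obtain ⟨j, hj, rfl⟩ := Finset.mem_image.mp ht
      have hj' := Finset.mem_range.mp (Finset.mem_filter.mp hj).1
      have : (j : ℝ) < J := by exact_mod_cast hj'
      rw [Int.cast_natCast]
      exact ⟨Nat.cast_nonneg _, by linarith⟩
    · intro t ht
      obtain ⟨j, hj, rfl⟩ := Finset.mem_image.mp ht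
      rw [hD, Int.cast_natCast]
      exact (Finset.mem_filter.mp hj).2

end Pool.Agent.LibSX15
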