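import Pool.Agent.LibEX15.MM1
import Pool.Agent.LibEX15.EA14
import Pool.Agent.LibEX15.EA15
import Pool.Agent.LibEX15.EA16
import Pool.Agent.LibSX15.ASF

/-! LibEX15: explicit exponents for the moments `4 < A < 12`. -/

set_option autoImplicit false

namespace Pool.Agent.LibSX15

open Finset

theorem moments3 (A : ℝ) (hA : 4 < A) (hA2 : A < 12) (η : ℝ) (hη : 0 < η) :
    ∃ T0 : ℝ, 1 ≤ T0 ∧ ∀ T : ℝ, T0 ≤ T →
      ∫ t in (0:ℝ)..T, ‖riemannZeta (1 / 2 + (t : ℂ) * Complex.I)‖ ^ A ≤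
        T ^ (1 + (A - 4) / 8 - min ((A - 4) / 200) ((12 - A) / 216) + η) := by
  obtain ⟨C0, hKP⟩ := asf_kernel
  obtain ⟨C2, hHP⟩ := asf_halasz C0 hKP.1
  obtain ⟨C3, hMP⟩ := LV_main2 C0 hKP.1
  obtain ⟨C4, T4, hZP⟩ := asf_zeta
  obtain ⟨e, he, he1, he2⟩ : ∃ e : ℝ, 0 < e ∧ e ≤ η ∧ e ≤ 1 / 200 :=
    ⟨min η (1 / 200), lt_min hη (by norm_num), min_le_left _ _, min_le_right _ _⟩
  obtain ⟨T1, hT1, h1⟩ := as14d C0 C2 C3 C4 T4 6 hKP hHP hMP hZP A hA hA2 e he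
  obtain ⟨T2, hT2, h2⟩ := as14b C4 T4 hZP
  have hD : min ((A - 4) / 200) ((12 - A) / 216) ≤ 1 / 200 * (A - 4) :=
    (min_le_left _ _).trans (le_of_eq (by ring))
  have hD1 : min ((A - 4) / 200) ((12 - A) / 216) ≤ 1 := by
    refine (min_le_left _ _).trans ?_
    linarith
  obtain ⟨N0, hN0⟩ := as15d A (1 / 200) e (min ((A - 4) / 200) ((12 - A) / 216)) (max T1 T2) hA
    hA2.le (by norm_num) (by norm_num) he he2 hD
    (fun T hT V hV hV2 => h1 T ((le_max_left _ _).trans hT) V hV hV2)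
    (fun T hT => h2 T ((le_max_right _ _).trans hT))
  obtain ⟨T0, hT0, h⟩ := as16d A (min ((A - 4) / 200) ((12 - A) / 216)) e N0 hA he hD1 hN0
  refine ⟨T0, hT0, fun T hT => (h T hT).trans ?_⟩
  exact Real.rpow_le_rpow_of_exponent_le (hT0.trans hT) (by linarith)

end Pool.Agent.LibSX15
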