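import Pool.Agent.LibSX15.LVDefs
import Pool.Agent.LibSX15.AS0

/-!
LibEX15 (MP_91b7ff_nt, version 3): explicit exponents for the moments `4 < A < 12`.
Definitions.  Paper proof: M6_v3.md in the store.
-/

set_option autoImplicit false

namespace Pool.Agent.LibSX15

open Finset

/-- spacing of the frequencies and of their differences -/
structure Spc (N : ℝ) (S1 : Finset ℕ) (ξ : ℕ → ℝ) : Prop where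
  card : (S1.card : ℝ) ≤ 2 * N
  r0 : ∀ n ∈ S1, 0 ≤ ξ n
  r1 : ∀ n ∈ S1, ξ n ≤ 1 / 4
  lo : ∀ n ∈ S1, ∀ n' ∈ S1, n < n' → ((n' : ℝ) - n) / (40 * N) ≤ ξ n' - ξ n
  hi : ∀ n ∈ S1, ∀ n' ∈ S1, n < n' → ξ n' - ξ n ≤ 40 * ((n' : ℝ) - n) / N
  qd : ∀ n n' h : ℕ, n ∈ S1 → n + h ∈ S1 → n' ∈ S1 → n' + h ∈ S1 → n < n' →
    (h : ℝ) * ((n' : ℝ) - n) / (40 * N ^ 2) ≤ (ξ (n + h) - ξ n) - (ξ (n' + h) - ξ n')

open scoped Classical in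
/-- the range of the frequencies -/
noncomputable def S1 (N : ℝ) : Finset ℕ := (Finset.Icc 1 ⌊N⌋₊).filter fun n : ℕ => N / 2000 ≤ n

/-- the pairs `n < n'` of `S1` with `x ≤ ξ n' - ξ n < y` -/
noncomputable def prs (S : Finset ℕ) (ξ : ℕ → ℝ) (x y : ℝ) : Finset (ℕ × ℕ) :=
  open scoped Classical in
  (S ×ˢ S).filter fun p => p.1 < p.2 ∧ x ≤ ξ p.2 - ξ p.1 ∧ ξ p.2 - ξ p.1 < y

/-- the coefficients `c_t (x / P)^a`, `x` = position of `t` in its cluster of length `P` -/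
noncomputable def cx (c : ℤ → ℂ) (P a : ℕ) (t : ℤ) : ℂ :=
  c t * ((((t % (P : ℤ) : ℤ) : ℝ) / P) ^ a : ℝ)

/-- the sum over the clusters (of length `P`) seen from the window at `s0` -/
noncomputable def gA (d : Dat) (W : Finset ℤ) (c : ℤ → ℂ) (P p a : ℕ) (s0 y : ℤ) : ℂ :=
  ∑ κ ∈ Ks W P, (d.w (d.zz p ((P * κ - s0 : ℤ) : ℝ)) : ℂ) * ee (d.ph p ((P * κ - s0 : ℤ) : ℝ)) *
    d.U W (cx c P a) P s0 p κ * ee (-(d.nu p ((P * κ - s0 : ℤ) : ℝ) * y))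

/-- `(n/K)^(3/2)` -/
noncomputable def bb (K : ℝ) (n : ℕ) : ℝ := (n / K) * Real.sqrt (n / K)

/-- the linearised sum with the factor `(n/K)^(3a/2)` -/
noncomputable def SLa (K : ℝ) (c : ℕ → ℝ → ℂ) (a : ℕ) (u0 v : ℝ) : ℂ :=
  ∑ n ∈ Finset.Icc 1 ⌊K⌋₊, c n (tt u0) * ee (-zph n (tt u0)) * ((bb K n) ^ a : ℝ) *
    ee (-(v * zlam u0 n))

/-- its coefficients, as data for the large values theorem -/
noncomputable def aaa (K : ℝ) (c : ℕ → ℝ → ℂ) (a : ℕ) (u0 : ℝ) (n : ℕ) : ℂ :=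
  aa c u0 n * ((bb K n) ^ a : ℝ)

/-- the large values theorem, version 3, as a proposition -/
def MP2 (C : ℝ) (k : ℕ) (C0 : ℝ) : Prop :=
  1 ≤ C ∧ ∀ (d : Dat), d.Good C0 → ∀ (S : Finset ℕ), S ⊆ d.S → Spc d.N S d.ξ →
    ∀ (Λ Y H : ℝ) (a : ℕ → ℂ) (W : Finset ℤ), 1 ≤ Λ → Real.log d.M + 1 ≤ Λ →
    0 < Y → (∀ n, ‖a n‖ ≤ Λ * d.ω n) → (∀ n, n ∉ S → a n = 0) →
    (∀ t ∈ W, (0 : ℝ) ≤ t ∧ (t : ℝ) ≤ d.M * d.N) → (∀ t ∈ W, Y ≤ ‖d.D a t‖) →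
    H = Λ ^ 2 * d.N ^ 2 / Y ^ 2 →
    C * H * d.Err ≤ d.N → C * (1 + d.ε) * d.M ^ 2 ≤ d.N →
    (W.card : ℝ) ≤ C * H ∨
    (W.card : ℝ) ^ 2 ≤ C * Λ ^ k * (H ^ 4 * d.M / d.N) ∨
    (W.card : ℝ) ^ 4 ≤ C * Λ ^ k * ((1 + d.ε) * H ^ 6 * d.M ^ 3 / d.N) ∨
    (W.card : ℝ) ^ 2 ≤ C * Λ ^ k * ((1 + d.ε) * H ^ 5 * d.M ^ 4 / d.N ^ 2)

end Pool.Agent.LibSX15
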