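import Pool.Agent.LibEX15.EXDefs

/-! ROW [EX FE2] (elementary counting). Multiplicity of the differences `ξ n' - ξ n` in a short cell.
PLAN. `prs S ξ x (x+δ)` = pairs `n < n'` in `S` with `x ≤ ξ n' - ξ n < x + δ`; put `h = n' - n ≥ 1`. If there is no pair: trivial.
A pair exists: by `lo`, `1/(40N) ≤ ξ n' - ξ n < x + δ`, so `x > 1/(80N) ≥ δ`, `x > 0`.
(i) by `lo`: `h < 40N(x+δ) ≤ 80Nx`; by `hi`: `h ≥ xN/40`, so `1/h ≤ 40/(xN)`.  So at most `80Nx` values of `h` (naturals `1 ≤ h < 80Nx`).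
(ii) for one `h` let `m ≤ n` be two elements of the fibre `{n : (n, n+h) ∈ prs}`: by `qd`, `h (n-m)/(40N²) ≤ (difference of the two θ) < δ`, so
`n - m < 40N²δ/h`: the fibre is contained in `[m, m + 40N²δ/h)` (`m` = the smallest element), at most `1 + 40N²δ/h ≤ 1 + 1600 N δ/x` elements.
(iii) total `≤ 80Nx (1 + 1600Nδ/x) = 80Nx + 128000 N²δ` (fibre over `h`, e.g. `card_eq_sum_card_image` / `card_le_mul_card_image`). -/

set_option autoImplicit false

namespace Pool.Agent.LibSX15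

open Finset

/-- The fibre over one difference of the indices. -/
private theorem fe2_fib (N : ℝ) (S : Finset ℕ) (ξ : ℕ → ℝ) (hN : 1 ≤ N) (hS : Spc N S ξ) (x δ : ℝ)
    (hδ : 0 < δ) (h : ℕ) (h1 : 1 ≤ h) :
    (((prs S ξ x (x + δ)).filter fun p => p.2 - p.1 = h).card : ℝ) ≤ 40 * N ^ 2 * δ / h + 1 := by
  classical
  set F := (prs S ξ x (x + δ)).filter fun p => p.2 - p.1 = h with hF
  have hmem : ∀ p ∈ F, p.1 ∈ S ∧ p.1 + h ∈ S ∧ p.2 = p.1 + h ∧ x ≤ ξ (p.1 + h) - ξ p.1 ∧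
      ξ (p.1 + h) - ξ p.1 < x + δ := by
    intro p hp
    rw [hF, mem_filter] at hp
    obtain ⟨hp, hph⟩ := hp
    unfold prs at hp
    rw [mem_filter, mem_product] at hp
    obtain ⟨⟨ha, hb⟩, hlt, hx, hy⟩ := hp
    have h2 : p.2 = p.1 + h := by omega
    rw [h2] at hb hx hy
    exact ⟨ha, hb, h2, hx, hy⟩
  have hh : (0 : ℝ) < h := by exact_mod_cast h1
  have hD : (0 : ℝ) ≤ 40 * N ^ 2 * δ / h := by positivity
  rcases F.eq_empty_or_nonempty with h0 | h0
  · rw [h0, card_empty, Nat.cast_zero]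
    linarith
  · have hne : (F.image Prod.fst).Nonempty := h0.image _
    set m := (F.image Prod.fst).min' hne with hm
    have hmI : m ∈ F.image Prod.fst := min'_mem _ hne
    obtain ⟨q, hq, hqm⟩ := mem_image.1 hmI
    have hqs := hmem q hq
    rw [hqm] at hqs
    have hsub : F.image Prod.fst ⊆ Icc m (m + ⌊40 * N ^ 2 * δ / h⌋₊) := by
      intro k hk
      have hmk : m ≤ k := min'_le _ k hk
      obtain ⟨p, hp, rfl⟩ := mem_image.1 hk
      rw [mem_Icc]
      refine ⟨hmk, ?_⟩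
      rcases hmk.eq_or_lt with e | hlt
      · omega
      · have hps := hmem p hp
        have h3 := hS.qd m p.1 h hqs.1 hqs.2.1 hps.1 hps.2.1 hlt
        have h4 : (h : ℝ) * ((p.1 : ℝ) - m) / (40 * N ^ 2) < δ := by linarith [hqs.2.2.2.2, hps.2.2.2.1]
        rw [div_lt_iff₀ (by positivity)] at h4
        have h5 : (p.1 : ℝ) - m ≤ 40 * N ^ 2 * δ / h := by
          rw [le_div_iff₀ hh]
          linarith
        have h6 : p.1 - m ≤ ⌊40 * N ^ 2 * δ / h⌋₊ := by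
          refine Nat.le_floor ?_
          rw [Nat.cast_sub hmk]
          exact h5
        omega
    have hinj : Set.InjOn Prod.fst (F : Set (ℕ × ℕ)) := by
      intro p hp p' hp' e
      have e1 := (hmem p hp).2.2.1
      have e2 := (hmem p' hp').2.2.1
      refine Prod.ext e ?_
      rw [e1, e2, e]
    rw [← card_image_of_injOn hinj]
    have h7 := card_le_card hsub
    rw [Nat.card_Icc] at h7
    have h8 : (((F.image Prod.fst).card : ℕ) : ℝ) ≤ (⌊40 * N ^ 2 * δ / h⌋₊ : ℝ) + 1 := by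
      have h9 : (F.image Prod.fst).card ≤ ⌊40 * N ^ 2 * δ / h⌋₊ + 1 := by omega
      exact_mod_cast h9
    have h10 := Nat.floor_le hD
    linarith

theorem fe2 (N : ℝ) (S : Finset ℕ) (ξ : ℕ → ℝ) (hN : 1 ≤ N) (hS : Spc N S ξ) (x δ : ℝ) (hδ : 0 < δ)
    (hδN : δ ≤ 1 / (80 * N)) :
    ((prs S ξ x (x + δ)).card : ℝ) ≤ 80 * |x| * N + 128000 * δ * N ^ 2 := by
  classical
  have hN0 : 0 < N := by linarith
  rcases (prs S ξ x (x + δ)).eq_empty_or_nonempty with h0 | ⟨p0, hp0⟩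
  · rw [h0, card_empty, Nat.cast_zero]
    positivity
  have hmem : ∀ p ∈ prs S ξ x (x + δ), p.1 < p.2 ∧
      ((p.2 - p.1 : ℕ) : ℝ) / (40 * N) ≤ ξ p.2 - ξ p.1 ∧
      ξ p.2 - ξ p.1 ≤ 40 * ((p.2 - p.1 : ℕ) : ℝ) / N ∧ x ≤ ξ p.2 - ξ p.1 ∧
      ξ p.2 - ξ p.1 < x + δ := by
    intro p hp
    unfold prs at hp
    rw [mem_filter, mem_product] at hp
    obtain ⟨⟨ha, hb⟩, hlt, hx, hy⟩ := hp
    rw [Nat.cast_sub hlt.le]
    exact ⟨hlt, hS.lo _ ha _ hb hlt, hS.hi _ ha _ hb hlt, hx, hy⟩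
  have hx1 : 1 / (80 * N) ≤ x := by
    have h1 := hmem p0 hp0
    have h2 : (1 : ℝ) / (40 * N) ≤ ((p0.2 - p0.1 : ℕ) : ℝ) / (40 * N) := by
      have h3 : (1 : ℝ) ≤ ((p0.2 - p0.1 : ℕ) : ℝ) := by
        exact_mod_cast (by omega : 1 ≤ p0.2 - p0.1)
      gcongr
    have h4 : (1 : ℝ) / (40 * N) = 2 * (1 / (80 * N)) := by
      field_simp
      norm_num
    linarith [h1.2.1, h1.2.2.2.2]
  have hx0 : 0 < x := lt_of_lt_of_le (by positivity) hx1
  have hδx : δ ≤ x := hδN.trans hx1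
  rw [abs_of_pos hx0]
  set A := prs S ξ x (x + δ) with hA
  set g : ℕ × ℕ → ℕ := fun p => p.2 - p.1 with hg
  have hI : A.image g ⊆ Icc 1 ⌊80 * N * x⌋₊ := by
    intro h hh
    obtain ⟨p, hp, rfl⟩ := mem_image.1 hh
    have h1 := hmem p hp
    rw [mem_Icc]
    refine ⟨by have := h1.1; simp only [hg]; omega, Nat.le_floor ?_⟩
    have h2 := h1.2.1
    rw [div_le_iff₀ (by positivity)] at h2
    have h3 : ξ p.2 - ξ p.1 ≤ 2 * x := by linarith [h1.2.2.2.2]
    have h4 : (ξ p.2 - ξ p.1) * (40 * N) ≤ 2 * x * (40 * N) :=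
      mul_le_mul_of_nonneg_right h3 (by positivity)
    simp only [hg]
    linarith
  have hcard : (A.card : ℝ) ≤ ∑ h ∈ A.image g, (1600 * N * δ / x + 1) := by
    rw [card_eq_sum_card_image g A]
    push_cast
    refine sum_le_sum fun h hh => ?_
    have h1 : 1 ≤ h := (mem_Icc.1 (hI hh)).1
    have h2 := fe2_fib N S ξ hN hS x δ hδ h h1
    refine h2.trans ?_
    obtain ⟨p, hp, hph⟩ := mem_image.1 hh
    have h3 := hmem p hp
    have h4 : x ≤ 40 * (h : ℝ) / N := by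
      rw [← hph]
      exact h3.2.2.2.1.trans h3.2.2.1
    rw [le_div_iff₀ hN0] at h4
    have hh0 : (0 : ℝ) < h := by exact_mod_cast h1
    have h5 : 40 * N ^ 2 * δ / h ≤ 1600 * N * δ / x := by
      rw [div_le_div_iff₀ hh0 hx0]
      have h6 : x * N * (40 * N * δ) ≤ 40 * (h : ℝ) * (40 * N * δ) :=
        mul_le_mul_of_nonneg_right h4 (by positivity)
      nlinarith
    linarith
  have hIc : ((A.image g).card : ℝ) ≤ 80 * N * x := by
    have h1 := card_le_card hI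
    rw [Nat.card_Icc, Nat.add_sub_cancel] at h1
    have h2 : ((A.image g).card : ℝ) ≤ (⌊80 * N * x⌋₊ : ℝ) := by exact_mod_cast h1
    exact h2.trans (Nat.floor_le (by positivity))
  rw [sum_const, nsmul_eq_mul] at hcard
  have h1 : (0 : ℝ) ≤ 1600 * N * δ / x + 1 := by positivity
  calc (A.card : ℝ) ≤ ((A.image g).card : ℝ) * (1600 * N * δ / x + 1) := hcard
    _ ≤ 80 * N * x * (1600 * N * δ / x + 1) := mul_le_mul_of_nonneg_right hIc h1
    _ = 80 * x * N + 128000 * δ * N ^ 2 := by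
        field_simp
        ring

end Pool.Agent.LibSX15
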