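import Pool.Agent.LibEX15.EXDefs

/-! ROW [EX FE3] (short, only Mathlib + `Fj`). Bounds of the Fejér kernel `Fj P θ = ‖∑_{a<4P} ee(θ a)‖²/(4P)`.
PLAN. First: `‖sum‖ ≤ 4P`. Second: geometric sum: `(ee θ - 1) * sum = ee(4Pθ) - 1`, `‖ee θ - 1‖ = 2 |sin πθ| ≥ 4θ` for `0 ≤ θ ≤ 1/2`
(`Real.mul_le_sin` or `sin (πθ) ≥ 2θ`), so `‖sum‖ ≤ 2/(4θ) = 1/(2θ)` and `Fj ≤ (1/(4θ²))/(4P)`. -/

set_option autoImplicit false

namespace Pool.Agent.LibSX15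

open Finset

theorem fe3 (P : ℕ) (hP : 1 ≤ P) (θ : ℝ) : Fj P θ ≤ 4 * P := by
  unfold Fj
  have hP0 : (0 : ℝ) < P := by exact_mod_cast hP
  have h1 : ‖∑ a ∈ range (4 * P), ee (θ * (a : ℝ))‖ ≤ 4 * P := by
    refine (norm_sum_le _ _).trans ?_
    simp
  rw [div_le_iff₀ (by positivity)]
  have h2 : 0 ≤ ‖∑ a ∈ range (4 * P), ee (θ * (a : ℝ))‖ := norm_nonneg _
  nlinarith

/-- The geometric sum. -/
private theorem fe3_geo (n : ℕ) (θ : ℝ) :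
    (ee θ - 1) * ∑ a ∈ range n, ee (θ * (a : ℝ)) = ee (θ * n) - 1 := by
  induction n with
  | zero => simp
  | succ n ih =>
    have h1 : ee (θ * ((n + 1 : ℕ) : ℝ)) = ee θ * ee (θ * n) := by
      rw [← ee_add]
      congr 1
      push_cast
      ring
    rw [sum_range_succ, mul_add, ih, h1]
    ring

private theorem fe3_low (θ : ℝ) (h0 : 0 < θ) (h1 : θ ≤ 1 / 2) : 4 * θ ≤ ‖ee θ - 1‖ := by
  have h2 : ee θ - 1 = Complex.exp (Complex.I * ((2 * Real.pi * θ : ℝ) : ℂ)) - 1 := by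
    unfold ee
    rw [mul_comm Complex.I]
  rw [h2, Complex.norm_exp_I_mul_ofReal_sub_one, Real.norm_eq_abs]
  have h3 : 2 * Real.pi * θ / 2 = Real.pi * θ := by ring
  rw [h3]
  have hpi := Real.pi_pos
  have h4 : 2 / Real.pi * (Real.pi * θ) ≤ Real.sin (Real.pi * θ) :=
    Real.mul_le_sin (by positivity) (by nlinarith)
  have h5 : 2 / Real.pi * (Real.pi * θ) = 2 * θ := by
    field_simp
  rw [h5] at h4
  have h6 := le_abs_self (2 * Real.sin (Real.pi * θ))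
  linarith

theorem fe3b (P : ℕ) (hP : 1 ≤ P) (θ : ℝ) (h0 : 0 < θ) (h1 : θ ≤ 1 / 2) :
    Fj P θ ≤ 1 / (16 * P * θ ^ 2) := by
  have hP0 : (0 : ℝ) < P := by exact_mod_cast hP
  have h2 := fe3_low θ h0 h1
  have h3 : ‖ee θ - 1‖ * ‖∑ a ∈ range (4 * P), ee (θ * (a : ℝ))‖ ≤ 2 := by
    rw [← norm_mul, fe3_geo]
    refine (norm_sub_le _ _).trans ?_
    rw [norm_ee, norm_one]
    norm_num
  unfold Fj
  set s := ‖∑ a ∈ range (4 * P), ee (θ * (a : ℝ))‖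
  have hs : 0 ≤ s := norm_nonneg _
  have h4 : 2 * θ * s ≤ 1 := by nlinarith
  have h5 : (2 * θ * s) ^ 2 ≤ 1 := pow_le_one₀ (by positivity) h4
  rw [div_le_div_iff₀ (by positivity) (by positivity)]
  nlinarith

end Pool.Agent.LibSX15
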