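import Pool.Agent.LibEX15.EXDefs

/-! ROW [EX FE4] (only Mathlib + definitions). Window sums. `β t = ∑_{i : y i ≤ t < y i + Q} z i`.
(a) `(∑_{0≤r<Q} ee(θ r)) * ∑ z_i ee(θ y_i) = ∑_t β_t ee(θ t)` (the support of β is in `[A, A+X)`), and `|∑_{r<Q} ee(θ r)|² ≥ Q²/3` for `|θ| ≤ 1/(2Q)`:
`|sin(πQθ)| ≥ 2Q|θ|` (as `|Qθ| ≤ 1/2`), `|sin(πθ)| ≤ π|θ|`, so the modulus is `≥ 2Q/π`, `4/π² ≥ 1/3` (θ = 0: modulus Q).
(b) `∑_t β_t² = ∑_{i,j} z_i z_j #{t : both windows contain t} ≤ ∑_{|y_i-y_j|<Q} z_i z_j Q`. -/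

set_option autoImplicit false

namespace Pool.Agent.LibSX15

open Finset

private theorem fe4_sum (c : ℝ) (Q : ℕ) : ∑ r ∈ range Q, ((r : ℝ) - c) ^ 2 =
    Q * (Q - 1) * (2 * Q - 1) / 6 - c * (Q * (Q - 1)) + Q * c ^ 2 := by
  induction Q with
  | zero => simp
  | succ Q ih =>
    rw [sum_range_succ, ih]
    push_cast
    ring

private theorem fe4_re (x : ℝ) : (ee x).re = Real.cos (2 * Real.pi * x) := by
  unfold ee
  rw [Complex.exp_ofReal_mul_I_re]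

private theorem fe4_pi : Real.pi ^ 2 ≤ 10 := by
  have h1 := Real.pi_lt_d2
  have h2 := Real.pi_pos
  nlinarith

/-- The Dirichlet kernel near zero. -/
private theorem fe4_dir (Q : ℕ) (hQ : 1 ≤ Q) (θ : ℝ) (hθ : |θ| ≤ 1 / (2 * Q)) :
    (Q : ℝ) ^ 2 ≤ 3 * ‖∑ r ∈ range Q, ee (θ * (r : ℝ))‖ ^ 2 := by
  have hQ0 : (0 : ℝ) < Q := by exact_mod_cast hQ
  have hQ1 : (1 : ℝ) ≤ Q := by exact_mod_cast hQ
  set c : ℝ := ((Q : ℝ) - 1) / 2 with hc
  have h1 : ∑ r ∈ range Q, Real.cos (2 * Real.pi * (θ * ((r : ℝ) - c))) ≤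
      ‖∑ r ∈ range Q, ee (θ * (r : ℝ))‖ := by
    calc ∑ r ∈ range Q, Real.cos (2 * Real.pi * (θ * ((r : ℝ) - c))) =
        (ee (-(θ * c)) * ∑ r ∈ range Q, ee (θ * (r : ℝ))).re := by
          rw [mul_sum, Complex.re_sum]
          refine sum_congr rfl fun r _ => ?_
          rw [← ee_add, fe4_re]
          congr 1
          ring
      _ ≤ ‖ee (-(θ * c)) * ∑ r ∈ range Q, ee (θ * (r : ℝ))‖ := Complex.re_le_norm _
      _ = _ := by rw [norm_mul, norm_ee, one_mul]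
  have h2 : (Q : ℝ) - 2 * Real.pi ^ 2 * θ ^ 2 * (∑ r ∈ range Q, ((r : ℝ) - c) ^ 2) ≤
      ∑ r ∈ range Q, Real.cos (2 * Real.pi * (θ * ((r : ℝ) - c))) := by
    have e1 : (Q : ℝ) = ∑ _r ∈ range Q, (1 : ℝ) := by simp
    rw [mul_sum]
    nth_rewrite 1 [e1]
    rw [← sum_sub_distrib]
    refine sum_le_sum fun r _ => ?_
    refine le_trans (le_of_eq ?_) (Real.one_sub_sq_div_two_le_cos)
    ring
  have h3 : ∑ r ∈ range Q, ((r : ℝ) - c) ^ 2 ≤ (Q : ℝ) ^ 3 / 12 := by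
    rw [fe4_sum, hc]
    nlinarith
  have h3' : 0 ≤ ∑ r ∈ range Q, ((r : ℝ) - c) ^ 2 := sum_nonneg fun r _ => sq_nonneg _
  have h4 : θ ^ 2 * (Q : ℝ) ^ 2 ≤ 1 / 4 := by
    have e1 : |θ| * Q ≤ 1 / 2 := by
      calc |θ| * Q ≤ 1 / (2 * Q) * Q := mul_le_mul_of_nonneg_right hθ hQ0.le
        _ = 1 / 2 := by field_simp
    have e2 : 0 ≤ |θ| * Q := mul_nonneg (abs_nonneg _) hQ0.le
    calc θ ^ 2 * (Q : ℝ) ^ 2 = (|θ| * Q) ^ 2 := by rw [mul_pow, sq_abs]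
      _ ≤ (1 / 2) ^ 2 := pow_le_pow_left₀ e2 e1 2
      _ = 1 / 4 := by norm_num
  have h5 : 2 * Real.pi ^ 2 * θ ^ 2 * (∑ r ∈ range Q, ((r : ℝ) - c) ^ 2) ≤ 5 / 12 * Q := by
    calc 2 * Real.pi ^ 2 * θ ^ 2 * (∑ r ∈ range Q, ((r : ℝ) - c) ^ 2) ≤
        2 * 10 * θ ^ 2 * ((Q : ℝ) ^ 3 / 12) := by
          gcongr
          exact fe4_pi
      _ = 20 / 12 * (θ ^ 2 * (Q : ℝ) ^ 2) * Q := by ring
      _ ≤ 20 / 12 * (1 / 4) * Q := by gcongr
      _ = 5 / 12 * Q := by ring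
  have h6 : 7 / 12 * (Q : ℝ) ≤ ‖∑ r ∈ range Q, ee (θ * (r : ℝ))‖ := by linarith
  have h7 : (7 / 12 * (Q : ℝ)) ^ 2 ≤ ‖∑ r ∈ range Q, ee (θ * (r : ℝ))‖ ^ 2 :=
    pow_le_pow_left₀ (by positivity) h6 2
  nlinarith

/-- The sum over one window. -/
private theorem fe4_win (y : ℤ) (Q X : ℕ) (A : ℤ) (h1 : A ≤ y) (h2 : y + Q ≤ A + X) (θ : ℝ) :
    ∑ t ∈ Finset.Ico A (A + X), (if y ≤ t ∧ t < y + Q then ee (θ * t) else 0) =
      ∑ r ∈ range Q, ee (θ * (y + (r : ℝ))) := by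
  rw [← sum_filter]
  refine (sum_bij (fun (r : ℕ) _ => y + (r : ℤ)) ?_ ?_ ?_ ?_).symm
  · intro r hr
    rw [mem_range] at hr
    rw [mem_filter, mem_Ico]
    omega
  · intro r _ r' _ h
    omega
  · intro t ht
    rw [mem_filter, mem_Ico] at ht
    refine ⟨(t - y).toNat, ?_, ?_⟩
    · rw [mem_range]
      omega
    · omega
  · intro r _
    congr 2
    push_cast
    ring

theorem fe4a {ι : Type*} (I : Finset ι) (z : ι → ℝ) (y : ι → ℤ) (Q X : ℕ) (A : ℤ) (hQ : 1 ≤ Q)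
    (hy : ∀ i ∈ I, A ≤ y i ∧ y i + Q ≤ A + X) (θ : ℝ) (hθ : |θ| ≤ 1 / (2 * Q)) :
    (Q : ℝ) ^ 2 * ‖∑ i ∈ I, (z i : ℂ) * ee (θ * y i)‖ ^ 2 ≤
      3 * ‖∑ t ∈ Finset.Ico A (A + X),
        ((∑ i ∈ I, if y i ≤ t ∧ t < y i + Q then z i else 0 : ℝ) : ℂ) * ee (θ * t)‖ ^ 2 := by
  have h1 : ∑ t ∈ Finset.Ico A (A + X),
      ((∑ i ∈ I, if y i ≤ t ∧ t < y i + Q then z i else 0 : ℝ) : ℂ) * ee (θ * t) =
      (∑ r ∈ range Q, ee (θ * (r : ℝ))) * ∑ i ∈ I, (z i : ℂ) * ee (θ * y i) := by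
    calc ∑ t ∈ Finset.Ico A (A + X),
        ((∑ i ∈ I, if y i ≤ t ∧ t < y i + Q then z i else 0 : ℝ) : ℂ) * ee (θ * t) =
        ∑ t ∈ Finset.Ico A (A + X), ∑ i ∈ I,
          (z i : ℂ) * (if y i ≤ t ∧ t < y i + Q then ee (θ * t) else 0) := by
          refine sum_congr rfl fun t _ => ?_
          rw [Complex.ofReal_sum, sum_mul]
          refine sum_congr rfl fun i _ => ?_
          split_ifs
          · rfl
          · rw [Complex.ofReal_zero, zero_mul, mul_zero]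
      _ = ∑ i ∈ I, (z i : ℂ) * ∑ t ∈ Finset.Ico A (A + X),
          (if y i ≤ t ∧ t < y i + Q then ee (θ * t) else 0) := by
          rw [sum_comm]
          refine sum_congr rfl fun i _ => ?_
          rw [mul_sum]
      _ = ∑ i ∈ I, (z i : ℂ) * ∑ r ∈ range Q, ee (θ * (y i + (r : ℝ))) := by
          refine sum_congr rfl fun i hi => ?_
          rw [fe4_win (y i) Q X A (hy i hi).1 (hy i hi).2 θ]
      _ = _ := by
          rw [mul_sum]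
          refine sum_congr rfl fun i _ => ?_
          rw [mul_sum, sum_mul]
          refine sum_congr rfl fun r _ => ?_
          rw [mul_add, ee_add]
          ring
  have h2 := fe4_dir Q hQ θ hθ
  rw [h1, norm_mul, mul_pow]
  have h3 : 0 ≤ ‖∑ i ∈ I, (z i : ℂ) * ee (θ * y i)‖ ^ 2 := sq_nonneg _
  calc (Q : ℝ) ^ 2 * ‖∑ i ∈ I, (z i : ℂ) * ee (θ * y i)‖ ^ 2 ≤
      (3 * ‖∑ r ∈ range Q, ee (θ * (r : ℝ))‖ ^ 2) * ‖∑ i ∈ I, (z i : ℂ) * ee (θ * y i)‖ ^ 2 :=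
        mul_le_mul_of_nonneg_right h2 h3
    _ = _ := by ring

theorem fe4b {ι : Type*} (I : Finset ι) (z : ι → ℝ) (y : ι → ℤ) (Q X : ℕ) (A : ℤ) (hQ : 1 ≤ Q)
    (hz : ∀ i ∈ I, 0 ≤ z i) :
    ∑ t ∈ Finset.Ico A (A + X), (∑ i ∈ I, if y i ≤ t ∧ t < y i + Q then z i else 0 : ℝ) ^ 2 ≤
      Q * Qe I z y Q := by
  have e1 : ∑ t ∈ Finset.Ico A (A + X),
      (∑ i ∈ I, if y i ≤ t ∧ t < y i + Q then z i else 0 : ℝ) ^ 2 =
      ∑ i ∈ I, ∑ j ∈ I, ∑ t ∈ Finset.Ico A (A + X),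
        (if y i ≤ t ∧ t < y i + Q then z i else 0) *
          (if y j ≤ t ∧ t < y j + Q then z j else 0) := by
    calc ∑ t ∈ Finset.Ico A (A + X),
        (∑ i ∈ I, if y i ≤ t ∧ t < y i + Q then z i else 0 : ℝ) ^ 2 =
        ∑ t ∈ Finset.Ico A (A + X), ∑ i ∈ I, ∑ j ∈ I,
          (if y i ≤ t ∧ t < y i + Q then z i else 0) *
            (if y j ≤ t ∧ t < y j + Q then z j else 0) := by
          refine sum_congr rfl fun t _ => ?_
          rw [sq, sum_mul_sum]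
      _ = _ := by
          rw [sum_comm]
          refine sum_congr rfl fun i _ => ?_
          rw [sum_comm]
  rw [e1, Qe, mul_sum]
  refine sum_le_sum fun i hi => ?_
  rw [mul_sum]
  refine sum_le_sum fun j hj => ?_
  have hzi := hz i hi
  have hzj := hz j hj
  by_cases hij : |y i - y j| < (Q : ℤ)
  · rw [if_pos hij]
    have h1 : ∀ t ∈ Finset.Ico A (A + X), (if y i ≤ t ∧ t < y i + Q then z i else 0) *
        (if y j ≤ t ∧ t < y j + Q then z j else 0) ≤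
        (if y i ≤ t ∧ t < y i + Q then 1 else 0) * (z i * z j) := by
      intro t _
      split_ifs
      · rw [one_mul]
      · rw [mul_zero, one_mul]
        exact mul_nonneg hzi hzj
      · rw [zero_mul, zero_mul]
      · rw [zero_mul, zero_mul]
    refine (sum_le_sum h1).trans ?_
    rw [← sum_mul]
    refine mul_le_mul_of_nonneg_right ?_ (mul_nonneg hzi hzj)
    rw [← sum_filter, sum_const, nsmul_eq_mul, mul_one]
    have h2 : ((Finset.Ico A (A + X)).filter fun t => y i ≤ t ∧ t < y i + Q).card ≤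
        (Finset.Ico (y i) (y i + Q)).card := by
      refine card_le_card fun t ht => ?_
      rw [mem_filter] at ht
      exact mem_Ico.2 ht.2
    rw [Int.card_Ico] at h2
    have h3 : (y i + (Q : ℤ) - y i).toNat = Q := by omega
    rw [h3] at h2
    exact_mod_cast h2
  · rw [if_neg hij, mul_zero]
    refine le_of_eq (sum_eq_zero fun t _ => ?_)
    by_cases h1 : y i ≤ t ∧ t < y i + Q
    · by_cases h2 : y j ≤ t ∧ t < y j + Q
      · exfalso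
        apply hij
        rw [abs_lt]
        omega
      · rw [if_neg h2, mul_zero]
    · rw [if_neg h1, zero_mul]

end Pool.Agent.LibSX15
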