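import Pool.Agent.LibEX15.FE2
import Pool.Agent.LibEX15.FE4
import Pool.Agent.LibLargeSieve.Basic

/-! ROW [EX FE5] (uses fe2, fe4a, fe4b as stated, and `large_sieve` of LibLargeSieve/Basic). Large sieve over the pairs with `0 ≤ θ < x2`.
PLAN. For `p = (n, n') ∈ prs S ξ 0 x2` put `θ_p = ξ n' - ξ n ∈ (0, x2) ⊂ (0, 1/2]` (by `r0`, `r1` also `≤ 1/4`). By fe4a,
`Q² ‖∑ z ee(θ_p y)‖² ≤ 3 ‖∑_t β_t ee(θ_p t)‖²`.  Large sieve (`H := X`, points `(θ_p : UnitAddCircle)`, interval `Ico A (A+X)`):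
`∑_p ‖∑_t β_t ee(θ_p t)‖² ≤ 9 R X ∑ β_t² ≤ 9 R X Q Qe` (fe4b), `R` = bound for the number of `q` with `‖θ_q - θ_p‖ < 1/X`. As all `θ ∈ [0, 1/4]` the distance on
the circle is `|θ_q - θ_p|`, so `θ_q ∈ [x, x+δ)`, `x = θ_p - 1/X`, `δ = 2/X ≤ 1/(80N)`: fe2 gives `R ≤ 80 (x2 + 1/X) N + 256000 N²/X` (`|x| ≤ x2 + 1/X`).
(`R` natural: take the floor; `80 N/X ≤ 1`.)  Total constant: `27 * 256001 ≤ 10^7`. -/

set_option autoImplicit false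

namespace Pool.Agent.LibSX15

open Finset

private theorem fe5_ee (θ : ℝ) (n : ℤ) :
    LSieve.e (n • (θ : UnitAddCircle)) = ee (θ * n) := by
  have h1 : n • (θ : UnitAddCircle) = ((θ * n : ℝ) : UnitAddCircle) := by
    rw [← AddCircle.coe_zsmul, zsmul_eq_mul, mul_comm]
  rw [h1, LSieve.e_coe]
  unfold ee
  congr 1
  push_cast
  ring

theorem fe5 {ι : Type*} (N : ℝ) (S : Finset ℕ) (ξ : ℕ → ℝ) (hN : 1 ≤ N) (hS : Spc N S ξ)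
    (I : Finset ι) (z : ι → ℝ) (y : ι → ℤ) (Q X : ℕ) (A : ℤ) (x2 : ℝ) (hQ : 1 ≤ Q)
    (hz : ∀ i ∈ I, 0 ≤ z i) (hy : ∀ i ∈ I, A ≤ y i ∧ y i + Q ≤ A + X) (hX : 320 * N ≤ X)
    (hx0 : 0 < x2) (hx2 : x2 ≤ 1 / (2 * Q)) :
    ∑ p ∈ prs S ξ 0 x2, ‖∑ i ∈ I, (z i : ℂ) * ee ((ξ p.2 - ξ p.1) * y i)‖ ^ 2 ≤
      10 ^ 7 * (1 + x2 * N + N ^ 2 / X) * (X / Q) * Qe I z y Q := by
  classical
  have hX0 : (0 : ℝ) < X := by linarith
  have hXn : 0 < X := by exact_mod_cast hX0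
  have hQ0 : (0 : ℝ) < Q := by exact_mod_cast hQ
  have hN0 : 0 < N := by linarith
  have hθ : ∀ p ∈ prs S ξ 0 x2, 0 ≤ ξ p.2 - ξ p.1 ∧ ξ p.2 - ξ p.1 < x2 ∧
      ξ p.2 - ξ p.1 ≤ 1 / 4 ∧ p.1 ∈ S ∧ p.2 ∈ S ∧ p.1 < p.2 := by
    intro p hp
    unfold prs at hp
    rw [mem_filter, mem_product] at hp
    obtain ⟨⟨h1, h2⟩, h3, h4, h5⟩ := hp
    have h6 := hS.r0 p.1 h1
    have h7 := hS.r1 p.2 h2
    exact ⟨h4, h5, by linarith, h1, h2, h3⟩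
  set β : ℤ → ℝ := fun t => ∑ i ∈ I, if y i ≤ t ∧ t < y i + Q then z i else 0 with hβ
  set R0 : ℝ := 80 * (x2 + 1 / X) * N + 128000 * (2 / X) * N ^ 2 with hR0
  have hR00 : 0 ≤ R0 := by positivity
  -- the multiplicity
  have hR : ∀ p ∈ prs S ξ 0 x2, #{q ∈ prs S ξ 0 x2 |
      ‖((ξ q.2 - ξ q.1 : ℝ) : UnitAddCircle) - ((ξ p.2 - ξ p.1 : ℝ) : UnitAddCircle)‖ <
        1 / (X : ℝ)} ≤ ⌊R0⌋₊ := by
    intro p hp
    obtain ⟨hp1, hp2, hp3, -⟩ := hθ p hp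
    apply Nat.le_floor
    have hδ : (2 : ℝ) / X ≤ 1 / (80 * N) := by
      rw [div_le_div_iff₀ hX0 (by positivity)]
      linarith
    have h1 := fe2 N S ξ hN hS (ξ p.2 - ξ p.1 - 1 / X) (2 / X) (by positivity) hδ
    have h2 : {q ∈ prs S ξ 0 x2 |
      ‖((ξ q.2 - ξ q.1 : ℝ) : UnitAddCircle) - ((ξ p.2 - ξ p.1 : ℝ) : UnitAddCircle)‖ <
        1 / (X : ℝ)} ⊆ prs S ξ (ξ p.2 - ξ p.1 - 1 / X) (ξ p.2 - ξ p.1 - 1 / X + 2 / X) := by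
      intro q hq
      rw [mem_filter] at hq
      obtain ⟨hq1, hq2⟩ := hq
      obtain ⟨g1, g2, g3, g4, g5, g6⟩ := hθ q hq1
      have h3 : |(ξ q.2 - ξ q.1) - (ξ p.2 - ξ p.1)| ≤ 1 / 4 := by
        rw [abs_le]
        constructor <;> linarith
      have h4 : ‖((ξ q.2 - ξ q.1 : ℝ) : UnitAddCircle) - ((ξ p.2 - ξ p.1 : ℝ) : UnitAddCircle)‖ =
          |(ξ q.2 - ξ q.1) - (ξ p.2 - ξ p.1)| := by
        rw [← AddCircle.coe_sub]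
        refine (AddCircle.norm_coe_eq_abs_iff (1 : ℝ) one_ne_zero).2 ?_
        rw [abs_one]
        linarith
      rw [h4, abs_lt] at hq2
      unfold prs
      rw [mem_filter, mem_product]
      refine ⟨⟨g4, g5⟩, g6, by linarith [hq2.1], ?_⟩
      have : (2 : ℝ) / X = 1 / X + 1 / X := by ring
      rw [this]
      linarith [hq2.2]
    have h3 : (#{q ∈ prs S ξ 0 x2 |
      ‖((ξ q.2 - ξ q.1 : ℝ) : UnitAddCircle) - ((ξ p.2 - ξ p.1 : ℝ) : UnitAddCircle)‖ <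
        1 / (X : ℝ)} : ℝ) ≤ ((prs S ξ (ξ p.2 - ξ p.1 - 1 / X)
          (ξ p.2 - ξ p.1 - 1 / X + 2 / X)).card : ℝ) := by
      exact_mod_cast card_le_card h2
    have h4 : |ξ p.2 - ξ p.1 - 1 / X| ≤ x2 + 1 / X := by
      have h5 : (0 : ℝ) < 1 / X := by positivity
      rw [abs_le]
      constructor <;> linarith
    refine h3.trans (h1.trans ?_)
    rw [hR0]
    have h5 : 80 * |ξ p.2 - ξ p.1 - 1 / X| * N ≤ 80 * (x2 + 1 / X) * N := by gcongr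
    linarith
  have hls := LSieve.large_sieve (prs S ξ 0 x2)
    (fun p => ((ξ p.2 - ξ p.1 : ℝ) : UnitAddCircle)) X ⌊R0⌋₊ hXn hR A (Ico A (A + X))
    (Subset.refl _) (fun t => (β t : ℂ))
  have hexp : ∀ p : ℕ × ℕ, LSieve.expSum (Ico A (A + X)) (fun t => (β t : ℂ))
      ((ξ p.2 - ξ p.1 : ℝ) : UnitAddCircle) =
      ∑ t ∈ Ico A (A + X), (β t : ℂ) * ee ((ξ p.2 - ξ p.1) * t) := by
    intro p
    unfold LSieve.expSum
    refine sum_congr rfl fun t _ => ?_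
    rw [fe5_ee]
  simp only [hexp] at hls
  have hb : ∑ t ∈ Ico A (A + X), ‖(β t : ℂ)‖ ^ 2 ≤ Q * Qe I z y Q := by
    refine le_trans (le_of_eq ?_) (fe4b I z y Q X A hQ hz)
    refine sum_congr rfl fun t _ => ?_
    rw [Complex.norm_real, Real.norm_eq_abs, sq_abs]
  have hQe : 0 ≤ Qe I z y Q := Qe_nonneg I z y Q hz
  have hfl : ((⌊R0⌋₊ : ℕ) : ℝ) ≤ R0 := Nat.floor_le hR00
  have hmain : (Q : ℝ) ^ 2 * ∑ p ∈ prs S ξ 0 x2,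
      ‖∑ i ∈ I, (z i : ℂ) * ee ((ξ p.2 - ξ p.1) * y i)‖ ^ 2 ≤
      3 * (9 * R0 * X * (Q * Qe I z y Q)) := by
    calc (Q : ℝ) ^ 2 * ∑ p ∈ prs S ξ 0 x2,
          ‖∑ i ∈ I, (z i : ℂ) * ee ((ξ p.2 - ξ p.1) * y i)‖ ^ 2
        = ∑ p ∈ prs S ξ 0 x2, (Q : ℝ) ^ 2 *
            ‖∑ i ∈ I, (z i : ℂ) * ee ((ξ p.2 - ξ p.1) * y i)‖ ^ 2 := mul_sum _ _ _
      _ ≤ ∑ p ∈ prs S ξ 0 x2, 3 *
            ‖∑ t ∈ Ico A (A + X), (β t : ℂ) * ee ((ξ p.2 - ξ p.1) * t)‖ ^ 2 := by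
          refine sum_le_sum fun p hp => ?_
          obtain ⟨hp1, hp2, -⟩ := hθ p hp
          refine fe4a I z y Q X A hQ hy _ ?_
          rw [abs_of_nonneg hp1]
          linarith
      _ = 3 * ∑ p ∈ prs S ξ 0 x2,
            ‖∑ t ∈ Ico A (A + X), (β t : ℂ) * ee ((ξ p.2 - ξ p.1) * t)‖ ^ 2 := (mul_sum _ _ _).symm
      _ ≤ 3 * (9 * (⌊R0⌋₊ : ℕ) * X * ∑ t ∈ Ico A (A + X), ‖(β t : ℂ)‖ ^ 2) :=
          mul_le_mul_of_nonneg_left hls (by norm_num)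
      _ ≤ 3 * (9 * R0 * X * (Q * Qe I z y Q)) := by
          have h1 : 0 ≤ ∑ t ∈ Ico A (A + X), ‖(β t : ℂ)‖ ^ 2 := sum_nonneg fun _ _ => by positivity
          refine mul_le_mul_of_nonneg_left ?_ (by norm_num)
          refine mul_le_mul ?_ hb h1 (by positivity)
          gcongr
  have hR0le : R0 ≤ 256001 * (1 + x2 * N + N ^ 2 / X) := by
    have h1 : N / X ≤ 1 / 320 := by
      rw [div_le_div_iff₀ hX0 (by norm_num)]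
      linarith
    have h2 : 0 ≤ x2 * N := by positivity
    have h3 : 0 ≤ N ^ 2 / X := by positivity
    have e1 : R0 = 80 * (x2 * N) + 80 * (N / X) + 256000 * (N ^ 2 / X) := by
      rw [hR0]
      ring
    rw [e1]
    nlinarith
  have hfin : (Q : ℝ) ^ 2 * ∑ p ∈ prs S ξ 0 x2,
      ‖∑ i ∈ I, (z i : ℂ) * ee ((ξ p.2 - ξ p.1) * y i)‖ ^ 2 ≤
      (Q : ℝ) ^ 2 * (10 ^ 7 * (1 + x2 * N + N ^ 2 / X) * (X / Q) * Qe I z y Q) := by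
    refine hmain.trans ?_
    have e1 : (Q : ℝ) ^ 2 * (10 ^ 7 * (1 + x2 * N + N ^ 2 / X) * (X / Q) * Qe I z y Q) =
        (10 ^ 7 * (1 + x2 * N + N ^ 2 / X)) * (X * (Q * Qe I z y Q)) := by
      field_simp
    have e2 : 3 * (9 * R0 * X * (Q * Qe I z y Q)) = (27 * R0) * (X * (Q * Qe I z y Q)) := by ring
    rw [e1, e2]
    refine mul_le_mul_of_nonneg_right ?_ (by positivity)
    have h2 : 0 ≤ 1 + x2 * N + N ^ 2 / X := by positivity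
    nlinarith
  exact le_of_mul_le_mul_left hfin (by positivity)

end Pool.Agent.LibSX15
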