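import Pool.Agent.LibEX15.FE3
import Pool.Agent.LibEX15.FE5

/-! ROW [EX FE6] (uses fe3, fe3b, fe5 as stated). Sum over the dyadic shells.
PLAN. Let `R0 = Nat.log 2 P + 2` (so `2^R0 ≥ 2P`, and `R0 ≤ 4 (1 + log P)`).  Every pair `n < n'` has `θ = ξ n' - ξ n ∈ (0, 1/4]` (`lo`, `r0`, `r1`), hence is in the shell
`r = 0`: `θ < 1/P`, or in a shell `1 ≤ r ≤ R0`: `2^(r-1)/P ≤ θ < 2^r/P`.  For the shell `r` put `Q_r = max 1 ⌊P/2^(r+1)⌋` (Nat division), `x_r = min (2^r/P) (1/2)`: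
`x_r ≤ 1/(2 Q_r)`, `1/Q_r ≤ 2^(r+2)/P`, `Q_r ≤ P` (so `Qe .. Q_r ≤ Qe .. P`, terms are `≥ 0`; and `y i + Q_r ≤ A + X`).
On the shell `r ≥ 1`: `Fj P θ ≤ 1/(16Pθ²) ≤ P 4^(-r)` (fe3b), on the shell 0: `Fj ≤ 4P` (fe3).  The shell is contained in `prs S ξ 0 x_r` (`θ ≤ 1/4 < 1/2`), so fe5:
`∑_{shell} Fj ‖..‖² ≤ 4P 4^(-r) * 10^7 (1 + 2^r N/P + N²/X) (X 2^(r+2)/P) Qe ≤ 16 * 10^7 2^(-r)(1 + 2^r N/P + N²/X) X Qe ≤ 16 * 10^7 (2 N X/P + N²) Qe` (as `P ≤ N`).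
Sum over at most `R0 + 1 ≤ 5 (1 + log P)` shells: constant `160 * 10^7 ≤ 10^10`. -/

set_option autoImplicit false

namespace Pool.Agent.LibSX15

open Finset

private theorem fe6_Qe_mono {ι : Type*} (I : Finset ι) (z : ι → ℝ) (y : ι → ℤ) {Q P : ℕ}
    (hz : ∀ i ∈ I, 0 ≤ z i) (h : Q ≤ P) : Qe I z y Q ≤ Qe I z y P := by
  unfold Qe
  refine Finset.sum_le_sum fun i hi => Finset.sum_le_sum fun j hj => ?_
  have h0 : 0 ≤ z i * z j := mul_nonneg (hz i hi) (hz j hj)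
  have hQP : (Q : ℤ) ≤ P := by exact_mod_cast h
  by_cases h1 : |y i - y j| < (Q : ℤ)
  · rw [if_pos h1, if_pos (lt_of_lt_of_le h1 hQP)]
  · rw [if_neg h1]
    split_ifs
    · exact h0
    · exact le_rfl

private theorem fe6_Qe_nonneg {ι : Type*} (I : Finset ι) (z : ι → ℝ) (y : ι → ℤ) (P : ℕ)
    (hz : ∀ i ∈ I, 0 ≤ z i) : 0 ≤ Qe I z y P := by
  unfold Qe
  refine Finset.sum_nonneg fun i hi => Finset.sum_nonneg fun j hj => ?_
  split_ifs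
  · exact mul_nonneg (hz i hi) (hz j hj)
  · exact le_rfl

/-- one shell -/
private theorem fe6_shell {ι : Type*} (N : ℝ) (S : Finset ℕ) (ξ : ℕ → ℝ) (hN : 1 ≤ N)
    (hS : Spc N S ξ) (I : Finset ι) (z : ι → ℝ) (y : ι → ℤ) (P X : ℕ) (A : ℤ) (hP : 1 ≤ P)
    (hPN : (P : ℝ) ≤ N) (hz : ∀ i ∈ I, 0 ≤ z i) (hy : ∀ i ∈ I, A ≤ y i ∧ y i + P ≤ A + X)
    (hX : 320 * N ≤ X) (r : ℕ) :
    4 * (P : ℝ) / 4 ^ r * ∑ p ∈ prs S ξ 0 (min (2 ^ r / P) (1 / 2)),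
        ‖∑ i ∈ I, (z i : ℂ) * ee ((ξ p.2 - ξ p.1) * y i)‖ ^ 2 ≤
      32 * 10 ^ 7 * (N * X / P + N ^ 2) * Qe I z y P := by
  have hP0 : (0 : ℝ) < P := by exact_mod_cast hP
  have hX0 : (0 : ℝ) < X := by linarith
  obtain ⟨Q, hQ⟩ : ∃ Q : ℕ, Q = max 1 (P / 2 ^ (r + 1)) := ⟨_, rfl⟩
  have hQ1 : 1 ≤ Q := by rw [hQ]; exact le_max_left _ _
  have hQP : Q ≤ P := by rw [hQ]; exact max_le hP (Nat.div_le_self _ _)
  have hQ0 : (0 : ℝ) < Q := by exact_mod_cast hQ1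
  have hx2 : min ((2 : ℝ) ^ r / P) (1 / 2) ≤ 1 / (2 * Q) := by
    rcases Nat.lt_or_ge (P / 2 ^ (r + 1)) 1 with h | h
    · have h1 : Q = 1 := by rw [hQ]; exact max_eq_left h.le
      rw [h1]
      refine (min_le_right _ _).trans ?_
      norm_num
    · have h1 : Q = P / 2 ^ (r + 1) := by rw [hQ]; exact max_eq_right h
      have h2 : Q * 2 ^ (r + 1) ≤ P := by rw [h1]; exact Nat.div_mul_le_self _ _
      have h3 : (Q : ℝ) * 2 ^ (r + 1) ≤ P := by exact_mod_cast h2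
      refine (min_le_left _ _).trans ?_
      rw [div_le_div_iff₀ hP0 (by positivity)]
      rw [pow_succ] at h3
      linarith
  have hQinv : (X : ℝ) / Q ≤ X * 2 ^ (r + 2) / P := by
    have h1 : P < (P / 2 ^ (r + 1) + 1) * 2 ^ (r + 1) := by
      rw [mul_comm]
      exact Nat.lt_mul_div_succ P (by positivity)
    have h2 : P / 2 ^ (r + 1) + 1 ≤ 2 * Q := by
      have h3 : P / 2 ^ (r + 1) ≤ Q := by rw [hQ]; exact le_max_right _ _
      omega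
    have h3 : P ≤ 2 * Q * 2 ^ (r + 1) := h1.le.trans (Nat.mul_le_mul_right _ h2)
    have h4 : (P : ℝ) ≤ 2 * Q * 2 ^ (r + 1) := by exact_mod_cast h3
    rw [div_le_div_iff₀ hQ0 hP0]
    have h5 : (X : ℝ) * P ≤ X * (2 * Q * 2 ^ (r + 1)) := mul_le_mul_of_nonneg_left h4 hX0.le
    calc (X : ℝ) * P ≤ X * (2 * Q * 2 ^ (r + 1)) := h5
      _ = X * 2 ^ (r + 2) * Q := by ring
  have hx0 : 0 < min ((2 : ℝ) ^ r / P) (1 / 2) := lt_min (by positivity) (by norm_num)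
  have h5 := fe5 N S ξ hN hS I z y Q X A _ hQ1 hz (fun i hi => by
    have h1 := hy i hi
    have h2 : (Q : ℤ) ≤ P := by exact_mod_cast hQP
    exact ⟨h1.1, by linarith [h1.2]⟩) hX hx0 hx2
  have hQe := fe6_Qe_mono I z y hz hQP
  have hQe0 := fe6_Qe_nonneg I z y P hz
  have hQe0' := fe6_Qe_nonneg I z y Q hz
  set x := min ((2 : ℝ) ^ r / P) (1 / 2) with hx
  set E := Qe I z y P with hE
  have h6 : 10 ^ 7 * (1 + x * N + N ^ 2 / X) * ((X : ℝ) / Q) * Qe I z y Q ≤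
      10 ^ 7 * (1 + 2 ^ r / P * N + N ^ 2 / X) * (X * 2 ^ (r + 2) / P) * E := by
    have h7 : x * N ≤ 2 ^ r / P * N :=
      mul_le_mul_of_nonneg_right (min_le_left _ _) (by linarith)
    have h8 : 0 ≤ x * N := mul_nonneg hx0.le (by linarith)
    have h9 : 0 ≤ N ^ 2 / (X : ℝ) := by positivity
    refine mul_le_mul (mul_le_mul (mul_le_mul_of_nonneg_left (by linarith) (by norm_num)) hQinv
      (by positivity) (mul_nonneg (by norm_num) (by linarith))) hQe hQe0'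
      (mul_nonneg (mul_nonneg (by norm_num) (by linarith)) (by positivity))
  have h10 : 4 * (P : ℝ) / 4 ^ r * (10 ^ 7 * (1 + 2 ^ r / P * N + N ^ 2 / X) *
      (X * 2 ^ (r + 2) / P) * E) =
      16 * 10 ^ 7 * (X / 2 ^ r + N * X / P + N ^ 2 / 2 ^ r) * E := by
    have h11 : (4 : ℝ) ^ r = 2 ^ r * 2 ^ r := by rw [← mul_pow]; norm_num
    have h12 : (2 : ℝ) ^ (r + 2) = 4 * 2 ^ r := by rw [pow_add]; ring
    rw [h11, h12]
    have h13 : (2 : ℝ) ^ r ≠ 0 := by positivity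
    generalize (2 : ℝ) ^ r = t at *
    field_simp
    ring
  have h14 : (X : ℝ) / 2 ^ r ≤ N * X / P := by
    have h15 : (1 : ℝ) ≤ 2 ^ r := one_le_pow₀ (by norm_num)
    calc (X : ℝ) / 2 ^ r ≤ X := div_le_self hX0.le h15
      _ ≤ N * X / P := by
        rw [le_div_iff₀ hP0]
        nlinarith
  have h16 : N ^ 2 / (2 : ℝ) ^ r ≤ N ^ 2 :=
    div_le_self (by positivity) (one_le_pow₀ (by norm_num))
  calc _ ≤ 4 * (P : ℝ) / 4 ^ r * (10 ^ 7 * (1 + 2 ^ r / P * N + N ^ 2 / X) *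
      (X * 2 ^ (r + 2) / P) * E) := mul_le_mul_of_nonneg_left (h5.trans h6) (by positivity)
    _ = 16 * 10 ^ 7 * (X / 2 ^ r + N * X / P + N ^ 2 / 2 ^ r) * E := h10
    _ ≤ 16 * 10 ^ 7 * (2 * (N * X / P + N ^ 2)) * E := by
        refine mul_le_mul_of_nonneg_right (mul_le_mul_of_nonneg_left ?_ (by norm_num)) hQe0
        have : 0 ≤ N ^ 2 := by positivity
        linarith
    _ = 32 * 10 ^ 7 * (N * X / P + N ^ 2) * E := by ring

private theorem fe6_log {P : ℕ} (hP : 1 ≤ P) : ((Nat.size P : ℕ) : ℝ) + 1 ≤ 2 * (1 + Real.log P) := by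
  have h1 : 0 < Nat.size P := Nat.size_pos.2 hP
  obtain ⟨m, hm⟩ : ∃ m, Nat.size P = m + 1 := ⟨Nat.size P - 1, by omega⟩
  have h2 : 2 ^ m ≤ P := Nat.lt_size.1 (by omega)
  have h3 : (2 : ℝ) ^ m ≤ P := by exact_mod_cast h2
  have h4 : (m : ℝ) * Real.log 2 ≤ Real.log P := by
    rw [← Real.log_pow]
    exact Real.log_le_log (by positivity) h3
  have h5 : (1 / 2 : ℝ) ≤ Real.log 2 := by
    have := Real.log_two_gt_d9
    linarith
  have h6 : (m : ℝ) * (1 / 2) ≤ m * Real.log 2 := mul_le_mul_of_nonneg_left h5 (Nat.cast_nonneg m)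
  rw [hm]
  push_cast
  linarith

theorem fe6 {ι : Type*} (N : ℝ) (S : Finset ℕ) (ξ : ℕ → ℝ) (hN : 1 ≤ N) (hS : Spc N S ξ)
    (I : Finset ι) (z : ι → ℝ) (y : ι → ℤ) (P X : ℕ) (A : ℤ) (hP : 1 ≤ P) (hPN : (P : ℝ) ≤ N)
    (hz : ∀ i ∈ I, 0 ≤ z i) (hy : ∀ i ∈ I, A ≤ y i ∧ y i + P ≤ A + X) (hX : 320 * N ≤ X) :
    ∑ p ∈ (S ×ˢ S).filter (fun p : ℕ × ℕ => p.1 < p.2), Fj P (ξ p.2 - ξ p.1) *
        ‖∑ i ∈ I, (z i : ℂ) * ee ((ξ p.2 - ξ p.1) * y i)‖ ^ 2 ≤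
      10 ^ 10 * (1 + Real.log P) * (N * X / P + N ^ 2) * Qe I z y P := by
  classical
  have hP0 : (0 : ℝ) < P := by exact_mod_cast hP
  have hX0 : (0 : ℝ) < X := by linarith
  have hQe0 := fe6_Qe_nonneg I z y P hz
  have hK : 0 ≤ N * X / P + N ^ 2 := by positivity
  have hθ : ∀ p ∈ (S ×ˢ S).filter (fun p : ℕ × ℕ => p.1 < p.2),
      0 < ξ p.2 - ξ p.1 ∧ ξ p.2 - ξ p.1 ≤ 1 / 4 := by
    intro p hp
    rw [Finset.mem_filter, Finset.mem_product] at hp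
    obtain ⟨⟨h1, h2⟩, h3⟩ := hp
    have h4 := hS.lo _ h1 _ h2 h3
    have h5 : (0 : ℝ) < ((p.2 : ℝ) - p.1) / (40 * N) := by
      have h6 : (p.1 : ℝ) < p.2 := by exact_mod_cast h3
      exact div_pos (by linarith) (by linarith)
    have h7 := hS.r0 _ h1
    have h8 := hS.r1 _ h2
    exact ⟨by linarith, by linarith⟩
  obtain ⟨ρ, hρ⟩ : ∃ ρ : ℕ × ℕ → ℕ, ρ = fun p => Nat.size ⌊(P : ℝ) * (ξ p.2 - ξ p.1)⌋₊ := ⟨_, rfl⟩
  have hmap : ∀ p ∈ (S ×ˢ S).filter (fun p : ℕ × ℕ => p.1 < p.2),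
      ρ p ∈ Finset.range (Nat.size P + 1) := by
    intro p hp
    rw [Finset.mem_range, Nat.lt_succ_iff, hρ]
    refine Nat.size_le_size (Nat.floor_le_of_le ?_)
    have := (hθ p hp).2
    nlinarith
  obtain ⟨T, hT⟩ : ∃ T : ℕ × ℕ → ℝ, ∀ p, ‖∑ i ∈ I, (z i : ℂ) * ee ((ξ p.2 - ξ p.1) * y i)‖ ^ 2 =
      T p := ⟨_, fun p => rfl⟩
  have hT0 : ∀ p, 0 ≤ T p := fun p => by rw [← hT]; positivity
  have hsh : ∀ r : ℕ, 4 * (P : ℝ) / 4 ^ r * ∑ p ∈ prs S ξ 0 (min (2 ^ r / P) (1 / 2)), T p ≤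
      32 * 10 ^ 7 * (N * X / P + N ^ 2) * Qe I z y P := by
    intro r
    have h1 := fe6_shell N S ξ hN hS I z y P X A hP hPN hz hy hX r
    simp only [hT] at h1
    exact h1
  simp only [hT]
  rw [← Finset.sum_fiberwise_of_maps_to hmap]
  have hshell : ∀ r ∈ Finset.range (Nat.size P + 1),
      ∑ p ∈ ((S ×ˢ S).filter (fun p : ℕ × ℕ => p.1 < p.2)).filter (fun p => ρ p = r),
        Fj P (ξ p.2 - ξ p.1) * T p ≤
      32 * 10 ^ 7 * (N * X / P + N ^ 2) * Qe I z y P := by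
    intro r _
    refine le_trans ?_ (hsh r)
    rw [Finset.mul_sum]
    have e1 : ∀ p ∈ ((S ×ˢ S).filter (fun p : ℕ × ℕ => p.1 < p.2)).filter (fun p => ρ p = r),
        Fj P (ξ p.2 - ξ p.1) * T p ≤ 4 * (P : ℝ) / 4 ^ r * T p := by
      intro p hp
      rw [Finset.mem_filter] at hp
      obtain ⟨hp, hpr⟩ := hp
      obtain ⟨h0, h1⟩ := hθ p hp
      refine mul_le_mul_of_nonneg_right ?_ (hT0 p)
      rcases Nat.eq_zero_or_pos r with hr | hr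
      · rw [hr, pow_zero, div_one]
        exact fe3 P hP _
      · obtain ⟨m, hm⟩ : ∃ m, r = m + 1 := ⟨r - 1, by omega⟩
        have h2 : 2 ^ m ≤ ⌊(P : ℝ) * (ξ p.2 - ξ p.1)⌋₊ := by
          refine Nat.lt_size.1 ?_
          rw [hρ] at hpr
          simp only at hpr
          omega
        have h3 : (2 : ℝ) ^ m ≤ (P : ℝ) * (ξ p.2 - ξ p.1) := by
          refine le_trans ?_ (Nat.floor_le (by positivity))
          exact_mod_cast h2
        refine (fe3b P hP _ h0 (by linarith)).trans ?_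
        have h4 : ((2 : ℝ) ^ m) ^ 2 ≤ ((P : ℝ) * (ξ p.2 - ξ p.1)) ^ 2 :=
          pow_le_pow_left₀ (by positivity) h3 2
        have h5 : (4 : ℝ) ^ r = 4 * (2 ^ m) ^ 2 := by
          rw [hm, pow_succ, ← pow_mul, mul_comm m 2, pow_mul]
          norm_num
          ring
        have h6 : 4 * (P : ℝ) / (4 * (2 ^ m) ^ 2) = P / (2 ^ m) ^ 2 := by
          rw [mul_div_mul_left _ _ (by norm_num : (4 : ℝ) ≠ 0)]
        rw [h5, h6, div_le_div_iff₀ (by positivity) (by positivity)]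
        generalize ((2 : ℝ) ^ m) ^ 2 = t at *
        have h7 : (P : ℝ) * (16 * P * (ξ p.2 - ξ p.1) ^ 2) =
            16 * (((P : ℝ) * (ξ p.2 - ξ p.1)) ^ 2) := by ring
        rw [h7]
        have h8 : 0 ≤ ((P : ℝ) * (ξ p.2 - ξ p.1)) ^ 2 := by positivity
        linarith
    have e2 : ((S ×ˢ S).filter (fun p : ℕ × ℕ => p.1 < p.2)).filter (fun p => ρ p = r) ⊆
        prs S ξ 0 (min (2 ^ r / P) (1 / 2)) := by
      intro p hp
      rw [Finset.mem_filter] at hp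
      obtain ⟨hp, hpr⟩ := hp
      obtain ⟨h0, h1⟩ := hθ p hp
      rw [Finset.mem_filter, Finset.mem_product] at hp
      unfold prs
      rw [Finset.mem_filter, Finset.mem_product]
      refine ⟨hp.1, hp.2, h0.le, lt_min ?_ (by linarith)⟩
      rw [lt_div_iff₀ hP0, mul_comm]
      have h2 : ⌊(P : ℝ) * (ξ p.2 - ξ p.1)⌋₊ < 2 ^ r := by
        rw [← hpr, hρ]
        exact Nat.lt_size_self _
      have h3 := (Nat.floor_lt (by positivity : 0 ≤ (P : ℝ) * (ξ p.2 - ξ p.1))).1 h2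
      exact_mod_cast h3
    refine (Finset.sum_le_sum e1).trans (Finset.sum_le_sum_of_subset_of_nonneg e2 ?_)
    intro p _ _
    exact mul_nonneg (by positivity) (hT0 p)
  refine (Finset.sum_le_sum hshell).trans ?_
  rw [Finset.sum_const, Finset.card_range, nsmul_eq_mul]
  have h1 := fe6_log hP
  have h2 : 0 ≤ (N * X / P + N ^ 2) * Qe I z y P := mul_nonneg hK hQe0
  have h3 : 0 ≤ Real.log P := Real.log_nonneg (by exact_mod_cast hP)
  push_cast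
  calc ((Nat.size P : ℕ) + 1 : ℝ) * (32 * 10 ^ 7 * (N * X / P + N ^ 2) * Qe I z y P)
      = (((Nat.size P : ℕ) : ℝ) + 1) * (32 * 10 ^ 7) * ((N * X / P + N ^ 2) * Qe I z y P) := by ring
    _ ≤ (10 ^ 10 * (1 + Real.log P)) * ((N * X / P + N ^ 2) * Qe I z y P) := by
        refine mul_le_mul_of_nonneg_right ?_ h2
        nlinarith
    _ = 10 ^ 10 * (1 + Real.log P) * (N * X / P + N ^ 2) * Qe I z y P := by ring

end Pool.Agent.LibSX15
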