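import Pool.Agent.LibEX15.EXDefs
import Pool.Agent.LibSX15.LVE2c
import Pool.Agent.LibSX15.LVE3a
import Pool.Agent.LibSX15.LVC9

/-! ROW [EX FE7] (glue of `lve2_energy`, `lve3_open`, which are proved; look at the proof of `LV_energy` in LibSX15/LVC9 and copy its private lemmas
`lvc9_En`, `lvc9_mu`, `lvc9_inj`, `lvc9_div` with new names).
PLAN. Put `d' = { d with S := S, ω := fun _ => 1 }`: `d'.D a t = d.D a t` (`a n = 0` off `S ⊆ d.S`), `‖a n‖ ≤ Λ * d'.ω n`.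
`Ek P P K u = En P X v` with `X = K.image (P * ·)`, `v x = u (x / P)` (lvc9_En with L = P). `lve2_energy` (L = P, Y2 = Y², f t = ‖d'.D a t‖²) and `lve3_open` for `d'`:
`En * Y² ≤ 2 Λ² ∑_{n,n' ∈ S} 1 * 1 * Fj P (ξ n - ξ n') ‖∑_{x ∈ X} v x ee(..)‖³`; back from `X` to `K` in the inner sum. -/

set_option autoImplicit false

namespace Pool.Agent.LibSX15

open Finset

private theorem fe7_inj (L : ℕ) (hL : 1 ≤ L) : Function.Injective (fun κ : ℤ => (L : ℤ) * κ) := by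
  intro a b h
  have hL0 : (L : ℤ) ≠ 0 := by positivity
  exact mul_left_cancel₀ hL0 h

private theorem fe7_div (L : ℕ) (hL : 1 ≤ L) (κ : ℤ) : ((L : ℤ) * κ) / (L : ℤ) = κ :=
  Int.mul_ediv_cancel_left κ (by positivity)

/-- the energy of the clusters is the energy of their left ends -/
private theorem fe7_En (L P : ℕ) (hL : 1 ≤ L) (K : Finset ℤ) (u : ℤ → ℝ) :
    Ek L P K u = En P (K.image fun κ => (L : ℤ) * κ) (fun x => u (x / (L : ℤ))) := by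
  classical
  set f : ℤ → ℤ := fun κ => (L : ℤ) * κ with hf
  have hinj : Function.Injective f := fe7_inj L hL
  have hprod : (K.image f) ×ˢ (K.image f) = (K ×ˢ K).image (Prod.map f f) := by
    ext ⟨a, b⟩
    simp only [mem_product, mem_image, Prod.exists, Prod.map_apply, Prod.mk.injEq]
    constructor
    · rintro ⟨⟨c, hc, rfl⟩, ⟨e, he, rfl⟩⟩
      exact ⟨c, e, ⟨hc, he⟩, rfl, rfl⟩
    · rintro ⟨c, e, ⟨hc, he⟩, rfl, rfl⟩
      exact ⟨⟨c, hc, rfl⟩, ⟨e, he, rfl⟩⟩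
  have hinj2 : Function.Injective (Prod.map f f) := hinj.prodMap hinj
  unfold Ek En Qe
  rw [hprod, sum_image fun a _ b _ h => hinj2 h]
  refine sum_congr rfl fun p _ => ?_
  rw [sum_image fun a _ b _ h => hinj2 h]
  refine sum_congr rfl fun q _ => ?_
  simp only [Prod.map_apply', Prod.map_fst, Prod.map_snd, hf, fe7_div L hL]
  have e1 : (L : ℤ) * p.1 - (L : ℤ) * p.2 - ((L : ℤ) * q.1 - (L : ℤ) * q.2) =
      (L : ℤ) * (p.1 - p.2) - (L : ℤ) * (q.1 - q.2) := by ring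
  rw [e1]

private theorem fe7_mu (W : Finset ℤ) (L : ℕ) (hL : 1 ≤ L) (κ : ℤ) :
    (W.filter fun t => (L : ℤ) * κ ≤ t ∧ t < (L : ℤ) * κ + L).card = mu W L κ := by
  unfold mu
  congr 1
  refine filter_congr fun t _ => ?_
  have hL0 : (0 : ℤ) < L := by positivity
  constructor
  · rintro ⟨h1, h2⟩
    rw [Int.ediv_eq_iff_of_pos hL0]
    constructor <;> nlinarith
  · intro h
    rw [Int.ediv_eq_iff_of_pos hL0] at h
    constructor <;> nlinarith [h.1, h.2]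

theorem fe7 (d : Dat) (S : Finset ℕ) (Λ Y : ℝ) (a : ℕ → ℂ) (W : Finset ℤ) (hSd : S ⊆ d.S)
    (hΛ : 1 ≤ Λ) (hY : 0 < Y) (ha : ∀ n, ‖a n‖ ≤ Λ) (ha0 : ∀ n, n ∉ S → a n = 0)
    (hD : ∀ t ∈ W, Y ≤ ‖d.D a t‖) (P : ℕ) (K : Finset ℤ) (u : ℤ → ℝ) (hP : 1 ≤ P)
    (hu0 : ∀ κ ∈ K, 0 ≤ u κ) (hu : ∀ κ ∈ K, u κ ≤ mu W P κ) :
    Ek P P K u * Y ^ 2 ≤ 2 * Λ ^ 2 * ∑ n ∈ S, ∑ n' ∈ S, Fj P (d.ξ n - d.ξ n') *
      ‖∑ κ ∈ K, (u κ : ℂ) * ee ((d.ξ n - d.ξ n') * ((P * κ : ℤ) : ℝ))‖ ^ 3 := by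
  classical
  obtain ⟨d', hd'⟩ : ∃ d' : Dat, d' = { d with S := S, ω := fun _ => 1 } := ⟨_, rfl⟩
  have hdS : d'.S = S := by rw [hd']
  have hdω : d'.ω = fun _ => 1 := by rw [hd']
  have hdξ : d'.ξ = d.ξ := by rw [hd']
  have hdD : ∀ t : ℤ, d'.D a t = d.D a t := by
    intro t
    unfold Dat.D
    rw [hdS, hdξ]
    refine sum_subset hSd fun n _ hn => ?_
    rw [ha0 n hn, zero_mul]
  set X : Finset ℤ := K.image fun κ => (P : ℤ) * κ with hX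
  set v : ℤ → ℝ := fun x => u (x / (P : ℤ)) with hv
  have hinj := fe7_inj P hP
  have hvL : ∀ κ : ℤ, v ((P : ℤ) * κ) = u κ := fun κ => by rw [hv]; simp only [fe7_div P hP]
  have h2 := lve2_energy P P hP le_rfl X W v (by
      intro x hx x' hx' hne
      obtain ⟨κ, hκ, rfl⟩ := mem_image.1 hx
      obtain ⟨κ', hκ', rfl⟩ := mem_image.1 hx'
      have h1 : κ ≠ κ' := fun h => hne (by rw [h])
      have h2 : (1 : ℤ) ≤ |κ - κ'| := Int.one_le_abs (sub_ne_zero.2 h1)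
      have h3 : (P : ℤ) * κ - (P : ℤ) * κ' = P * (κ - κ') := by ring
      rw [h3, abs_mul, Nat.abs_cast]
      nlinarith [(Nat.cast_nonneg P : (0 : ℤ) ≤ P)])
    (by
      intro x hx
      obtain ⟨κ, hκ, rfl⟩ := mem_image.1 hx
      rw [hvL]
      exact hu0 κ hκ)
    (by
      intro x hx
      obtain ⟨κ, hκ, rfl⟩ := mem_image.1 hx
      rw [hvL, fe7_mu W P hP κ]
      exact hu κ hκ)
    (fun t => ‖d'.D a t‖ ^ 2) (fun t => by positivity) (Y ^ 2) (by positivity)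
    (by
      intro t ht
      rw [hdD]
      exact pow_le_pow_left₀ hY.le (hD t ht) 2)
  have h3 := lve3_open d' Λ (by linarith) a (fun n => by rw [hdω]; norm_num)
    (fun n => by rw [hdω, mul_one]; exact ha n) P hP X v
  rw [fe7_En P P hP K u]
  refine h2.trans ?_
  have h4 : Λ ^ 2 * ∑ n ∈ d'.S, ∑ n' ∈ d'.S, d'.ω n * d'.ω n' * Fj P (d'.ξ n - d'.ξ n') *
        ‖∑ x ∈ X, (v x : ℂ) * ee ((d'.ξ n - d'.ξ n') * x)‖ ^ 3 =
      Λ ^ 2 * ∑ n ∈ S, ∑ n' ∈ S, Fj P (d.ξ n - d.ξ n') *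
      ‖∑ κ ∈ K, (u κ : ℂ) * ee ((d.ξ n - d.ξ n') * ((P * κ : ℤ) : ℝ))‖ ^ 3 := by
    rw [hdS, hdω, hdξ]
    congr 1
    refine sum_congr rfl fun n _ => sum_congr rfl fun n' _ => ?_
    rw [one_mul, one_mul, hX, sum_image fun a _ b _ h => hinj h]
    congr 3
    refine sum_congr rfl fun κ _ => ?_
    rw [hvL]
  rw [h4] at h3
  linarith

end Pool.Agent.LibSX15
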