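import Pool.Agent.LibEX15.FE3
import Pool.Agent.LibEX15.FE6
import Pool.Agent.LibEX15.FE7

/-! ROW [EX FE8] (uses fe3, fe6, fe7 as stated). The FLAT ENERGY BOUND.
PLAN. `f θ := ‖∑ u κ ee(θ P κ)‖` (even in θ: `u` real, `f(-θ) = f θ`, and `Fj P (-θ) = Fj P θ`).
`∑_{n,n' ∈ S} Fj f³ = ∑_{n=n'} + 2 ∑_{n<n'}`.   Diagonal: `Fj P 0 ≤ 4P` (fe3), `f 0 ≤ ∑ u`, `#S ≤ 2N`: `≤ 8 N P (∑ u)³`.
`n < n'`: Cauchy-Schwarz `∑ Fj f³ ≤ √(∑ Fj f²) √(∑ Fj f⁴)`; `f⁴ = ‖f²‖²` and `f² = ∑_{κ,κ'} u u' ee(θ P(κ-κ'))`, so fe6 applies to both families: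
`(K, u, Pκ)`: `Qe = ∑ u²` (`|P(κ-κ')| < P` iff `κ = κ'`), and `(K ×ˢ K, u u', P(κ-κ'))`: `Qe = Ek P P K u` by definition.
The values `Pκ` lie in an interval of length `A P N` (A0 = the smallest), those of the second family in an interval of length `2 A P N`:
`X = ⌈2 A P N⌉₊ + P + 320 ⌈N⌉₊ + 1`: `N X/P + N² ≤ 2000 A N²`.   So with `E = Ek P P K u`, `s = ∑ u`, `q = ∑ u²`, `ℓ = 1 + log P`:
`E Y² ≤ 2Λ² (8 N P s³ + C ℓ N² √q √E)`; divide by `Y²` (`H = Λ² N²/Y²`): `E ≤ 16 (H P/N) s³ + 2 C ℓ H √q √E`, and `E ≤ a + b √E` implies `E ≤ 2a + b²`.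
(K empty: trivial.) -/

set_option autoImplicit false

namespace Pool.Agent.LibSX15

open Finset

/-- the exponential sum of the weight -/
private noncomputable def fe8_f (P : ℕ) (K : Finset ℤ) (u : ℤ → ℝ) (θ : ℝ) : ℝ :=
  ‖∑ κ ∈ K, (u κ : ℂ) * ee (θ * ((P * κ : ℤ) : ℝ))‖

private theorem fe8_conj (x : ℝ) : (starRingEnd ℂ) (ee x) = ee (-x) := (ee_neg x).symm

private theorem fe8_f_neg (P : ℕ) (K : Finset ℤ) (u : ℤ → ℝ) (θ : ℝ) :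
    fe8_f P K u (-θ) = fe8_f P K u θ := by
  unfold fe8_f
  rw [← Complex.norm_conj (∑ κ ∈ K, (u κ : ℂ) * ee (θ * ((P * κ : ℤ) : ℝ))), map_sum]
  congr 1
  refine sum_congr rfl fun κ _ => ?_
  rw [map_mul, Complex.conj_ofReal, fe8_conj, neg_mul]

private theorem fe8_Fj_neg (P : ℕ) (θ : ℝ) : Fj P (-θ) = Fj P θ := by
  unfold Fj
  rw [← Complex.norm_conj (∑ a ∈ range (4 * P), ee (θ * (a : ℝ))), map_sum]
  congr 3
  refine sum_congr rfl fun κ _ => ?_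
  rw [fe8_conj, neg_mul]

private theorem fe8_sq (P : ℕ) (K : Finset ℤ) (u : ℤ → ℝ) (θ : ℝ) :
    ‖∑ x ∈ K ×ˢ K, ((u x.1 * u x.2 : ℝ) : ℂ) * ee (θ * (((P : ℤ) * (x.1 - x.2) : ℤ) : ℝ))‖ =
      fe8_f P K u θ ^ 2 := by
  have h1 : ∑ x ∈ K ×ˢ K, ((u x.1 * u x.2 : ℝ) : ℂ) *
      ee (θ * (((P : ℤ) * (x.1 - x.2) : ℤ) : ℝ)) =
      (∑ κ ∈ K, (u κ : ℂ) * ee (θ * ((P * κ : ℤ) : ℝ))) *
        (starRingEnd ℂ) (∑ κ ∈ K, (u κ : ℂ) * ee (θ * ((P * κ : ℤ) : ℝ))) := by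
    rw [map_sum, sum_mul_sum, sum_product]
    refine sum_congr rfl fun a _ => sum_congr rfl fun b _ => ?_
    have h2 : θ * (((P : ℤ) * (a - b) : ℤ) : ℝ) =
        θ * (((P : ℤ) * a : ℤ) : ℝ) - θ * (((P : ℤ) * b : ℤ) : ℝ) := by
      push_cast
      ring
    rw [map_mul, Complex.conj_ofReal, h2, ee_sub]
    push_cast
    ring
  rw [h1, norm_mul, Complex.norm_conj]
  unfold fe8_f
  ring

private theorem fe8_f_le (P : ℕ) (K : Finset ℤ) (u : ℤ → ℝ) (hu : ∀ κ ∈ K, 0 ≤ u κ) (θ : ℝ) :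
    fe8_f P K u θ ≤ ∑ κ ∈ K, u κ := by
  unfold fe8_f
  refine (norm_sum_le _ _).trans (sum_le_sum fun κ hκ => ?_)
  rw [norm_mul, norm_ee, mul_one, Complex.norm_real, Real.norm_eq_abs, abs_of_nonneg (hu κ hκ)]

private theorem fe8_f_nonneg (P : ℕ) (K : Finset ℤ) (u : ℤ → ℝ) (θ : ℝ) : 0 ≤ fe8_f P K u θ :=
  norm_nonneg _

/-- splitting a symmetric double sum -/
private theorem fe8_split (S : Finset ℕ) (ξ : ℕ → ℝ) (g : ℝ → ℝ) (hg : ∀ θ, g (-θ) = g θ) :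
    ∑ n ∈ S, ∑ n' ∈ S, g (ξ n - ξ n') = S.card * g 0 +
      2 * ∑ p ∈ (S ×ˢ S).filter (fun p : ℕ × ℕ => p.1 < p.2), g (ξ p.2 - ξ p.1) := by
  have h0 : ∑ n ∈ S, ∑ n' ∈ S, g (ξ n - ξ n') = ∑ p ∈ S ×ˢ S, g (ξ p.1 - ξ p.2) := by
    rw [sum_product]
  have h1 : ∑ p ∈ S ×ˢ S, g (ξ p.1 - ξ p.2) =
      ∑ p ∈ S ×ˢ S, ((if p.1 < p.2 then g (ξ p.2 - ξ p.1) else 0) +
        (if p.2 < p.1 then g (ξ p.1 - ξ p.2) else 0) + (if p.1 = p.2 then g 0 else 0)) := by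
    refine sum_congr rfl fun p _ => ?_
    rcases lt_trichotomy p.1 p.2 with h | h | h
    · rw [if_pos h, if_neg (not_lt.2 h.le), if_neg h.ne, add_zero, add_zero, ← hg]
      congr 1
      ring
    · rw [if_neg (by omega), if_neg (by omega), if_pos h, h, sub_self, zero_add, zero_add]
    · rw [if_neg (by omega), if_pos h, if_neg (by omega), zero_add, add_zero]
  have h2 : ∑ p ∈ S ×ˢ S, (if p.2 < p.1 then g (ξ p.1 - ξ p.2) else 0) =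
      ∑ p ∈ S ×ˢ S, (if p.1 < p.2 then g (ξ p.2 - ξ p.1) else 0) := by
    rw [sum_product, sum_product, sum_comm]
  have h3 : ∑ p ∈ S ×ˢ S, (if p.1 = p.2 then g 0 else 0) = S.card * g 0 := by
    rw [sum_product]
    have h4 : ∀ n ∈ S, ∑ n' ∈ S, (if n = n' then g 0 else 0) = g 0 := by
      intro n hn
      rw [sum_ite_eq, if_pos hn]
    rw [sum_congr rfl h4, sum_const, nsmul_eq_mul]
  rw [h0, h1, sum_add_distrib, sum_add_distrib, h2, h3, ← sum_filter]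
  ring

/-- the energy of the first family -/
private theorem fe8_Qe (P : ℕ) (hP : 1 ≤ P) (K : Finset ℤ) (u : ℤ → ℝ) :
    Qe K u (fun κ => (P : ℤ) * κ) P = ∑ κ ∈ K, u κ ^ 2 := by
  unfold Qe
  refine sum_congr rfl fun κ hκ => ?_
  have h1 : ∀ κ' ∈ K, (if |(P : ℤ) * κ - (P : ℤ) * κ'| < (P : ℤ) then u κ * u κ' else 0) =
      if κ = κ' then u κ * u κ' else 0 := by
    intro κ' _
    by_cases h : κ = κ'
    · rw [if_pos h, if_pos]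
      rw [h, sub_self, abs_zero]
      exact_mod_cast hP
    · rw [if_neg h, if_neg]
      rw [← mul_sub, abs_mul, Nat.abs_cast, not_lt]
      have h2 : 1 ≤ |κ - κ'| := Int.one_le_abs (sub_ne_zero.2 h)
      have h3 : (0 : ℤ) ≤ P := Int.natCast_nonneg P
      nlinarith
  rw [sum_congr rfl h1, sum_ite_eq, if_pos hκ]
  ring

private theorem fe8_quad {E a b : ℝ} (hE : 0 ≤ E) (h : E ≤ a + b * Real.sqrt E) :
    E ≤ 2 * a + b ^ 2 := by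
  have h1 := Real.sq_sqrt hE
  nlinarith [sq_nonneg (b - Real.sqrt E)]

theorem fe8 (A : ℝ) (hA : 1 ≤ A) : ∃ C : ℝ, 1 ≤ C ∧ ∀ (d : Dat) (S : Finset ℕ) (Λ Y H : ℝ)
    (a : ℕ → ℂ) (W : Finset ℤ), 1 ≤ d.N → S ⊆ d.S → Spc d.N S d.ξ → 1 ≤ Λ → 0 < Y →
    (∀ n, ‖a n‖ ≤ Λ) → (∀ n, n ∉ S → a n = 0) → (∀ t ∈ W, Y ≤ ‖d.D a t‖) →
    H = Λ ^ 2 * d.N ^ 2 / Y ^ 2 → ∀ (P : ℕ) (K : Finset ℤ) (u : ℤ → ℝ), 1 ≤ P → (P : ℝ) ≤ d.N →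
    (∀ κ ∈ K, 0 ≤ u κ) → (∀ κ ∈ K, u κ ≤ mu W P κ) →
    (∀ κ ∈ K, ∀ κ' ∈ K, |((P * (κ - κ') : ℤ) : ℝ)| ≤ A * P * d.N) →
    Ek P P K u ≤ C * (1 + Real.log P) ^ 2 *
      (H ^ 2 * ∑ κ ∈ K, u κ ^ 2 + H * P / d.N * (∑ κ ∈ K, u κ) ^ 3) := by
  refine ⟨(4 * 10 ^ 10 * 646 * A) ^ 2 + 32, by nlinarith [sq_nonneg (4 * 10 ^ 10 * 646 * A)], ?_⟩
  intro d S Λ Y H a W hN hSd hS hΛ hY ha ha0 hD hH P K u hP hPN hu0 hu hK
  have hN0 : 0 < d.N := by linarith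
  have hPR : (1 : ℝ) ≤ P := by exact_mod_cast hP
  have hP0 : (0 : ℝ) < P := by linarith
  have hH0 : 0 ≤ H := by
    rw [hH]
    positivity
  have hlog : 0 ≤ Real.log P := Real.log_nonneg hPR
  rcases K.eq_empty_or_nonempty with hKe | hKne
  · subst hKe
    simp [Ek, Qe]
  obtain ⟨ℓ, hℓ⟩ : ∃ ℓ : ℝ, ℓ = 1 + Real.log P := ⟨_, rfl⟩
  have hℓ1 : 1 ≤ ℓ := by rw [hℓ]; linarith
  rw [← hℓ]
  obtain ⟨E, hE⟩ : ∃ E : ℝ, E = Ek P P K u := ⟨_, rfl⟩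
  obtain ⟨s, hs⟩ : ∃ s : ℝ, s = ∑ κ ∈ K, u κ := ⟨_, rfl⟩
  obtain ⟨q, hq⟩ : ∃ q : ℝ, q = ∑ κ ∈ K, u κ ^ 2 := ⟨_, rfl⟩
  have hE0 : 0 ≤ E := by
    rw [hE]
    refine Qe_nonneg _ _ _ _ fun x hx => ?_
    rw [mem_product] at hx
    exact mul_nonneg (hu0 _ hx.1) (hu0 _ hx.2)
  have hs0 : 0 ≤ s := by
    rw [hs]
    exact sum_nonneg hu0
  have hq0 : 0 ≤ q := by
    rw [hq]
    exact sum_nonneg fun κ _ => sq_nonneg _
  rw [← hE, ← hs, ← hq]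
  -- the length
  obtain ⟨R, hR⟩ : ∃ R : ℕ, R = ⌈A * P * d.N⌉₊ := ⟨_, rfl⟩
  have hAPN : 0 ≤ A * P * d.N := by positivity
  have hR1 : A * P * d.N ≤ R := by
    rw [hR]
    exact Nat.le_ceil _
  have hR2 : (R : ℝ) ≤ A * P * d.N + 1 := by
    rw [hR]
    exact (Nat.ceil_lt_add_one hAPN).le
  obtain ⟨X, hX⟩ : ∃ X : ℕ, X = 2 * R + P + 320 * ⌈d.N⌉₊ := ⟨_, rfl⟩
  have hX1 : 320 * d.N ≤ X := by
    rw [hX]
    push_cast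
    have h1 : d.N ≤ (⌈d.N⌉₊ : ℝ) := Nat.le_ceil _
    have h2 : (0 : ℝ) ≤ R := Nat.cast_nonneg _
    linarith
  have hX2 : (X : ℝ) ≤ 2 * (A * P * d.N + 1) + P + 320 * (d.N + 1) := by
    rw [hX]
    push_cast
    have h1 : (⌈d.N⌉₊ : ℝ) ≤ d.N + 1 := (Nat.ceil_lt_add_one hN0.le).le
    linarith
  have hB : d.N * X / P + d.N ^ 2 ≤ 646 * A * d.N ^ 2 := by
    have h1 : (X : ℝ) / P ≤ 645 * A * d.N := by
      rw [div_le_iff₀ hP0]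
      have h2 : (X : ℝ) ≤ 2 * (A * P * d.N + 1) + P + 320 * (d.N + 1) := hX2
      have h3 : 1 ≤ A * d.N := by nlinarith
      have h4 : d.N ≤ A * d.N := by nlinarith
      have h5 : A * d.N ≤ A * d.N * P := by nlinarith
      have h6 : (P : ℝ) ≤ A * d.N * P := by nlinarith
      nlinarith
    have h7 : d.N * X / P = d.N * (X / P) := by ring
    rw [h7]
    have h8 : d.N * (X / P) ≤ d.N * (645 * A * d.N) := mul_le_mul_of_nonneg_left h1 hN0.le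
    have h9 : d.N ^ 2 ≤ A * d.N ^ 2 := by nlinarith [sq_nonneg d.N]
    nlinarith
  obtain ⟨B, hBd⟩ : ∃ B : ℝ, B = 10 ^ 10 * ℓ * (646 * A * d.N ^ 2) := ⟨_, rfl⟩
  have hB0 : 0 ≤ B := by
    rw [hBd]
    positivity
  -- the two second moments
  have hKR : ∀ κ ∈ K, ∀ κ' ∈ K, |(P : ℤ) * (κ - κ')| ≤ R := by
    intro κ hκ κ' hκ'
    have h1 := (hK κ hκ κ' hκ').trans hR1
    exact_mod_cast h1
  obtain ⟨F, hF⟩ : ∃ F : Finset (ℕ × ℕ), F = (S ×ˢ S).filter (fun p : ℕ × ℕ => p.1 < p.2) :=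
    ⟨_, rfl⟩
  have hL2 : ∑ p ∈ F, Fj P (d.ξ p.2 - d.ξ p.1) * fe8_f P K u (d.ξ p.2 - d.ξ p.1) ^ 2 ≤ B * q := by
    have h1 := fe6 d.N S d.ξ hN hS K u (fun κ => (P : ℤ) * κ) P X ((P : ℤ) * K.min' hKne) hP hPN
      hu0 (fun κ hκ => by
        have h2 : K.min' hKne ≤ κ := K.min'_le κ hκ
        have h3 := (abs_le.1 (hKR κ hκ _ (K.min'_mem hKne))).2
        have h4 : (0 : ℤ) ≤ P := Int.natCast_nonneg P
        constructor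
        · exact mul_le_mul_of_nonneg_left h2 h4
        · rw [mul_sub] at h3
          have h5 : ((2 * R + P + 320 * ⌈d.N⌉₊ : ℕ) : ℤ) = X := by rw [hX]
          have h6 : ((2 * R + P + 320 * ⌈d.N⌉₊ : ℕ) : ℤ) = 2 * R + P + 320 * (⌈d.N⌉₊ : ℤ) := by
            push_cast
            ring
          have h7 : (0 : ℤ) ≤ (⌈d.N⌉₊ : ℤ) := Int.natCast_nonneg _
          have h8 : (0 : ℤ) ≤ (R : ℤ) := Int.natCast_nonneg _
          show (P : ℤ) * κ + P ≤ P * K.min' hKne + X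
          rw [← h5, h6]
          linarith) hX1
    rw [fe8_Qe P hP, ← hq, ← hℓ, ← hF] at h1
    refine h1.trans ?_
    rw [hBd]
    refine mul_le_mul_of_nonneg_right ?_ hq0
    exact mul_le_mul_of_nonneg_left hB (by positivity)
  have hL4 : ∑ p ∈ F, Fj P (d.ξ p.2 - d.ξ p.1) * fe8_f P K u (d.ξ p.2 - d.ξ p.1) ^ 4 ≤ B * E := by
    have h1 := fe6 d.N S d.ξ hN hS (K ×ˢ K) (fun x => u x.1 * u x.2)
      (fun x => (P : ℤ) * (x.1 - x.2)) P X (-(R : ℤ)) hP hPN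
      (fun x hx => by
        rw [mem_product] at hx
        exact mul_nonneg (hu0 _ hx.1) (hu0 _ hx.2)) (fun x hx => by
        rw [mem_product] at hx
        have h3 := abs_le.1 (hKR _ hx.1 _ hx.2)
        constructor
        · exact h3.1
        · have h5 : ((2 * R + P + 320 * ⌈d.N⌉₊ : ℕ) : ℤ) = X := by rw [hX]
          have h6 : ((2 * R + P + 320 * ⌈d.N⌉₊ : ℕ) : ℤ) = 2 * R + P + 320 * (⌈d.N⌉₊ : ℤ) := by
            push_cast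
            ring
          have h7 : (0 : ℤ) ≤ (⌈d.N⌉₊ : ℤ) := Int.natCast_nonneg _
          have h8 := h3.2
          show (P : ℤ) * (x.1 - x.2) + P ≤ -(R : ℤ) + X
          rw [← h5, h6]
          linarith) hX1
    rw [← hℓ, ← hF] at h1
    have h2 : Qe (K ×ˢ K) (fun x : ℤ × ℤ => u x.1 * u x.2)
        (fun x : ℤ × ℤ => (P : ℤ) * (x.1 - x.2)) P = E := by
      rw [hE]
      rfl
    rw [h2] at h1
    have h3 : ∀ p ∈ F, Fj P (d.ξ p.2 - d.ξ p.1) * fe8_f P K u (d.ξ p.2 - d.ξ p.1) ^ 4 =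
        Fj P (d.ξ p.2 - d.ξ p.1) * ‖∑ x ∈ K ×ˢ K, ((u x.1 * u x.2 : ℝ) : ℂ) *
          ee ((d.ξ p.2 - d.ξ p.1) * (((P : ℤ) * (x.1 - x.2) : ℤ) : ℝ))‖ ^ 2 := by
      intro p _
      rw [fe8_sq]
      ring
    rw [sum_congr rfl h3]
    refine h1.trans ?_
    rw [hBd]
    refine mul_le_mul_of_nonneg_right ?_ hE0
    exact mul_le_mul_of_nonneg_left hB (by positivity)
  -- Cauchy-Schwarz
  obtain ⟨L3, hL3⟩ : ∃ L3 : ℝ, L3 = ∑ p ∈ F, Fj P (d.ξ p.2 - d.ξ p.1) *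
    fe8_f P K u (d.ξ p.2 - d.ξ p.1) ^ 3 := ⟨_, rfl⟩
  have hCS : L3 ^ 2 ≤ (B * q) * (B * E) := by
    have h1 := sum_mul_sq_le_sq_mul_sq F
      (fun p => Real.sqrt (Fj P (d.ξ p.2 - d.ξ p.1)) * fe8_f P K u (d.ξ p.2 - d.ξ p.1))
      (fun p => Real.sqrt (Fj P (d.ξ p.2 - d.ξ p.1)) * fe8_f P K u (d.ξ p.2 - d.ξ p.1) ^ 2)
    have h2 : ∀ p ∈ F, (Real.sqrt (Fj P (d.ξ p.2 - d.ξ p.1)) *
        fe8_f P K u (d.ξ p.2 - d.ξ p.1)) *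
        (Real.sqrt (Fj P (d.ξ p.2 - d.ξ p.1)) * fe8_f P K u (d.ξ p.2 - d.ξ p.1) ^ 2) =
        Fj P (d.ξ p.2 - d.ξ p.1) * fe8_f P K u (d.ξ p.2 - d.ξ p.1) ^ 3 := by
      intro p _
      have h3 := Real.mul_self_sqrt (Fj_nonneg P (d.ξ p.2 - d.ξ p.1))
      calc _ = (Real.sqrt (Fj P (d.ξ p.2 - d.ξ p.1)) * Real.sqrt (Fj P (d.ξ p.2 - d.ξ p.1))) *
          fe8_f P K u (d.ξ p.2 - d.ξ p.1) ^ 3 := by ring
        _ = _ := by rw [h3]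
    have h4 : ∀ p ∈ F, (Real.sqrt (Fj P (d.ξ p.2 - d.ξ p.1)) *
        fe8_f P K u (d.ξ p.2 - d.ξ p.1)) ^ 2 =
        Fj P (d.ξ p.2 - d.ξ p.1) * fe8_f P K u (d.ξ p.2 - d.ξ p.1) ^ 2 := by
      intro p _
      rw [mul_pow, Real.sq_sqrt (Fj_nonneg _ _)]
    have h5 : ∀ p ∈ F, (Real.sqrt (Fj P (d.ξ p.2 - d.ξ p.1)) *
        fe8_f P K u (d.ξ p.2 - d.ξ p.1) ^ 2) ^ 2 =
        Fj P (d.ξ p.2 - d.ξ p.1) * fe8_f P K u (d.ξ p.2 - d.ξ p.1) ^ 4 := by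
      intro p _
      rw [mul_pow, Real.sq_sqrt (Fj_nonneg _ _)]
      ring
    rw [sum_congr rfl h2, sum_congr rfl h4, sum_congr rfl h5, ← hL3] at h1
    refine h1.trans (mul_le_mul hL2 hL4 ?_ (by positivity))
    exact sum_nonneg fun p _ => mul_nonneg (Fj_nonneg _ _) (pow_nonneg (fe8_f_nonneg _ _ _ _) _)
  have hL3le : L3 ≤ B * (Real.sqrt q * Real.sqrt E) := by
    have h1 : L3 ^ 2 ≤ (B * (Real.sqrt q * Real.sqrt E)) ^ 2 := by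
      rw [mul_pow, mul_pow, Real.sq_sqrt hq0, Real.sq_sqrt hE0]
      calc L3 ^ 2 ≤ (B * q) * (B * E) := hCS
        _ = B ^ 2 * (q * E) := by ring
    exact (le_abs_self _).trans (abs_le_of_sq_le_sq h1 (by positivity))
  -- the main inequality
  have h7 := fe7 d S Λ Y a W hSd hΛ hY ha ha0 hD P K u hP hu0 hu
  rw [← hE] at h7
  have h8 : ∑ n ∈ S, ∑ n' ∈ S, Fj P (d.ξ n - d.ξ n') *
      ‖∑ κ ∈ K, (u κ : ℂ) * ee ((d.ξ n - d.ξ n') * ((P * κ : ℤ) : ℝ))‖ ^ 3 ≤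
      8 * d.N * P * s ^ 3 + 2 * (B * (Real.sqrt q * Real.sqrt E)) := by
    have h9 := fe8_split S d.ξ (fun θ => Fj P θ * fe8_f P K u θ ^ 3) (fun θ => by
      rw [fe8_Fj_neg, fe8_f_neg])
    have h10 : ∑ n ∈ S, ∑ n' ∈ S, Fj P (d.ξ n - d.ξ n') *
        ‖∑ κ ∈ K, (u κ : ℂ) * ee ((d.ξ n - d.ξ n') * ((P * κ : ℤ) : ℝ))‖ ^ 3 =
        ∑ n ∈ S, ∑ n' ∈ S, (fun θ => Fj P θ * fe8_f P K u θ ^ 3) (d.ξ n - d.ξ n') := rfl
    rw [h10, h9, ← hF]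
    have h11 : ∑ p ∈ F, (fun θ => Fj P θ * fe8_f P K u θ ^ 3) (d.ξ p.2 - d.ξ p.1) = L3 := by
      rw [hL3]
    rw [h11]
    have h12 : (S.card : ℝ) * ((fun θ => Fj P θ * fe8_f P K u θ ^ 3) 0) ≤
        8 * d.N * P * s ^ 3 := by
      have h13 : Fj P 0 ≤ 4 * P := fe3 P hP 0
      have h14 : fe8_f P K u 0 ^ 3 ≤ s ^ 3 := by
        rw [hs]
        exact pow_le_pow_left₀ (fe8_f_nonneg _ _ _ _) (fe8_f_le P K u hu0 0) 3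
      have h15 : Fj P 0 * fe8_f P K u 0 ^ 3 ≤ 4 * P * s ^ 3 :=
        mul_le_mul h13 h14 (pow_nonneg (fe8_f_nonneg _ _ _ _) _) (by positivity)
      have h16 : 0 ≤ Fj P 0 * fe8_f P K u 0 ^ 3 :=
        mul_nonneg (Fj_nonneg _ _) (pow_nonneg (fe8_f_nonneg _ _ _ _) _)
      calc (S.card : ℝ) * (Fj P 0 * fe8_f P K u 0 ^ 3)
          ≤ (2 * d.N) * (4 * P * s ^ 3) := mul_le_mul hS.card h15 h16 (by positivity)
        _ = 8 * d.N * P * s ^ 3 := by ring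
    linarith
  have hY2 : 0 < Y ^ 2 := by positivity
  have hmain : E ≤ 16 * (H * P / d.N) * s ^ 3 +
      (4 * 10 ^ 10 * 646 * A * ℓ * H * Real.sqrt q) * Real.sqrt E := by
    have h9 : E * Y ^ 2 ≤ 2 * Λ ^ 2 * (8 * d.N * P * s ^ 3 +
        2 * (B * (Real.sqrt q * Real.sqrt E))) :=
      h7.trans (mul_le_mul_of_nonneg_left h8 (by positivity))
    have h10 : E ≤ 2 * Λ ^ 2 * (8 * d.N * P * s ^ 3 +
        2 * (B * (Real.sqrt q * Real.sqrt E))) / Y ^ 2 := by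
      rw [le_div_iff₀ hY2]
      exact h9
    refine h10.trans (le_of_eq ?_)
    rw [hBd, hH]
    field_simp
    ring
  have hfin := fe8_quad hE0 hmain
  refine hfin.trans ?_
  have hsq : Real.sqrt q ^ 2 = q := Real.sq_sqrt hq0
  have h17 : (4 * 10 ^ 10 * 646 * A * ℓ * H * Real.sqrt q) ^ 2 =
      (4 * 10 ^ 10 * 646 * A) ^ 2 * ℓ ^ 2 * (H ^ 2 * q) := by
    rw [mul_pow, hsq]
    ring
  rw [h17]
  have hℓ2 : 1 ≤ ℓ ^ 2 := by nlinarith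
  have h18 : 0 ≤ H * P / d.N * s ^ 3 := by positivity
  have h19 : 0 ≤ H ^ 2 * q := by positivity
  have h20 : 0 ≤ (4 * 10 ^ 10 * 646 * A) ^ 2 := sq_nonneg _
  obtain ⟨c, hc⟩ : ∃ c : ℝ, c = (4 * 10 ^ 10 * 646 * A) ^ 2 := ⟨_, rfl⟩
  obtain ⟨x, hx⟩ : ∃ x : ℝ, x = H * P / d.N * s ^ 3 := ⟨_, rfl⟩
  obtain ⟨y, hy⟩ : ∃ y : ℝ, y = H ^ 2 * q := ⟨_, rfl⟩
  have h21 : 2 * (16 * (H * P / d.N) * s ^ 3) = 32 * x := by rw [hx]; ring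
  rw [h21, ← hc, ← hx, ← hy]
  rw [← hx] at h18
  rw [← hy] at h19
  rw [← hc] at h20
  have h22 : 32 * x ≤ 32 * ℓ ^ 2 * x := by nlinarith
  have h23 : 0 ≤ c * ℓ ^ 2 * x := by positivity
  have h24 : 0 ≤ 32 * ℓ ^ 2 * y := by positivity
  nlinarith

end Pool.Agent.LibSX15
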