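import Pool.Agent.LibEX15.EXDefs
import Pool.Agent.LibSX15.LVT

/-! ROW [EX MA1] (as `lvt_phase`, `LV_taylor`, LibSX15/LVT.lean, and `LV_chirp`, LVB1; the cross term is KEPT). Put `N' = b0 N`, `z = τ/(2pN')`, `Δ = (x-y)/(2pN')`.
`ph p (τ+x-y) = τ²/(4pN') + 2 z... `: exactly `(τ+x-y)²/(4pN') = τ²/(4pN') + z (x-y) + (x² - 2xy + y²)/(4pN')`, and
`|p ε q(z+Δ) - p ε q z - p ε q1(z) Δ| ≤ p ε C0 Δ²` (hq3); `p ε q1(z) Δ = ε/(2N') q1(z) (x-y)`.
So `|ph p (τ+x-y) - (ph p τ + nu p τ (x-y) + y²/(4pN') - xy/(2pN'))| ≤ x²/(4pN') + p ε C0 Δ²`.  `|x-y| ≤ max P y ≤ N/(1+ε)` (`P ≤ P² ≤ N/(1+ε)`), `N' ≥ N`: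
`p ε C0 Δ² ≤ C0 ε (N/(1+ε))²/(4 P N²) ≤ C0/(4P)`, `x²/(4pN') ≤ P²/(4PN) ≤ 1/(4P)`; `|w(z+Δ) - w z| ≤ C0 |Δ| ≤ C0/(2P)`.
`‖ee a - ee b‖ ≤ 2π|a-b|` (`lvt_ee_sub`), `|w| ≤ C0`: total `C0/(2P) + 2π C0 (C0+1)/(4P) ≤ 10 C0²/P`. -/

set_option autoImplicit false

namespace Pool.Agent.LibSX15

open Finset

private lemma ma1_abs (ε N P x y : ℝ) (hε : 0 ≤ ε) (hP : 1 ≤ P) (hPN : P ^ 2 * (1 + ε) ≤ N)
    (hx : 0 ≤ x) (hxP : x ≤ P) (hy : 0 ≤ y) (hyN : y * (1 + ε) ≤ N) :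
    |x - y| * (1 + ε) ≤ N := by
  have h1 : x * (1 + ε) ≤ N := by
    refine le_trans ?_ hPN
    have h2 : x ≤ P ^ 2 := by nlinarith
    exact mul_le_mul_of_nonneg_right h2 (by linarith)
  have h3 : 0 ≤ x * (1 + ε) := by positivity
  have h4 : 0 ≤ y * (1 + ε) := by positivity
  rcases abs_cases (x - y) with h | h
  · rw [h.1]
    linarith
  · rw [h.1]
    linarith

/-- phase expansion with the cross term -/
private lemma ma1_phase (d : Dat) (C0 : ℝ) (hd : d.Good C0) (P : ℝ) (m : ℤ) (τ0 x y : ℝ)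
    (hP : 1 ≤ P) (hm : P ≤ m) (hPN : P ^ 2 * (1 + d.ε) ≤ d.N) (hx0 : 0 ≤ x) (hx : x ≤ P)
    (hy0 : 0 ≤ y) (hyN : y * (1 + d.ε) ≤ d.N) :
    |d.ph m (τ0 + (x - y)) - (d.ph m τ0 +
      (τ0 / (2 * m * (d.b0 * d.N)) - d.ε / (2 * (d.b0 * d.N)) * d.q1 (τ0 / (2 * m * (d.b0 * d.N)))) *
        (x - y) + y ^ 2 / (4 * m * (d.b0 * d.N)) + -(x * y / (2 * m * (d.b0 * d.N))))| ≤
      1 / (4 * P) + C0 / (4 * P) := by
  have hN : 0 < d.N := by linarith [hd.hN]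
  have hb : 0 < d.b0 := by linarith [hd.hb1]
  have hP0 : 0 < P := by linarith
  have hm0 : (0 : ℝ) < m := by linarith
  have hC0 := hd.hC0
  have hC00 : 0 < C0 := by linarith
  have hε := hd.hε
  have habs := ma1_abs d.ε d.N P x y hε hP hPN hx0 hx hy0 hyN
  set N' : ℝ := d.b0 * d.N with hN'
  have hN'0 : 0 < N' := by positivity
  have hNN' : d.N ≤ N' := by rw [hN']; nlinarith [hd.hb1]
  set z : ℝ := τ0 / (2 * m * N') with hz
  set h : ℝ := x - y with hh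
  have hq := hd.hq3 z ((τ0 + h) / (2 * m * N'))
  have e1 : (τ0 + h) / (2 * m * N') - z = h / (2 * m * N') := by rw [hz]; ring
  rw [e1] at hq
  have e2 : d.ph m (τ0 + h) - (d.ph m τ0 + (z - d.ε / (2 * N') * d.q1 z) * h +
      y ^ 2 / (4 * m * N') + -(x * y / (2 * m * N'))) =
      x ^ 2 / (4 * m * N') -
        m * d.ε * (d.q ((τ0 + h) / (2 * m * N')) - d.q z - d.q1 z * (h / (2 * m * N'))) := by
    have e3 : d.ph m (τ0 + h) = (τ0 + h) ^ 2 / (4 * m * N') - m * d.ε * d.q ((τ0 + h) / (2 * m * N')) := rfl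
    have e4 : d.ph m τ0 = τ0 ^ 2 / (4 * m * N') - m * d.ε * d.q z := rfl
    rw [e3, e4]
    have e5 : z * h = τ0 * h / (2 * m * N') := by rw [hz]; ring
    have e6 : (z - d.ε / (2 * N') * d.q1 z) * h = τ0 * h / (2 * m * N') - d.ε / (2 * N') * d.q1 z * h := by
      rw [sub_mul, e5]
    rw [e6]
    have e7 : x = h + y := by rw [hh]; ring
    rw [e7]
    field_simp
    ring
  rw [e2]
  have h1 : |x ^ 2 / (4 * m * N')| ≤ 1 / (4 * P) := by
    rw [abs_of_nonneg (by positivity), div_le_div_iff₀ (by positivity) (by positivity), one_mul]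
    have h2 : x ^ 2 ≤ N' := by
      calc x ^ 2 ≤ P ^ 2 := by gcongr
        _ ≤ P ^ 2 * (1 + d.ε) := by
          apply le_mul_of_one_le_right (by positivity)
          linarith
        _ ≤ d.N := hPN
        _ ≤ N' := hNN'
    calc x ^ 2 * (4 * P) ≤ N' * (4 * m) := by gcongr
      _ = 4 * m * N' := by ring
  have h3 : |m * d.ε * (d.q ((τ0 + h) / (2 * m * N')) - d.q z - d.q1 z * (h / (2 * m * N')))| ≤
      C0 / (4 * P) := by
    rw [abs_mul, abs_of_nonneg (by positivity : (0:ℝ) ≤ m * d.ε)]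
    have h6 : h ^ 2 * (1 + d.ε) ^ 2 ≤ N' ^ 2 := by
      rw [← sq_abs h, ← mul_pow]
      have h7 : |h| * (1 + d.ε) ≤ N' := habs.trans hNN'
      have h8 : 0 ≤ |h| * (1 + d.ε) := by positivity
      gcongr
    calc (m : ℝ) * d.ε * |d.q ((τ0 + h) / (2 * m * N')) - d.q z - d.q1 z * (h / (2 * m * N'))|
        ≤ m * d.ε * (C0 * (h / (2 * m * N')) ^ 2) := by gcongr
      _ = C0 * (d.ε * h ^ 2) / (4 * m * N' ^ 2) := by field_simp; ring
      _ ≤ C0 * N' ^ 2 / (4 * m * N' ^ 2) := by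
          gcongr
          refine le_trans ?_ h6
          rw [mul_comm]
          apply mul_le_mul_of_nonneg_left _ (sq_nonneg h)
          nlinarith
      _ = C0 / (4 * m) := by field_simp
      _ ≤ C0 / (4 * P) := by gcongr
  calc _ ≤ |x ^ 2 / (4 * m * N')| +
        |m * d.ε * (d.q ((τ0 + h) / (2 * m * N')) - d.q z - d.q1 z * (h / (2 * m * N')))| := abs_sub _ _
    _ ≤ _ := add_le_add h1 h3

private lemma ma1_taylor (d : Dat) (C0 : ℝ) (hd : d.Good C0) (P : ℝ) (m : ℤ) (τ0 x y : ℝ)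
    (hP : 1 ≤ P) (hm : P ≤ m) (hPN : P ^ 2 * (1 + d.ε) ≤ d.N) (hx0 : 0 ≤ x) (hx : x ≤ P)
    (hy0 : 0 ≤ y) (hyN : y * (1 + d.ε) ≤ d.N) :
    ‖(d.w ((τ0 + (x - y)) / (2 * m * (d.b0 * d.N))) : ℂ) * ee (d.ph m (τ0 + (x - y))) -
      (d.w (τ0 / (2 * m * (d.b0 * d.N))) : ℂ) * ee (d.ph m τ0) *
        ee ((τ0 / (2 * m * (d.b0 * d.N)) -
          d.ε / (2 * (d.b0 * d.N)) * d.q1 (τ0 / (2 * m * (d.b0 * d.N)))) * (x - y)) *
        ee (y ^ 2 / (4 * m * (d.b0 * d.N))) * ee (-(x * y / (2 * m * (d.b0 * d.N))))‖ ≤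
      10 * C0 ^ 2 / P := by
  have hN : 0 < d.N := by linarith [hd.hN]
  have hb : 0 < d.b0 := by linarith [hd.hb1]
  have hP0 : 0 < P := by linarith
  have hm0 : (0 : ℝ) < m := by linarith
  have hC0 := hd.hC0
  have hC00 : 0 < C0 := by linarith
  have hε := hd.hε
  have hph := ma1_phase d C0 hd P m τ0 x y hP hm hPN hx0 hx hy0 hyN
  have habs := ma1_abs d.ε d.N P x y hε hP hPN hx0 hx hy0 hyN
  set N' : ℝ := d.b0 * d.N with hN'
  have hN'0 : 0 < N' := by positivity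
  have hNN' : d.N ≤ N' := by rw [hN']; nlinarith [hd.hb1]
  set z : ℝ := τ0 / (2 * m * N') with hz
  set h : ℝ := x - y with hh
  have hhabs : |h| ≤ d.N := by
    have : |h| * 1 ≤ |h| * (1 + d.ε) := by
      apply mul_le_mul_of_nonneg_left _ (abs_nonneg h)
      linarith
    linarith
  set ν : ℝ := z - d.ε / (2 * N') * d.q1 z with hν
  have e2 : (d.w z : ℂ) * ee (d.ph m τ0) * ee (ν * h) * ee (y ^ 2 / (4 * m * N')) *
      ee (-(x * y / (2 * m * N'))) =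
      (d.w z : ℂ) * ee (d.ph m τ0 + ν * h + y ^ 2 / (4 * m * N') + -(x * y / (2 * m * N'))) := by
    rw [ee_add, ee_add, ee_add]
    ring
  rw [e2]
  have e3 : (d.w ((τ0 + h) / (2 * m * N')) : ℂ) * ee (d.ph m (τ0 + h)) -
      (d.w z : ℂ) * ee (d.ph m τ0 + ν * h + y ^ 2 / (4 * m * N') + -(x * y / (2 * m * N'))) =
      ((d.w ((τ0 + h) / (2 * m * N')) - d.w z : ℝ) : ℂ) * ee (d.ph m (τ0 + h)) +
      (d.w z : ℂ) * (ee (d.ph m (τ0 + h)) -
        ee (d.ph m τ0 + ν * h + y ^ 2 / (4 * m * N') + -(x * y / (2 * m * N')))) := by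
    push_cast; ring
  rw [e3]
  refine (norm_add_le _ _).trans ?_
  rw [norm_mul, norm_mul, norm_ee, mul_one, Complex.norm_real, Complex.norm_real, Real.norm_eq_abs,
    Real.norm_eq_abs]
  have h1 : |d.w ((τ0 + h) / (2 * m * N')) - d.w z| ≤ C0 * (1 / (2 * P)) := by
    refine (hd.hwL _ _).trans ?_
    have e4 : (τ0 + h) / (2 * m * N') - z = h / (2 * m * N') := by rw [hz]; ring
    rw [e4, abs_div, abs_of_pos (by positivity : (0:ℝ) < 2 * m * N')]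
    have h5 : |h| / (2 * m * N') ≤ 1 / (2 * P) := by
      rw [div_le_div_iff₀ (by positivity) (by positivity), one_mul]
      calc |h| * (2 * P) ≤ N' * (2 * m) := by
            gcongr
            exact hhabs.trans hNN'
        _ = 2 * m * N' := by ring
    gcongr
  have h2 : ‖ee (d.ph m (τ0 + h)) -
      ee (d.ph m τ0 + ν * h + y ^ 2 / (4 * m * N') + -(x * y / (2 * m * N')))‖ ≤
      2 * Real.pi * (1 / (4 * P) + C0 / (4 * P)) := by
    refine (lvt_ee_sub _ _).trans ?_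
    gcongr
  have hpi : Real.pi ≤ 3.15 := by linarith [Real.pi_lt_d2]
  have hpi0 := Real.pi_pos
  calc |d.w ((τ0 + h) / (2 * m * N')) - d.w z| +
        |d.w z| * ‖ee (d.ph m (τ0 + h)) -
          ee (d.ph m τ0 + ν * h + y ^ 2 / (4 * m * N') + -(x * y / (2 * m * N')))‖
      ≤ C0 * (1 / (2 * P)) + C0 * (2 * Real.pi * (1 / (4 * P) + C0 / (4 * P))) := by
        refine add_le_add h1 (mul_le_mul (hd.hw _) h2 (norm_nonneg _) (by linarith))
    _ ≤ C0 * (1 / (2 * P)) + C0 * (2 * 3.15 * (1 / (4 * P) + C0 / (4 * P))) := by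
        gcongr
    _ = (C0 * (1 / 2) + C0 * (3.15 / 2) + C0 ^ 2 * (3.15 / 2)) / P := by
        field_simp
        ring
    _ ≤ 10 * C0 ^ 2 / P := by
        have hC2 : C0 ≤ C0 ^ 2 := by nlinarith
        gcongr
        nlinarith

theorem LV_chirp2 (C0 : ℝ) (d : Dat) (hd : d.Good C0) (P p : ℕ) (τ x y : ℝ) (hP : 1 ≤ P)
    (hp : P ≤ p) (hPN : (P : ℝ) ^ 2 * (1 + d.ε) ≤ d.N) (hx : 0 ≤ x) (hxP : x ≤ P) (hy : 0 ≤ y)
    (hyN : y * (1 + d.ε) ≤ d.N) :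
    ‖d.chirp p (τ + x - y) - (d.w (d.zz p τ) : ℂ) * ee (d.ph p τ) * ee (d.nu p τ * (x - y)) *
      ee (y ^ 2 / (4 * p * (d.b0 * d.N))) * ee (-(x * y / (2 * p * (d.b0 * d.N))))‖ ≤
      10 * C0 ^ 2 / P := by
  have h := ma1_taylor d C0 hd P (p : ℤ) τ x y (by exact_mod_cast hP) (by exact_mod_cast hp) hPN
    hx hxP hy hyN
  have e : τ + x - y = τ + (x - y) := by ring
  rw [e]
  simpa only [Dat.chirp, Dat.zz, Dat.nu, Int.cast_natCast] using h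

end Pool.Agent.LibSX15
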