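import Pool.Agent.LibEX15.MA1
import Pool.Agent.LibEX15.MA2
import Pool.Agent.LibSX15.LVB3

/-! ROW [EX MA3] (as `LV_approx`, LibSX15/LVB3.lean, same structure, with `L = P`; uses LV_chirp2 and ee_taylor as stated).
For `t ∈ W`: `κ = t / P`, `x = t % P ∈ [0, P)`, `τ = P κ - s0`, `t - (s0+y) = τ + x - y`.
The term `a` of the double sum restricted to `t`:  `c t (x/P)^a w(zz p τ) ee(ph p τ) ee(nu p τ x) ee(-(nu p τ y))` (if `w = 0` both sides vanish, def. of `U`),
multiplied by `ee(y²/4pN')` and by `(-(2π r) i)^a/a!`, where `r = P y/(2pN')`, so the sum over `a` is `w ee(ph) ee(nu (x-y)) ee(y²/4pN')` times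
`∑_{a<A0} (-(2π r (x/P)) i)^a/a! = ee(-(xy/(2pN'))) + O(2 π^A0/A0!)` (`ee_taylor`, `ρ = π`: `|r x/P| = xy/(2pN') ≤ 1/2` as `y ≤ N`, `x ≤ P ≤ p`, `b0 ≥ 1`).
With LV_chirp2 the error for one `t` is `≤ 10 C0²/P + 2 C0 π^A0/A0!`, and it is `0` unless `s0 ≤ t ≤ s0 + (C0 P + 1) N` (LV_vanish, as in LVB3):
at most `C1 H (2 + C0 P) ≤ 3 C0 C1 H P` such `t` (Win).  Total `≤ C H (1 + P π^A0/A0!)`. -/

set_option autoImplicit false

namespace Pool.Agent.LibSX15

open Finset

theorem LV_approx2 (C0 C1 : ℝ) (hC0 : 1 ≤ C0) (hC1 : 1 ≤ C1) : ∃ C : ℝ, 1 ≤ C ∧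
    ∀ (d : Dat) (H : ℝ) (W : Finset ℤ) (c : ℤ → ℂ), d.Good C0 → 0 ≤ H → Win C1 d.N H W →
    (∀ t, ‖c t‖ ≤ 1) → ∀ (P p n0 A0 : ℕ) (s0 y : ℤ), 1 ≤ P → (P : ℝ) ^ 2 * (1 + d.ε) ≤ d.N →
    P ≤ p → p < 2 * P → (n0 : ℝ) * (1 + d.ε) ≤ d.N → 0 ≤ y → y < n0 → 7 ≤ A0 →
    ‖∑ t ∈ W, c t * d.chirp p ((t : ℝ) - ((s0 + y : ℤ) : ℝ)) -
      ee ((y : ℝ) ^ 2 / (4 * p * (d.b0 * d.N))) *
        ∑ a ∈ range A0, (-(2 * Real.pi * (P * y / (2 * p * (d.b0 * d.N))) : ℝ) * Complex.I) ^ a /
          (a.factorial : ℂ) * gA d W c P p a s0 y‖ ≤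
      C * H * (1 + P * (Real.pi ^ A0 / A0.factorial)) := by
  refine ⟨30 * C0 ^ 3 * C1, ?_, ?_⟩
  · have h1 : 1 ≤ C0 ^ 3 := one_le_pow₀ hC0
    have h2 : 1 ≤ C0 ^ 3 * C1 := by nlinarith
    nlinarith
  · intro d H W c hd hH hWin hc P p n0 A0 s0 y hP hPN hp1 hp2 hn0 hy0 hyn hA0
    have hP' : (1 : ℝ) ≤ P := by exact_mod_cast hP
    have hpP : (P : ℝ) ≤ p := by exact_mod_cast hp1
    have hp0 : (1 : ℝ) ≤ p := hP'.trans hpP
    have hε := hd.hε
    have hN : 0 < d.N := by have := hd.hN; linarith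
    have hb1 := hd.hb1
    have hb0 : 0 < d.b0 := by linarith
    have hPN1 : (P : ℝ) ≤ d.N := by nlinarith
    have hCP : 1 ≤ C0 * P := by nlinarith
    have hy0' : (0 : ℝ) ≤ (y : ℝ) := by exact_mod_cast hy0
    have hyn' : (y : ℝ) ≤ (n0 : ℝ) := by exact_mod_cast hyn.le
    have hyNe : (y : ℝ) * (1 + d.ε) ≤ d.N := by nlinarith
    have hyN' : (y : ℝ) ≤ d.N := by nlinarith
    have hLz : (0 : ℤ) < (P : ℤ) := by exact_mod_cast hP
    -- the terms
    set τ : ℤ → ℝ := fun t => (((P : ℤ) * (t / (P : ℤ)) - s0 : ℤ) : ℝ) with hτ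
    set X : ℤ → ℝ := fun t => ((t % (P : ℤ) : ℤ) : ℝ) with hX
    set V : ℤ → ℂ := fun t => (d.w (d.zz p (τ t)) : ℂ) * ee (d.ph p (τ t)) *
      ee (d.nu p (τ t) * (X t - (y : ℝ))) * ee ((y : ℝ) ^ 2 / (4 * p * (d.b0 * d.N))) with hV
    have hxL : ∀ t : ℤ, (0 : ℝ) ≤ X t ∧ X t ≤ (P : ℝ) := by
      intro t
      constructor
      · show (0 : ℝ) ≤ ((t % (P : ℤ) : ℤ) : ℝ)
        exact_mod_cast Int.emod_nonneg t hLz.ne'
      · have := (Int.emod_lt_of_pos t hLz).le
        show ((t % (P : ℤ) : ℤ) : ℝ) ≤ (P : ℝ)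
        exact_mod_cast this
    have htτ : ∀ t : ℤ, (t : ℝ) - ((s0 + y : ℤ) : ℝ) = τ t + X t - (y : ℝ) := by
      intro t
      have h1 : (P : ℤ) * (t / (P : ℤ)) + t % (P : ℤ) = t := Int.mul_ediv_add_emod t (P : ℤ)
      have h2 : (((P : ℤ) * (t / (P : ℤ)) + t % (P : ℤ) : ℤ) : ℝ) = (t : ℝ) := by rw [h1]
      rw [← h2, hτ, hX]
      push_cast
      ring
    -- regrouping
    have hgroup : ∀ c' : ℤ → ℂ, ee ((y : ℝ) ^ 2 / (4 * p * (d.b0 * d.N))) *
        ∑ κ ∈ Ks W P, (d.w (d.zz p ((P * κ - s0 : ℤ) : ℝ)) : ℂ) * ee (d.ph p ((P * κ - s0 : ℤ) : ℝ)) *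
          d.U W c' P s0 p κ * ee (-(d.nu p ((P * κ - s0 : ℤ) : ℝ) * y)) = ∑ t ∈ W, c' t * V t := by
      intro c'
      have hmaps : ∀ t ∈ W, t / (P : ℤ) ∈ Ks W P := fun t ht => Finset.mem_image_of_mem _ ht
      rw [← Finset.sum_fiberwise_of_maps_to hmaps, Finset.mul_sum]
      refine Finset.sum_congr rfl fun κ hκ => ?_
      have h1 : ∀ t ∈ W.filter (fun t => t / (P : ℤ) = κ), c' t * V t =
          c' t * ((d.w (d.zz p ((P * κ - s0 : ℤ) : ℝ)) : ℂ) * ee (d.ph p ((P * κ - s0 : ℤ) : ℝ)) *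
      ee (d.nu p ((P * κ - s0 : ℤ) : ℝ) * (((t % (P : ℤ) : ℤ) : ℝ) - (y : ℝ))) *
      ee ((y : ℝ) ^ 2 / (4 * p * (d.b0 * d.N)))) := by
        intro t ht
        rw [Finset.mem_filter] at ht
        simp only [hV, hτ, hX, ht.2]
      rw [Finset.sum_congr rfl h1]
      unfold Dat.U
      by_cases hw : d.w (d.zz p ((P * κ - s0 : ℤ) : ℝ)) = 0
      · rw [if_pos hw, hw]
        simp
      · rw [if_neg hw, Finset.mul_sum, Finset.sum_mul, Finset.mul_sum]
        refine Finset.sum_congr rfl fun t ht => ?_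
        have h2 : d.nu p ((P * κ - s0 : ℤ) : ℝ) * (((t % (P : ℤ) : ℤ) : ℝ) - (y : ℝ)) =
            d.nu p ((P * κ - s0 : ℤ) : ℝ) * ((t % (P : ℤ) : ℤ) : ℝ) +
              (-(d.nu p ((P * κ - s0 : ℤ) : ℝ) * y)) := by ring
        rw [h2, ee_add]
        ring
    set r : ℝ := P * y / (2 * p * (d.b0 * d.N)) with hr
    set TS : ℝ → ℂ := fun q => ∑ a ∈ range A0, (-(2 * Real.pi * q : ℝ) * Complex.I) ^ a /
      (a.factorial : ℂ) with hTS
    have hsum : ee ((y : ℝ) ^ 2 / (4 * p * (d.b0 * d.N))) *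
        ∑ a ∈ range A0, (-(2 * Real.pi * r : ℝ) * Complex.I) ^ a /
          (a.factorial : ℂ) * gA d W c P p a s0 y = ∑ t ∈ W, c t * (V t * TS (r * (X t / P))) := by
      have h1 : ∀ a ∈ range A0, ee ((y : ℝ) ^ 2 / (4 * p * (d.b0 * d.N))) *
          ((-(2 * Real.pi * r : ℝ) * Complex.I) ^ a / (a.factorial : ℂ) * gA d W c P p a s0 y) =
          ∑ t ∈ W, c t * (V t * ((-(2 * Real.pi * (r * (X t / P)) : ℝ) * Complex.I) ^ a /
            (a.factorial : ℂ))) := by
        intro a _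
        have h2 := hgroup (cx c P a)
        have h3 : ee ((y : ℝ) ^ 2 / (4 * p * (d.b0 * d.N))) *
          ((-(2 * Real.pi * r : ℝ) * Complex.I) ^ a / (a.factorial : ℂ) * gA d W c P p a s0 y) =
          (-(2 * Real.pi * r : ℝ) * Complex.I) ^ a / (a.factorial : ℂ) *
            (ee ((y : ℝ) ^ 2 / (4 * p * (d.b0 * d.N))) * gA d W c P p a s0 y) := by ring
        rw [h3]
        unfold gA
        rw [h2, Finset.mul_sum]
        refine Finset.sum_congr rfl fun t _ => ?_
        unfold cx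
        have h4 : (-(2 * Real.pi * (r * (X t / P)) : ℝ) * Complex.I) ^ a =
            (-(2 * Real.pi * r : ℝ) * Complex.I) ^ a * (((X t / P) ^ a : ℝ) : ℂ) := by
          rw [Complex.ofReal_pow, ← mul_pow]
          congr 1
          push_cast
          ring
        rw [h4]
        ring
      rw [Finset.mul_sum, Finset.sum_congr rfl h1, Finset.sum_comm]
      refine Finset.sum_congr rfl fun t _ => ?_
      rw [hTS]
      simp only [Finset.mul_sum]
    rw [hsum, ← Finset.sum_sub_distrib]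
    set δ : ℝ := Real.pi ^ A0 / A0.factorial with hδ
    have hδ0 : 0 ≤ δ := by positivity
    -- termwise
    have hterm : ∀ t ∈ W, ‖c t * d.chirp p ((t : ℝ) - ((s0 + y : ℤ) : ℝ)) -
        c t * (V t * TS (r * (X t / P)))‖ ≤
        if (s0 : ℝ) ≤ t ∧ (t : ℝ) ≤ s0 + (C0 * P + 1) * d.N then
          10 * C0 ^ 2 / P + C0 * (2 * δ) else 0 := by
      intro t ht
      have hx := hxL t
      rw [htτ t, ← mul_sub, norm_mul]
      split_ifs with hcond
      · have h1 := LV_chirp2 C0 d hd P p (τ t) (X t) y hP hp1 hPN hx.1 hx.2 hy0' hyNe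
        have hrx : r * (X t / P) = X t * y / (2 * p * (d.b0 * d.N)) := by
          rw [hr]; field_simp
        have hrx0 : 0 ≤ r * (X t / P) := by
          rw [hrx]
          have := hx.1
          positivity
        have hrx1 : r * (X t / P) ≤ 1 / 2 := by
          rw [hrx, div_le_div_iff₀ (by positivity) (by norm_num)]
          have e1 : X t * y ≤ p * (d.b0 * d.N) := by
            have e2 : X t ≤ p := hx.2.trans hpP
            have e3 : (y : ℝ) ≤ d.b0 * d.N := by nlinarith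
            exact mul_le_mul e2 e3 hy0' (by linarith)
          nlinarith
        have h2 := ee_taylor (r * (X t / P)) Real.pi A0 (by
          rw [abs_of_nonneg hrx0]
          nlinarith [Real.pi_pos]) (by
          have h7 : (7 : ℝ) ≤ A0 := by exact_mod_cast hA0
          linarith [Real.pi_lt_d2])
        have h3 : d.chirp p (τ t + X t - y) - V t * TS (r * (X t / P)) =
            (d.chirp p (τ t + X t - y) - (d.w (d.zz p (τ t)) : ℂ) * ee (d.ph p (τ t)) *
              ee (d.nu p (τ t) * (X t - y)) * ee ((y : ℝ) ^ 2 / (4 * p * (d.b0 * d.N))) *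
              ee (-(X t * y / (2 * p * (d.b0 * d.N))))) +
            V t * (ee (-(r * (X t / P))) - TS (r * (X t / P))) := by
          rw [hrx, hV]
          ring
        have hVn : ‖V t‖ ≤ C0 := by
          rw [hV]
          simp only [norm_mul, norm_ee, mul_one, Complex.norm_real, Real.norm_eq_abs]
          exact hd.hw _
        have h4 : ‖d.chirp p (τ t + X t - y) - V t * TS (r * (X t / P))‖ ≤
            10 * C0 ^ 2 / P + C0 * (2 * δ) := by
          rw [h3]
          refine (norm_add_le _ _).trans (add_le_add h1 ?_)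
          rw [norm_mul]
          exact mul_le_mul hVn h2 (norm_nonneg _) (by linarith)
        calc ‖c t‖ * ‖d.chirp p (τ t + X t - y) - V t * TS (r * (X t / P))‖
            ≤ 1 * ‖d.chirp p (τ t + X t - y) - V t * TS (r * (X t / P))‖ := by
              gcongr
              exact hc t
          _ ≤ _ := by rw [one_mul]; exact h4
      · have hzero1 : d.w (d.zz p (τ t + X t - (y : ℝ))) = 0 := by
          by_contra hne
          have hv := LV_vanish C0 d hd P p _ hP hp1 hp2 hne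
          have e := htτ t
          push_cast at e
          apply hcond
          constructor
          · linarith [hv.1]
          · have := hv.2
            nlinarith
        have hzero2 : d.w (d.zz p (τ t)) = 0 := by
          by_contra hne
          have hv := LV_vanish C0 d hd P p _ hP hp1 hp2 hne
          have e := htτ t
          push_cast at e
          apply hcond
          constructor
          · linarith [hv.1, hx.1]
          · have := hv.2
            nlinarith [hx.2]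
        have hV0 : V t = 0 := by
          rw [hV]
          simp only [hzero2]
          simp
        unfold Dat.chirp
        rw [hzero1, hV0]
        simp
    refine (norm_sum_le _ _).trans ((Finset.sum_le_sum hterm).trans ?_)
    rw [← Finset.sum_filter, Finset.sum_const, nsmul_eq_mul]
    have h2 := hWin (s0 : ℝ) ((C0 * P + 1) * d.N) (by positivity)
    have h3 : (C0 * P + 1) * d.N / d.N = C0 * P + 1 := by field_simp
    rw [h3] at h2
    have hE : 0 ≤ 10 * C0 ^ 2 / P + C0 * (2 * δ) := by positivity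
    calc _ ≤ (C1 * H * (1 + (C0 * P + 1))) * (10 * C0 ^ 2 / P + C0 * (2 * δ)) :=
          mul_le_mul_of_nonneg_right h2 hE
      _ ≤ (C1 * H * (3 * (C0 * P))) * (10 * C0 ^ 2 / P + C0 * (2 * δ)) := by
          apply mul_le_mul_of_nonneg_right _ hE
          apply mul_le_mul_of_nonneg_left _ (by positivity)
          linarith
      _ = 30 * C0 ^ 3 * C1 * H + 6 * C0 ^ 2 * C1 * H * (P * δ) := by
          have : (P : ℝ) ≠ 0 := by positivity
          field_simp
          ring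
      _ ≤ 30 * C0 ^ 3 * C1 * H + 30 * C0 ^ 3 * C1 * H * (P * δ) := by
          have e1 : C0 ^ 2 ≤ C0 ^ 3 := pow_le_pow_right₀ hC0 (by norm_num)
          have e2 : 0 ≤ C1 * H * (P * δ) := by positivity
          have e3 : 0 ≤ C0 ^ 2 := by positivity
          nlinarith [mul_le_mul_of_nonneg_right e1 e2, mul_nonneg e3 e2]
      _ = _ := by ring

end Pool.Agent.LibSX15
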