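import Pool.Agent.LibEX15.EXDefs

/-! ROW [EX ME1] (only Mathlib, real numbers, no data). The four cases.
PLAN. `w > 0` may be assumed.  `(w²N/H)² ≤ C1² Λ² (N/P) s² ≤ C1³ Λ² (N/P) (Pw)² X`, `X = Λ √(eMN) √(H² + HPw²/N) + H²` (`e = 1+ε ≥ 1`), so
`w² ≤ C1³ Λ² (H² P/N) X`.
(a) `X ≤ 2H²`: `w² ≤ 2C1³Λ² H⁴ P/N ≤ C Λ^6 H⁴ M/N`.  Otherwise `X ≤ 2 Λ √(eMN) √(..)`, `w⁴ ≤ 4 C1⁶ Λ⁶ (H⁴P²/N²) e M N (H² + HPw²/N)`: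
(b) `HPw²/N ≤ H²`: `w⁴ ≤ 8 C1⁶ Λ⁶ e H⁶ P² M/N ≤ C Λ^6 e H⁶ M³/N`;
(c) otherwise `w⁴ ≤ 8 C1⁶ Λ⁶ e H⁵ P³ M w²/N²`, divide by `w²`: `w² ≤ C Λ^6 e H⁵ M⁴/N²`. (`P ≤ C1 M`.)  `C = 8 C1^9`. -/

set_option autoImplicit false

namespace Pool.Agent.LibSX15

open Finset

private theorem me1_star {C1 w N H Λ P s X : ℝ} (hC1 : 1 ≤ C1) (hw : 0 < w) (hN : 0 < N)
    (hH : 0 < H) (hΛ : 1 ≤ Λ) (hP : 0 < P) (hs : 0 ≤ s)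
    (h1 : w ^ 2 * N / H ≤ C1 * Λ * (Real.sqrt (N / P) * s))
    (h2 : s ^ 2 ≤ C1 * (P * w) ^ 2 * X) :
    w ^ 2 * N ≤ C1 ^ 3 * Λ ^ 2 * P * X * H ^ 2 := by
  have hNP : 0 ≤ N / P := by positivity
  have a1 : (w ^ 2 * N / H) ^ 2 ≤ (C1 * Λ * (Real.sqrt (N / P) * s)) ^ 2 :=
    pow_le_pow_left₀ (by positivity) h1 2
  have a2 : (C1 * Λ * (Real.sqrt (N / P) * s)) ^ 2 = C1 ^ 2 * Λ ^ 2 * (N / P) * s ^ 2 := by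
    rw [mul_pow, mul_pow, mul_pow, Real.sq_sqrt hNP]
    ring
  have a3 : C1 ^ 2 * Λ ^ 2 * (N / P) * s ^ 2 ≤ C1 ^ 2 * Λ ^ 2 * (N / P) * (C1 * (P * w) ^ 2 * X) :=
    mul_le_mul_of_nonneg_left h2 (by positivity)
  have a4 : (w ^ 2 * N / H) ^ 2 ≤ C1 ^ 2 * Λ ^ 2 * (N / P) * (C1 * (P * w) ^ 2 * X) :=
    (a1.trans_eq a2).trans a3
  have a5 : C1 ^ 2 * Λ ^ 2 * (N / P) * (C1 * (P * w) ^ 2 * X) =
      (w ^ 2 * N) * (C1 ^ 3 * Λ ^ 2 * P * X) := by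
    field_simp
  have a6 : (w ^ 2 * N / H) ^ 2 = (w ^ 2 * N) * (w ^ 2 * N / H ^ 2) := by
    field_simp
  rw [a5, a6] at a4
  have hwN : 0 < w ^ 2 * N := by positivity
  have a7 := le_of_mul_le_mul_left a4 hwN
  rwa [div_le_iff₀ (by positivity)] at a7

theorem LV_exp2 (C1 : ℝ) (hC1 : 1 ≤ C1) : ∃ C : ℝ, 1 ≤ C ∧ ∀ w N M H Λ P e s : ℝ, 0 ≤ w → 1 ≤ N →
    1 ≤ M → 0 < H → 1 ≤ Λ → 1 ≤ P → P ≤ C1 * M → 1 ≤ e → 0 ≤ s →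
    w ^ 2 * N / H ≤ C1 * Λ * (Real.sqrt (N / P) * s) →
    s ^ 2 ≤ C1 * (P * w) ^ 2 * (Λ * Real.sqrt (e * M * N) *
      Real.sqrt (H ^ 2 + H * P * w ^ 2 / N) + H ^ 2) →
    w ^ 2 ≤ C * Λ ^ 6 * (H ^ 4 * M / N) ∨ w ^ 4 ≤ C * Λ ^ 6 * (e * H ^ 6 * M ^ 3 / N) ∨
      w ^ 2 ≤ C * Λ ^ 6 * (e * H ^ 5 * M ^ 4 / N ^ 2) := by
  refine ⟨8 * C1 ^ 9, ?_, ?_⟩
  · have : 1 ≤ C1 ^ 9 := one_le_pow₀ hC1
    linarith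
  intro w N M H Λ P e s hw hN hM hH hΛ hP hPM he hs h1 h2
  have hC0 : 0 < C1 := by linarith
  have hN0 : 0 < N := by linarith
  have hM0 : 0 < M := by linarith
  have hP0 : 0 < P := by linarith
  have hΛ0 : 0 < Λ := by linarith
  have he0 : 0 < e := by linarith
  rcases hw.eq_or_lt with rfl | hw0
  · left
    have : 0 ≤ 8 * C1 ^ 9 * Λ ^ 6 * (H ^ 4 * M / N) := by positivity
    simpa using this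
  set Y := Λ * Real.sqrt (e * M * N) * Real.sqrt (H ^ 2 + H * P * w ^ 2 / N) with hY
  have hY0 : 0 ≤ Y := by positivity
  have hstar := me1_star hC1 hw0 hN0 hH hΛ hP0 hs h1 h2
  have hΛ26 : Λ ^ 2 ≤ Λ ^ 6 := pow_le_pow_right₀ hΛ (by norm_num)
  rcases le_total Y (H ^ 2) with hYH | hYH
  · left
    have b1 : C1 ^ 3 * Λ ^ 2 * P * (Y + H ^ 2) * H ^ 2 ≤
        C1 ^ 3 * Λ ^ 6 * (C1 * M) * (H ^ 2 + H ^ 2) * H ^ 2 := by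
      gcongr
    have b2 : C1 ^ 4 ≤ C1 ^ 9 := pow_le_pow_right₀ hC1 (by norm_num)
    have b3 : C1 ^ 3 * Λ ^ 6 * (C1 * M) * (H ^ 2 + H ^ 2) * H ^ 2 =
        2 * C1 ^ 4 * (Λ ^ 6 * (H ^ 4 * M)) := by ring
    have b4 : 2 * C1 ^ 4 * (Λ ^ 6 * (H ^ 4 * M)) ≤ 8 * C1 ^ 9 * (Λ ^ 6 * (H ^ 4 * M)) := by
      refine mul_le_mul_of_nonneg_right ?_ (by positivity)
      have : 0 < C1 ^ 9 := by positivity
      linarith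
    have b5 : 8 * C1 ^ 9 * Λ ^ 6 * (H ^ 4 * M / N) = 8 * C1 ^ 9 * (Λ ^ 6 * (H ^ 4 * M)) / N := by
      ring
    rw [b5, le_div_iff₀ hN0]
    calc w ^ 2 * N ≤ _ := hstar
      _ ≤ _ := b1
      _ = _ := b3
      _ ≤ _ := b4
  · right
    have c1 : w ^ 2 * N ≤ C1 ^ 3 * Λ ^ 2 * P * (2 * Y) * H ^ 2 := by
      refine hstar.trans ?_
      gcongr
      linarith
    have c2 : (w ^ 2 * N) ^ 2 ≤ (C1 ^ 3 * Λ ^ 2 * P * (2 * Y) * H ^ 2) ^ 2 :=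
      pow_le_pow_left₀ (by positivity) c1 2
    have c3 : Y ^ 2 = Λ ^ 2 * (e * M * N) * (H ^ 2 + H * P * w ^ 2 / N) := by
      rw [hY, mul_pow, mul_pow, Real.sq_sqrt (by positivity), Real.sq_sqrt (by positivity)]
    have c4 : (C1 ^ 3 * Λ ^ 2 * P * (2 * Y) * H ^ 2) ^ 2 =
        4 * C1 ^ 6 * Λ ^ 6 * P ^ 2 * H ^ 4 * e * M * (N * H ^ 2 + H * P * w ^ 2) := by
      have : (C1 ^ 3 * Λ ^ 2 * P * (2 * Y) * H ^ 2) ^ 2 =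
          4 * C1 ^ 6 * Λ ^ 4 * P ^ 2 * H ^ 4 * Y ^ 2 := by ring
      rw [this, c3]
      field_simp
    rw [c4] at c2
    rcases le_total (H * P * w ^ 2) (N * H ^ 2) with hc | hc
    · left
      have d1 : 4 * C1 ^ 6 * Λ ^ 6 * P ^ 2 * H ^ 4 * e * M * (N * H ^ 2 + H * P * w ^ 2) ≤
          4 * C1 ^ 6 * Λ ^ 6 * (C1 * M) ^ 2 * H ^ 4 * e * M * (N * H ^ 2 + N * H ^ 2) := by
        gcongr
      have d2 : 4 * C1 ^ 6 * Λ ^ 6 * (C1 * M) ^ 2 * H ^ 4 * e * M * (N * H ^ 2 + N * H ^ 2) =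
          N * (8 * C1 ^ 8 * (Λ ^ 6 * (e * H ^ 6 * M ^ 3))) := by ring
      have d3 : (w ^ 2 * N) ^ 2 = N * (w ^ 4 * N) := by ring
      rw [d3] at c2
      have d4 := le_of_mul_le_mul_left ((c2.trans d1).trans_eq d2) hN0
      have d5 : C1 ^ 8 ≤ C1 ^ 9 := pow_le_pow_right₀ hC1 (by norm_num)
      have d6 : 8 * C1 ^ 8 * (Λ ^ 6 * (e * H ^ 6 * M ^ 3)) ≤
          8 * C1 ^ 9 * (Λ ^ 6 * (e * H ^ 6 * M ^ 3)) :=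
        mul_le_mul_of_nonneg_right (by linarith) (by positivity)
      have d7 : 8 * C1 ^ 9 * Λ ^ 6 * (e * H ^ 6 * M ^ 3 / N) =
          8 * C1 ^ 9 * (Λ ^ 6 * (e * H ^ 6 * M ^ 3)) / N := by ring
      rw [d7, le_div_iff₀ hN0]
      exact d4.trans d6
    · right
      have d1 : 4 * C1 ^ 6 * Λ ^ 6 * P ^ 2 * H ^ 4 * e * M * (N * H ^ 2 + H * P * w ^ 2) ≤
          4 * C1 ^ 6 * Λ ^ 6 * P ^ 2 * H ^ 4 * e * M * (H * P * w ^ 2 + H * P * w ^ 2) := by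
        gcongr
      have d2 : 4 * C1 ^ 6 * Λ ^ 6 * P ^ 2 * H ^ 4 * e * M * (H * P * w ^ 2 + H * P * w ^ 2) =
          w ^ 2 * (8 * C1 ^ 6 * Λ ^ 6 * P ^ 3 * H ^ 5 * e * M) := by ring
      have d3 : (w ^ 2 * N) ^ 2 = w ^ 2 * (w ^ 2 * N ^ 2) := by ring
      rw [d3] at c2
      have hw2 : 0 < w ^ 2 := by positivity
      have d4 := le_of_mul_le_mul_left ((c2.trans d1).trans_eq d2) hw2
      have d6 : 8 * C1 ^ 6 * Λ ^ 6 * P ^ 3 * H ^ 5 * e * M ≤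
          8 * C1 ^ 6 * Λ ^ 6 * (C1 * M) ^ 3 * H ^ 5 * e * M := by gcongr
      have d7 : 8 * C1 ^ 9 * Λ ^ 6 * (e * H ^ 5 * M ^ 4 / N ^ 2) =
          8 * C1 ^ 6 * Λ ^ 6 * (C1 * M) ^ 3 * H ^ 5 * e * M / N ^ 2 := by ring
      rw [d7, le_div_iff₀ (by positivity)]
      exact d4.trans d6

end Pool.Agent.LibSX15
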