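import Pool.Agent.LibEX15.MS1
import Pool.Agent.LibEX15.ME1
import Pool.Agent.LibSX15.LVD4

/-! ROW [EX MM1] (uses LV_sumB2, LV_exp2 as stated; LV_count, LV_step1, LV_dyadic; look at `LV_main`, LibSX15/LVD4.lean, and copy its frame).
PLAN. `LVH` from the hypotheses.  `LV_count` gives `Win C1 N H W` (C1 from LV_count). `LV_step1`: either `|W| ≤ C H` (first alternative) or
`|W|² N/H ≤ C ∑_{p ≤ C0 M} √(N/p) ‖B_p‖`; `LV_dyadic` (f p = √(N/p) ‖B_p‖): `≤ C Λ ∑_{P ≤ p < 2P} √(N/p)‖B_p‖ ≤ C Λ √(N/P) ∑ ‖B_p‖`, `1 ≤ P ≤ C0 M`; LV_sumB2, LV_exp2. -/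

set_option autoImplicit false

namespace Pool.Agent.LibSX15

open Finset

theorem LV_main2 (C0 : ℝ) (hC0 : 1 ≤ C0) : ∃ C : ℝ, MP2 C 6 C0 := by
  obtain ⟨Cc, hCc, count⟩ := LV_count C0 hC0
  obtain ⟨Cs, hCs, step1⟩ := LV_step1 C0 hC0
  obtain ⟨Cd, hCd, dyad⟩ := LV_dyadic C0 hC0
  obtain ⟨C3, hC3, sumB⟩ := LV_sumB2 C0 Cc hC0 hCc
  have hC1 : 1 ≤ max (Cs * Cd) (max C0 C3) := le_max_of_le_right (le_max_of_le_left hC0)
  set C1 := max (Cs * Cd) (max C0 C3) with hC1d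
  obtain ⟨Ce, hCe, exp2⟩ := LV_exp2 C1 hC1
  set C := Cc + Cs + C3 + Ce with hC
  refine ⟨C, by linarith, ?_⟩
  intro d hd S hS hSpc Λ Y H a W hΛ hlog hY ha haS hW hD hH hErr hbig
  have hN : 2 ≤ d.N := hd.hN
  have hN0 : 0 < d.N := by linarith
  have hM : 1 ≤ d.M := hd.hM
  have hM0 : 0 < d.M := by linarith
  have hε : 0 ≤ d.ε := hd.hε
  have hErr1 : 1 ≤ d.Err := hd.hErr
  have hΛ0 : 0 < Λ := by linarith
  have hH0 : 0 < H := by rw [hH]; positivity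
  have hLVH : LVH d C0 Λ Y H a W := ⟨hd, hΛ, hY, ha, hW, hD, hH⟩
  have hErrc : Cc * H * d.Err ≤ d.N := by
    refine le_trans ?_ hErr
    gcongr
    linarith
  have hErrs : Cs * H * d.Err ≤ d.N := by
    refine le_trans ?_ hErr
    gcongr
    linarith
  have hbig3 : C3 * (1 + d.ε) * d.M ^ 2 ≤ d.N := by
    refine le_trans ?_ hbig
    gcongr
    linarith
  have hWin := count d Λ Y H a W hLVH hErrc
  rcases step1 d Λ Y H a W hLVH hErrs with h1 | ⟨c, hc, h1⟩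
  · left
    refine h1.trans ?_
    gcongr
    linarith
  right
  obtain ⟨P, hP1, hPM, h2⟩ := dyad d.M Λ hM hlog (fun p => Real.sqrt (d.N / p) * ‖d.B W c p‖)
    (fun p => by positivity)
  have hP0 : (1 : ℝ) ≤ P := by exact_mod_cast hP1
  obtain ⟨s, hs⟩ : ∃ s : ℝ, s = ∑ p ∈ Finset.Ico P (2 * P), ‖d.B W c p‖ := ⟨_, rfl⟩
  have hs0 : 0 ≤ s := by
    rw [hs]
    exact Finset.sum_nonneg fun _ _ => norm_nonneg _
  have h3 : ∑ p ∈ Finset.Ico P (2 * P), Real.sqrt (d.N / p) * ‖d.B W c p‖ ≤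
      Real.sqrt (d.N / P) * s := by
    rw [hs, Finset.mul_sum]
    refine Finset.sum_le_sum fun p hp => ?_
    have hPp : (P : ℝ) ≤ p := by exact_mod_cast (Finset.mem_Ico.mp hp).1
    gcongr
  have h4 : (W.card : ℝ) ^ 2 * d.N / H ≤ C1 * Λ * (Real.sqrt (d.N / P) * s) := by
    calc (W.card : ℝ) ^ 2 * d.N / H
        ≤ Cs * ∑ p ∈ Finset.Icc 1 ⌊C0 * d.M⌋₊, Real.sqrt (d.N / p) * ‖d.B W c p‖ := h1
      _ ≤ Cs * (Cd * Λ * ∑ p ∈ Finset.Ico P (2 * P), Real.sqrt (d.N / p) * ‖d.B W c p‖) := by gcongr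
      _ ≤ Cs * (Cd * Λ * (Real.sqrt (d.N / P) * s)) := by gcongr
      _ = (Cs * Cd) * Λ * (Real.sqrt (d.N / P) * s) := by ring
      _ ≤ C1 * Λ * (Real.sqrt (d.N / P) * s) := by
        gcongr
        exact le_max_left _ _
  have h5 : s ^ 2 ≤ C1 * (P * (W.card : ℝ)) ^ 2 * (Λ * Real.sqrt ((1 + d.ε) * d.M * d.N) *
        Real.sqrt (H ^ 2 + H * P * (W.card : ℝ) ^ 2 / d.N) + H ^ 2) := by
    have h6 := sumB d S Λ Y H a W c hLVH hS hSpc haS hWin hc hlog hbig3 P hP1 hPM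
    rw [← hs] at h6
    refine h6.trans ?_
    gcongr
    exact (le_max_right _ _).trans (le_max_right _ _)
  have hPM1 : (P : ℝ) ≤ C1 * d.M := by
    refine hPM.trans ?_
    gcongr
    exact (le_max_left _ _).trans (le_max_right _ _)
  have hCC : Ce ≤ C := by linarith
  have hfin : ∀ x : ℝ, 0 ≤ x → Ce * Λ ^ 6 * x ≤ C * Λ ^ 6 * x := by
    intro x hx
    gcongr
  rcases exp2 W.card d.N d.M H Λ P (1 + d.ε) s (by positivity) (by linarith) hM hH0 hΛ hP0 hPM1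
    (by linarith) hs0 h4 h5 with h | h | h
  · exact Or.inl (h.trans (hfin _ (by positivity)))
  · exact Or.inr (Or.inl (h.trans (hfin _ (by positivity))))
  · exact Or.inr (Or.inr (h.trans (hfin _ (by positivity))))

end Pool.Agent.LibSX15
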