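import Pool.Agent.LibEX15.MW2
import Pool.Agent.LibSX15.LVD2

/-! ROW [EX MS1] (uses LV_win2 as stated, LVD2_B, LVD2_split; as `LV_sumB`, LibSX15/LVD2.lean).
PLAN. `(∑_p ‖B_p‖)² ≤ P ∑_p ‖B_p‖² ≤ P |W| ∑_p ∑_s ‖..‖²`; windows `s0 = n0 i`, `n0 = ⌊N/(1+ε)⌋₊` (`N ≥ 2(1+ε)` from `C(1+ε)M² ≤ N`, so `n0 ≥ 1`, `N ≤ 2 n0 (1+ε)`),
`I = ⌊MN/n0⌋₊ + 1 ≤ 3 (1+ε) M` windows; `∑_i √(N |W_i|) ≤ √(N I |W|)` (lvd_sqrt_sum), `∑_i |W_i| = |W|`.  So
`∑_p ∑_s ≤ C (√(3(1+ε)MN|W|) Λ P √(H²|W| + (HP/N)|W|³) + P |W| H²) ≤ C' P |W| (Λ √((1+ε)MN) √(H² + HP|W|²/N) + H²)`. -/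

set_option autoImplicit false

namespace Pool.Agent.LibSX15

open Finset

theorem LV_sumB2 (C0 C1 : ℝ) (hC0 : 1 ≤ C0) (hC1 : 1 ≤ C1) : ∃ C : ℝ, 1 ≤ C ∧
    ∀ (d : Dat) (S : Finset ℕ) (Λ Y H : ℝ) (a : ℕ → ℂ) (W : Finset ℤ) (c : ℤ → ℂ),
    LVH d C0 Λ Y H a W → S ⊆ d.S → Spc d.N S d.ξ → (∀ n, n ∉ S → a n = 0) →
    Win C1 d.N H W → (∀ t, ‖c t‖ = 1) → Real.log d.M + 1 ≤ Λ → C * (1 + d.ε) * d.M ^ 2 ≤ d.N →
    ∀ P : ℕ, 1 ≤ P → (P : ℝ) ≤ C0 * d.M →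
    (∑ p ∈ Finset.Ico P (2 * P), ‖d.B W c p‖) ^ 2 ≤
      C * (P * W.card) ^ 2 * (Λ * Real.sqrt ((1 + d.ε) * d.M * d.N) *
        Real.sqrt (H ^ 2 + H * P * (W.card : ℝ) ^ 2 / d.N) + H ^ 2) := by
  obtain ⟨Cw, hCw, win⟩ := LV_win2 C0 C1 hC0 hC1
  refine ⟨4 * Cw, by linarith, ?_⟩
  intro d S Λ Y H a W c hLVH hS hSpc haS hWin hc hMΛ hCN P hP hPM
  have hN : 2 ≤ d.N := hLVH.good.hN
  have hN0 : 0 < d.N := by linarith
  have hM : 1 ≤ d.M := hLVH.good.hM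
  have hM0 : 0 < d.M := by linarith
  have hε0 : 0 ≤ d.ε := hLVH.good.hε
  have hΛ : 1 ≤ Λ := hLVH.hΛ
  have hΛ0 : 0 < Λ := by linarith
  have hY := hLVH.hY
  have hH0 : 0 < H := by rw [hLVH.hH]; positivity
  have hC0' : 0 < Cw := by linarith
  have he1 : 1 ≤ 1 + d.ε := by linarith
  have he0 : 0 < 1 + d.ε := by linarith
  have hM2 : 1 ≤ d.M ^ 2 := one_le_pow₀ hM
  have hCN1 : Cw * (1 + d.ε) * d.M ^ 2 ≤ d.N := by
    refine le_trans ?_ hCN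
    have h1 : 0 ≤ Cw * (1 + d.ε) * d.M ^ 2 := by positivity
    nlinarith
  have hN4 : 4 * (1 + d.ε) ≤ d.N := by
    refine le_trans ?_ hCN
    calc 4 * (1 + d.ε) = 4 * 1 * (1 + d.ε) * 1 := by ring
      _ ≤ 4 * Cw * (1 + d.ε) * d.M ^ 2 := by gcongr
  have hQ4 : 4 ≤ d.N / (1 + d.ε) := by
    rw [le_div_iff₀ he0]
    exact hN4
  set n0 := ⌊d.N / (1 + d.ε)⌋₊ with hn0
  have hn1 : 1 ≤ n0 := by
    rw [hn0, Nat.one_le_floor_iff]; linarith
  have hn1' : (1 : ℝ) ≤ n0 := by exact_mod_cast hn1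
  have hnN : (n0 : ℝ) * (1 + d.ε) ≤ d.N := by
    have h1 : (n0 : ℝ) ≤ d.N / (1 + d.ε) := Nat.floor_le (by positivity)
    rwa [le_div_iff₀ he0] at h1
  have hNn : d.N ≤ 2 * n0 * (1 + d.ε) := by
    have h1 : d.N / (1 + d.ε) ≤ 2 * n0 := by
      have := (Nat.lt_floor_add_one (d.N / (1 + d.ε))).le
      rw [← hn0] at this
      linarith
    rwa [div_le_iff₀ he0] at h1
  have hNn4 : d.N ≤ 4 * (n0 * (1 + d.ε)) := by
    have h1 : 0 ≤ (n0 : ℝ) * (1 + d.ε) := by positivity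
    linarith
  set I := ⌊2 * (1 + d.ε) * d.M⌋₊ + 1 with hI
  have heM : 1 ≤ (1 + d.ε) * d.M := by nlinarith
  have hI3 : (I : ℝ) ≤ 3 * ((1 + d.ε) * d.M) := by
    have := Nat.floor_le (by positivity : 0 ≤ 2 * (1 + d.ε) * d.M)
    rw [hI]
    push_cast
    linarith
  have hW0 : ∀ s ∈ W, 0 ≤ s := by
    intro s hs
    have := (hLVH.hW s hs).1
    exact_mod_cast this
  have hWI : ∀ s ∈ W, s < (n0 : ℤ) * I := by
    intro s hs
    have h4 := (hLVH.hW s hs).2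
    have h5 : 2 * (1 + d.ε) * d.M < I := by
      rw [hI]; push_cast
      exact Nat.lt_floor_add_one _
    have h6 : (s : ℝ) < n0 * I := by
      calc (s : ℝ) ≤ d.M * d.N := h4
        _ ≤ d.M * (2 * n0 * (1 + d.ε)) := by gcongr
        _ = n0 * (2 * (1 + d.ε) * d.M) := by ring
        _ < n0 * I := by gcongr
    exact_mod_cast h6
  set F : ℕ → ℤ → ℝ := fun p s => ‖∑ t ∈ W, c t * d.chirp p ((t : ℝ) - s)‖ ^ 2 with hF
  set Wi : ℕ → Finset ℤ := fun i =>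
    W.filter (fun s => ((n0 * i : ℕ) : ℤ) ≤ s ∧ s < ((n0 * i : ℕ) : ℤ) + n0) with hWi
  have hcard : ∑ i ∈ range I, ((Wi i).card : ℝ) = W.card := by
    have := LVD2_split W n0 I hn1 hW0 hWI (fun _ => 1)
    simp only [Finset.sum_const, nsmul_eq_mul, mul_one] at this
    rw [this]
  have hsplit : ∑ p ∈ Finset.Ico P (2 * P), ∑ s ∈ W, F p s =
      ∑ i ∈ range I, ∑ p ∈ Finset.Ico P (2 * P), ∑ s ∈ Wi i, F p s := by
    rw [Finset.sum_comm (s := range I)]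
    refine Finset.sum_congr rfl fun p _ => ?_
    exact LVD2_split W n0 I hn1 hW0 hWI (F p)
  set A : ℝ := Λ * P * Real.sqrt (H ^ 2 * W.card + H * P / d.N * (W.card : ℝ) ^ 3) with hA
  set E : ℝ := P * H ^ 2 with hE
  have hA0 : 0 ≤ A := by positivity
  have hwin : ∀ i ∈ range I, ∑ p ∈ Finset.Ico P (2 * P), ∑ s ∈ Wi i, F p s ≤
      Cw * (Real.sqrt d.N * A * Real.sqrt ((Wi i).card : ℝ) + E * (Wi i).card) := by
    intro i _
    have := win d S Λ Y H a W c hLVH hS hSpc haS hWin hc hMΛ hCN1 P n0 ((n0 * i : ℕ) : ℤ) hP hPM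
      hn1 hnN hNn4
    refine this.trans (le_of_eq ?_)
    rw [Real.sqrt_mul hN0.le]
    rw [hA, hE, hWi]
    ring
  have hsqrt : ∑ i ∈ range I, Real.sqrt ((Wi i).card : ℝ) ≤
      2 * Real.sqrt ((1 + d.ε) * d.M * W.card) := by
    have h7 : (∑ i ∈ range I, Real.sqrt ((Wi i).card : ℝ)) ^ 2 ≤
        (2 * Real.sqrt ((1 + d.ε) * d.M * W.card)) ^ 2 := by
      calc (∑ i ∈ range I, Real.sqrt ((Wi i).card : ℝ)) ^ 2
          ≤ (range I).card * ∑ i ∈ range I, Real.sqrt ((Wi i).card : ℝ) ^ 2 :=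
            sq_sum_le_card_mul_sum_sq
        _ = I * W.card := by
          rw [Finset.card_range]
          congr 1
          rw [← hcard]
          refine Finset.sum_congr rfl fun i _ => ?_
          rw [Real.sq_sqrt (by positivity)]
        _ ≤ 3 * ((1 + d.ε) * d.M) * W.card := by gcongr
        _ ≤ 4 * ((1 + d.ε) * d.M * W.card) := by
          have : 0 ≤ (1 + d.ε) * d.M * W.card := by positivity
          linarith
        _ = (2 * Real.sqrt ((1 + d.ε) * d.M * W.card)) ^ 2 := by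
          rw [mul_pow, Real.sq_sqrt (by positivity)]; norm_num
    exact le_of_pow_le_pow_left₀ (by norm_num) (by positivity) h7
  have hmain : ∑ p ∈ Finset.Ico P (2 * P), ∑ s ∈ W, F p s ≤
      Cw * (Real.sqrt d.N * A * (2 * Real.sqrt ((1 + d.ε) * d.M * W.card)) + E * W.card) := by
    rw [hsplit]
    calc ∑ i ∈ range I, ∑ p ∈ Finset.Ico P (2 * P), ∑ s ∈ Wi i, F p s
        ≤ ∑ i ∈ range I, Cw * (Real.sqrt d.N * A * Real.sqrt ((Wi i).card : ℝ) +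
            E * (Wi i).card) := Finset.sum_le_sum hwin
      _ = Cw * (Real.sqrt d.N * A * (∑ i ∈ range I, Real.sqrt ((Wi i).card : ℝ)) +
            E * ∑ i ∈ range I, ((Wi i).card : ℝ)) := by
          rw [← Finset.mul_sum, Finset.sum_add_distrib, Finset.mul_sum, Finset.mul_sum]
      _ ≤ _ := by
          rw [hcard]
          gcongr
  have hprod : Real.sqrt d.N * A * Real.sqrt ((1 + d.ε) * d.M * W.card) =
      P * W.card * (Λ * Real.sqrt ((1 + d.ε) * d.M * d.N) *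
        Real.sqrt (H ^ 2 + H * P * (W.card : ℝ) ^ 2 / d.N)) := by
    have h8 : H ^ 2 * W.card + H * P / d.N * (W.card : ℝ) ^ 3 =
        W.card * (H ^ 2 + H * P * (W.card : ℝ) ^ 2 / d.N) := by ring
    have h9 : Real.sqrt ((1 + d.ε) * d.M * W.card) =
        Real.sqrt ((1 + d.ε) * d.M) * Real.sqrt W.card := Real.sqrt_mul (by positivity) _
    have h10 : Real.sqrt ((1 + d.ε) * d.M * d.N) =
        Real.sqrt ((1 + d.ε) * d.M) * Real.sqrt d.N := Real.sqrt_mul (by positivity) _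
    have h11 : Real.sqrt (W.card : ℝ) * Real.sqrt (W.card : ℝ) = W.card :=
      Real.mul_self_sqrt (by positivity)
    rw [hA, h8, Real.sqrt_mul (by positivity : (0 : ℝ) ≤ W.card), h9, h10]
    calc Real.sqrt d.N * (Λ * P * (Real.sqrt (W.card : ℝ) *
          Real.sqrt (H ^ 2 + H * P * (W.card : ℝ) ^ 2 / d.N))) *
          (Real.sqrt ((1 + d.ε) * d.M) * Real.sqrt (W.card : ℝ))
        = (Real.sqrt (W.card : ℝ) * Real.sqrt (W.card : ℝ)) * (P * (Λ *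
          (Real.sqrt ((1 + d.ε) * d.M) * Real.sqrt d.N) *
          Real.sqrt (H ^ 2 + H * P * (W.card : ℝ) ^ 2 / d.N))) := by ring
      _ = _ := by rw [h11]; ring
  calc (∑ p ∈ Finset.Ico P (2 * P), ‖d.B W c p‖) ^ 2
      ≤ (Finset.Ico P (2 * P)).card * ∑ p ∈ Finset.Ico P (2 * P), ‖d.B W c p‖ ^ 2 :=
        sq_sum_le_card_mul_sum_sq
    _ = P * ∑ p ∈ Finset.Ico P (2 * P), ‖d.B W c p‖ ^ 2 := by
        rw [Nat.card_Ico]
        congr 2
        omega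
    _ ≤ P * ∑ p ∈ Finset.Ico P (2 * P), (W.card * ∑ s ∈ W, F p s) := by
        gcongr with p _
        exact LVD2_B d W c hc p
    _ = P * W.card * ∑ p ∈ Finset.Ico P (2 * P), ∑ s ∈ W, F p s := by
        rw [← Finset.mul_sum]; ring
    _ ≤ P * W.card * (Cw * (Real.sqrt d.N * A * (2 * Real.sqrt ((1 + d.ε) * d.M * W.card)) +
          E * W.card)) := by
        gcongr
    _ = P * W.card * (Cw * (2 * (Real.sqrt d.N * A * Real.sqrt ((1 + d.ε) * d.M * W.card)) +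
          E * W.card)) := by ring
    _ = Cw * (P * W.card) ^ 2 * (2 * (Λ * Real.sqrt ((1 + d.ε) * d.M * d.N) *
          Real.sqrt (H ^ 2 + H * P * (W.card : ℝ) ^ 2 / d.N)) + H ^ 2) := by
        rw [hprod, hE]; ring
    _ ≤ Cw * (P * W.card) ^ 2 * (4 * (Λ * Real.sqrt ((1 + d.ε) * d.M * d.N) *
          Real.sqrt (H ^ 2 + H * P * (W.card : ℝ) ^ 2 / d.N)) + 4 * H ^ 2) := by
        have h12 : 0 ≤ Λ * Real.sqrt ((1 + d.ε) * d.M * d.N) *
          Real.sqrt (H ^ 2 + H * P * (W.card : ℝ) ^ 2 / d.N) := by positivity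
        have h13 : 0 ≤ H ^ 2 := by positivity
        gcongr
        · linarith
        · linarith
    _ = _ := by ring

end Pool.Agent.LibSX15
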