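import Pool.Agent.LibEX15.MC1
import Pool.Agent.LibEX15.MA3
import Pool.Agent.LibSX15.LVD1

/-! ROW [EX MW1] (uses LV_cells2, LV_approx2, ee/sum_taylor_le, exists_taylor as stated; as the step `hone` of `LV_win`, LibSX15/LVD1.lean).
One `p`, one window.  `E` is a bound for the energies of all the weights `u_a κ = ‖U W (cx c P a) P s0 p κ‖`, on the clusters which are seen.
PLAN. `A0 ≥ 7` with `P π^A0/A0! ≤ 1` (exists_taylor).  `r = P y/(2pN')`, `2π r ≤ π` (`y ≤ n0 ≤ N`), so by LV_approx2, for `s = s0 + y ∈ Ws`: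
`‖∑_t c chirp‖ ≤ 2CH + ∑_{a<A0} (π^a/a!) ‖gA a y‖`; square (`(x+y)² ≤ 2x²+2y²`, Cauchy-Schwarz with the weights `π^a/a!`, sum `≤ exp π`):
`≤ 8C²H² + 2 exp π ∑_a (π^a/a!) ‖gA a y‖²`.  Sum over `s ∈ Ws`; for every `a`: `∑_{s ∈ Ws} ‖gA a (s - s0)‖² ≤ C √(Ek ..u_a) √(N |Ws|)` by LV_cells2 (`L = P`,
`K` = the filtered clusters, `β κ = w ee(ph) U`, `‖β‖ ≤ C0 u_a`; clusters outside `K` have `w = 0` by LV_vanish, as in LVD1). -/

set_option autoImplicit false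

namespace Pool.Agent.LibSX15

open Finset

/-- one `a`: the sum over the window of `‖gA a‖²` -/
theorem mw1_gA (C0 CC : ℝ) (d : Dat) (hd : d.Good C0) (W : Finset ℤ) (c : ℤ → ℂ)
    (hC : ∀ (P L p n0 : ℕ) (s0 : ℤ) (K S : Finset ℤ) (β : ℤ → ℂ) (u : ℤ → ℝ), 1 ≤ P → 1 ≤ L →
      L ≤ P → P ≤ p → p < 2 * P → 1 ≤ n0 → (n0 : ℝ) * (1 + d.ε) ≤ d.N →
      d.N ≤ 4 * (n0 * (1 + d.ε)) →
      CC * d.ε ≤ d.N → (∀ y ∈ S, 0 ≤ y ∧ y < n0) →
      (∀ κ ∈ K, 0 ≤ u κ) → (∀ κ ∈ K, ‖β κ‖ ≤ C0 * u κ) →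
      (∀ κ ∈ K, u κ ≠ 0 → d.w (d.zz p ((L * κ - s0 : ℤ) : ℝ)) ≠ 0) →
      ∑ y ∈ S, ‖∑ κ ∈ K, β κ * ee (-(d.nu p ((L * κ - s0 : ℤ) : ℝ) * y))‖ ^ 2 ≤
        CC * Real.sqrt (Ek L P K u) * Real.sqrt (d.N * S.card))
    (hεC : CC * d.ε ≤ d.N) (P p n0 : ℕ) (s0 : ℤ) (hP1 : 1 ≤ P) (hp1 : P ≤ p) (hp2 : p < 2 * P)
    (hn1 : 1 ≤ n0) (hn0 : (n0 : ℝ) * (1 + d.ε) ≤ d.N) (hn4 : d.N ≤ 4 * (n0 * (1 + d.ε))) (a : ℕ) :
    ∑ s ∈ W.filter (fun s => s0 ≤ s ∧ s < s0 + n0), ‖gA d W c P p a s0 (s - s0)‖ ^ 2 ≤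
      CC * Real.sqrt (Ek P P ((Ks W P).filter (fun κ => 0 < ((P * κ - s0 : ℤ) : ℝ) ∧
        ((P * κ - s0 : ℤ) : ℝ) ≤ C0 * P * d.N)) (fun κ => ‖d.U W (cx c P a) P s0 p κ‖)) *
      Real.sqrt (d.N * (W.filter (fun s => s0 ≤ s ∧ s < s0 + n0)).card) := by
  classical
  set K : Finset ℤ := (Ks W P).filter (fun κ => 0 < ((P * κ - s0 : ℤ) : ℝ) ∧
    ((P * κ - s0 : ℤ) : ℝ) ≤ C0 * P * d.N) with hK
  set Ws : Finset ℤ := W.filter (fun s => s0 ≤ s ∧ s < s0 + n0) with hWs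
  set β : ℤ → ℂ := fun κ => (d.w (d.zz p ((P * κ - s0 : ℤ) : ℝ)) : ℂ) *
    ee (d.ph p ((P * κ - s0 : ℤ) : ℝ)) * d.U W (cx c P a) P s0 p κ with hβ
  set g : ℤ → ℂ := fun y => ∑ κ ∈ K, β κ * ee (-(d.nu p ((P * κ - s0 : ℤ) : ℝ) * y)) with hg
  have hKs : ∀ y : ℤ, gA d W c P p a s0 y = g y := by
    intro y
    rw [hg, hK, gA]
    symm
    refine Finset.sum_subset (Finset.filter_subset _ _) fun κ hκ hκ' => ?_
    have hw0 : d.w (d.zz p ((P * κ - s0 : ℤ) : ℝ)) = 0 := by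
      by_contra hne
      apply hκ'
      rw [Finset.mem_filter]
      exact ⟨hκ, LV_vanish C0 d hd P p _ hP1 hp1 hp2 hne⟩
    simp only [hβ]
    rw [hw0]
    simp
  set S : Finset ℤ := Ws.image (fun s => s - s0) with hSdef
  have hinj : Set.InjOn (fun s : ℤ => s - s0) (Ws : Set ℤ) := fun x _ y _ h => by
    simpa using h
  have hcard : S.card = Ws.card := Finset.card_image_of_injOn hinj
  have hsum : ∑ s ∈ Ws, ‖gA d W c P p a s0 (s - s0)‖ ^ 2 = ∑ y ∈ S, ‖g y‖ ^ 2 := by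
    rw [hSdef, Finset.sum_image hinj]
    exact Finset.sum_congr rfl fun s _ => by rw [hKs]
  rw [hsum, ← hcard]
  refine hC P P p n0 s0 K S β (fun κ => ‖d.U W (cx c P a) P s0 p κ‖) hP1 hP1 le_rfl hp1 hp2 hn1
    hn0 hn4 hεC ?_ (fun κ _ => norm_nonneg _) ?_ ?_
  · intro y hy
    rw [hSdef, Finset.mem_image] at hy
    obtain ⟨s, hs, rfl⟩ := hy
    rw [hWs, Finset.mem_filter] at hs
    constructor <;> linarith [hs.2.1, hs.2.2]
  · intro κ _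
    simp only [hβ]
    rw [norm_mul, norm_mul, norm_ee, mul_one, Complex.norm_real, Real.norm_eq_abs]
    exact mul_le_mul_of_nonneg_right (hd.hw _) (norm_nonneg _)
  · intro κ _ hne hw0
    apply hne
    rw [Dat.U, if_pos hw0, norm_zero]

/-- Cauchy-Schwarz with the weights `π^a/a!` -/
theorem mw1_cs (A0 : ℕ) (x : ℕ → ℝ) :
    (∑ a ∈ range A0, Real.pi ^ a / (a.factorial : ℝ) * x a) ^ 2 ≤
      Real.exp Real.pi * ∑ a ∈ range A0, Real.pi ^ a / (a.factorial : ℝ) * x a ^ 2 := by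
  have hpos : ∀ a : ℕ, 0 ≤ Real.pi ^ a / (a.factorial : ℝ) := fun a => by positivity
  have h1 := Finset.sum_mul_sq_le_sq_mul_sq (range A0)
    (fun a => Real.sqrt (Real.pi ^ a / (a.factorial : ℝ)))
    (fun a => Real.sqrt (Real.pi ^ a / (a.factorial : ℝ)) * x a)
  have e1 : ∑ a ∈ range A0, Real.sqrt (Real.pi ^ a / (a.factorial : ℝ)) *
      (Real.sqrt (Real.pi ^ a / (a.factorial : ℝ)) * x a) =
      ∑ a ∈ range A0, Real.pi ^ a / (a.factorial : ℝ) * x a :=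
    Finset.sum_congr rfl fun a _ => by
      rw [← mul_assoc, Real.mul_self_sqrt (hpos a)]
  have e2 : ∑ a ∈ range A0, Real.sqrt (Real.pi ^ a / (a.factorial : ℝ)) ^ 2 =
      ∑ a ∈ range A0, Real.pi ^ a / (a.factorial : ℝ) :=
    Finset.sum_congr rfl fun a _ => Real.sq_sqrt (hpos a)
  have e3 : ∑ a ∈ range A0, (Real.sqrt (Real.pi ^ a / (a.factorial : ℝ)) * x a) ^ 2 =
      ∑ a ∈ range A0, Real.pi ^ a / (a.factorial : ℝ) * x a ^ 2 :=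
    Finset.sum_congr rfl fun a _ => by
      rw [mul_pow, Real.sq_sqrt (hpos a)]
  rw [e1, e2, e3] at h1
  refine h1.trans ?_
  refine mul_le_mul_of_nonneg_right (sum_taylor_le Real.pi Real.pi_pos.le A0) ?_
  exact Finset.sum_nonneg fun a _ => mul_nonneg (hpos a) (sq_nonneg _)

theorem LV_one2 (C0 C1 : ℝ) (hC0 : 1 ≤ C0) (hC1 : 1 ≤ C1) : ∃ C : ℝ, 1 ≤ C ∧
    ∀ (d : Dat) (H : ℝ) (W : Finset ℤ) (c : ℤ → ℂ), d.Good C0 → 0 ≤ H → Win C1 d.N H W →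
    (∀ t, ‖c t‖ ≤ 1) → C * d.ε ≤ d.N → ∀ (P p n0 : ℕ) (s0 : ℤ) (E : ℕ → ℝ), 1 ≤ P →
    (P : ℝ) ^ 2 * (1 + d.ε) ≤ d.N → P ≤ p → p < 2 * P → 1 ≤ n0 → (n0 : ℝ) * (1 + d.ε) ≤ d.N →
    d.N ≤ 4 * (n0 * (1 + d.ε)) →
    (∀ a : ℕ, E a = Real.sqrt (Ek P P ((Ks W P).filter (fun κ => 0 < ((P * κ - s0 : ℤ) : ℝ) ∧
      ((P * κ - s0 : ℤ) : ℝ) ≤ C0 * P * d.N)) (fun κ => ‖d.U W (cx c P a) P s0 p κ‖))) →
    ∃ A0 : ℕ, ∑ s ∈ W.filter (fun s => s0 ≤ s ∧ s < s0 + n0),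
        ‖∑ t ∈ W, c t * d.chirp p ((t : ℝ) - s)‖ ^ 2 ≤
      C * (H ^ 2 * (W.filter (fun s => s0 ≤ s ∧ s < s0 + n0)).card +
        Real.sqrt (d.N * (W.filter (fun s => s0 ≤ s ∧ s < s0 + n0)).card) *
          ∑ a ∈ range A0, Real.pi ^ a / (a.factorial : ℝ) * E a) := by
  classical
  obtain ⟨CA, hCA, hA⟩ := LV_approx2 C0 C1 hC0 hC1
  obtain ⟨CC, hCC, hC⟩ := LV_cells2 C0 hC0
  have hexp : 0 < Real.exp Real.pi := Real.exp_pos _
  have hx1 : 0 ≤ 2 * Real.exp Real.pi * CC := by positivity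
  have hx2 : 0 ≤ 8 * CA ^ 2 := by positivity
  refine ⟨CC + 8 * CA ^ 2 + 2 * Real.exp Real.pi * CC, by linarith, ?_⟩
  intro d H W c hd hH0 hWin hc hCε P p n0 s0 E hP1 hPN hp1 hp2 hn1 hn0 hn4 hE
  have hN2 : 2 ≤ d.N := hd.hN
  have hN0 : 0 < d.N := by linarith
  have hε0 : 0 ≤ d.ε := hd.hε
  have hεC : CC * d.ε ≤ d.N := by
    refine le_trans (mul_le_mul_of_nonneg_right ?_ hε0) hCε
    linarith
  have hP1R : (1 : ℝ) ≤ P := by exact_mod_cast hP1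
  have hp1R : (P : ℝ) ≤ p := by exact_mod_cast hp1
  obtain ⟨A0, hA7, hA0⟩ := exists_taylor Real.pi P Real.pi_pos.le 7
  refine ⟨A0, ?_⟩
  set Ws : Finset ℤ := W.filter (fun s => s0 ≤ s ∧ s < s0 + n0) with hWs
  have hpt : ∀ s ∈ Ws, ‖∑ t ∈ W, c t * d.chirp p ((t : ℝ) - s)‖ ^ 2 ≤
      8 * CA ^ 2 * H ^ 2 + 2 * (Real.exp Real.pi * ∑ a ∈ range A0,
        Real.pi ^ a / (a.factorial : ℝ) * ‖gA d W c P p a s0 (s - s0)‖ ^ 2) := by
    intro s hs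
    rw [hWs, Finset.mem_filter] at hs
    have hy0 : (0 : ℤ) ≤ s - s0 := by linarith [hs.2.1]
    have hyn : s - s0 < (n0 : ℤ) := by linarith [hs.2.2]
    have h1 := hA d H W c hd hH0 hWin hc P p n0 A0 s0 (s - s0) hP1 hPN hp1 hp2 hn0 hy0 hyn hA7
    have e : ((s0 + (s - s0) : ℤ) : ℝ) = (s : ℝ) := by
      push_cast
      ring
    rw [e] at h1
    set x := ∑ t ∈ W, c t * d.chirp p ((t : ℝ) - s) with hx
    set r : ℝ := P * ((s - s0 : ℤ) : ℝ) / (2 * p * (d.b0 * d.N)) with hr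
    set T : ℂ := ∑ a ∈ range A0, (-(2 * Real.pi * r : ℝ) * Complex.I) ^ a /
      (a.factorial : ℂ) * gA d W c P p a s0 (s - s0) with hT
    have hyR0 : (0 : ℝ) ≤ ((s - s0 : ℤ) : ℝ) := by exact_mod_cast hy0
    have hyRn : ((s - s0 : ℤ) : ℝ) ≤ d.N := by
      have h2 : ((s - s0 : ℤ) : ℝ) ≤ (n0 : ℝ) := by exact_mod_cast hyn.le
      have h3 : (n0 : ℝ) ≤ n0 * (1 + d.ε) := by
        have : (0 : ℝ) ≤ n0 := by positivity
        nlinarith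
      linarith
    have hb1 := hd.hb1
    have hr0 : 0 ≤ r := by
      rw [hr]
      have : 0 ≤ d.b0 := by linarith
      positivity
    have hr1 : 2 * Real.pi * r ≤ Real.pi := by
      have hden : 0 < 2 * (p : ℝ) * (d.b0 * d.N) := by
        have : 0 < d.b0 := by linarith
        have : (0 : ℝ) < p := by linarith
        positivity
      have h2 : r ≤ 1 / 2 := by
        rw [hr, div_le_iff₀ hden]
        have h3 : (P : ℝ) * ((s - s0 : ℤ) : ℝ) ≤ p * d.N :=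
          mul_le_mul hp1R hyRn hyR0 (by linarith)
        have h4 : (p : ℝ) * d.N ≤ p * (d.b0 * d.N) := by
          refine mul_le_mul_of_nonneg_left ?_ (by linarith)
          nlinarith
        linarith
      nlinarith [Real.pi_pos]
    have hTn : ‖T‖ ≤ ∑ a ∈ range A0, Real.pi ^ a / (a.factorial : ℝ) *
        ‖gA d W c P p a s0 (s - s0)‖ := by
      rw [hT]
      refine (norm_sum_le _ _).trans (Finset.sum_le_sum fun a _ => ?_)
      rw [norm_mul]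
      refine mul_le_mul_of_nonneg_right ?_ (norm_nonneg _)
      rw [norm_div, norm_pow, norm_mul, norm_neg, Complex.norm_real, Complex.norm_I, mul_one,
        Real.norm_eq_abs, abs_of_nonneg (by positivity), Complex.norm_natCast]
      refine div_le_div_of_nonneg_right ?_ (by positivity)
      exact pow_le_pow_left₀ (by positivity) hr1 a
    have h2 : ‖x‖ ≤ 2 * CA * H + ‖T‖ := by
      have h3 : ‖x‖ ≤ ‖x - ee (((s - s0 : ℤ) : ℝ) ^ 2 / (4 * p * (d.b0 * d.N))) * T‖ +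
          ‖ee (((s - s0 : ℤ) : ℝ) ^ 2 / (4 * p * (d.b0 * d.N))) * T‖ := by
        have := norm_add_le (x - ee (((s - s0 : ℤ) : ℝ) ^ 2 / (4 * p * (d.b0 * d.N))) * T)
          (ee (((s - s0 : ℤ) : ℝ) ^ 2 / (4 * p * (d.b0 * d.N))) * T)
        rwa [sub_add_cancel] at this
      rw [norm_mul (ee _), norm_ee, one_mul] at h3
      have h4 : CA * H * (1 + P * (Real.pi ^ A0 / A0.factorial)) ≤ CA * H * 2 :=
        mul_le_mul_of_nonneg_left (by linarith) (by positivity)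
      linarith
    have h5 := mw1_cs A0 (fun a => ‖gA d W c P p a s0 (s - s0)‖)
    have h6 : ‖T‖ ^ 2 ≤ Real.exp Real.pi * ∑ a ∈ range A0,
        Real.pi ^ a / (a.factorial : ℝ) * ‖gA d W c P p a s0 (s - s0)‖ ^ 2 :=
      (pow_le_pow_left₀ (norm_nonneg _) hTn 2).trans h5
    have h7 : ‖x‖ ^ 2 ≤ 2 * (2 * CA * H) ^ 2 + 2 * ‖T‖ ^ 2 := by
      have h8 : 0 ≤ 2 * CA * H := by positivity
      nlinarith [norm_nonneg x, norm_nonneg T, sq_nonneg (2 * CA * H - ‖T‖)]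
    have h9 : 2 * (2 * CA * H) ^ 2 = 8 * CA ^ 2 * H ^ 2 := by ring
    linarith
  refine (Finset.sum_le_sum hpt).trans ?_
  rw [Finset.sum_add_distrib, Finset.sum_const, nsmul_eq_mul]
  have hsw : ∑ s ∈ Ws, 2 * (Real.exp Real.pi * ∑ a ∈ range A0,
      Real.pi ^ a / (a.factorial : ℝ) * ‖gA d W c P p a s0 (s - s0)‖ ^ 2) =
      2 * Real.exp Real.pi * ∑ a ∈ range A0, Real.pi ^ a / (a.factorial : ℝ) *
        ∑ s ∈ Ws, ‖gA d W c P p a s0 (s - s0)‖ ^ 2 := by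
    rw [← Finset.mul_sum, ← Finset.mul_sum, Finset.sum_comm, mul_assoc]
    congr 2
    exact Finset.sum_congr rfl fun a _ => by rw [Finset.mul_sum]
  rw [hsw]
  set Q := Real.sqrt (d.N * Ws.card) with hQ
  have hQ0 : 0 ≤ Q := Real.sqrt_nonneg _
  have hE0 : ∀ a, 0 ≤ E a := fun a => by rw [hE]; exact Real.sqrt_nonneg _
  have hpos : ∀ a : ℕ, 0 ≤ Real.pi ^ a / (a.factorial : ℝ) := fun a => by positivity
  have hmain : ∑ a ∈ range A0, Real.pi ^ a / (a.factorial : ℝ) *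
      ∑ s ∈ Ws, ‖gA d W c P p a s0 (s - s0)‖ ^ 2 ≤
      CC * (Q * ∑ a ∈ range A0, Real.pi ^ a / (a.factorial : ℝ) * E a) := by
    calc ∑ a ∈ range A0, Real.pi ^ a / (a.factorial : ℝ) *
        ∑ s ∈ Ws, ‖gA d W c P p a s0 (s - s0)‖ ^ 2
        ≤ ∑ a ∈ range A0, Real.pi ^ a / (a.factorial : ℝ) * (CC * E a * Q) := by
          refine Finset.sum_le_sum fun a _ => mul_le_mul_of_nonneg_left ?_ (hpos a)
          rw [hE a]
          exact mw1_gA C0 CC d hd W c (hC d hd) hεC P p n0 s0 hP1 hp1 hp2 hn1 hn0 hn4 a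
      _ = CC * (Q * ∑ a ∈ range A0, Real.pi ^ a / (a.factorial : ℝ) * E a) := by
          rw [Finset.mul_sum, Finset.mul_sum]
          exact Finset.sum_congr rfl fun a _ => by ring
  have hS0 : 0 ≤ Q * ∑ a ∈ range A0, Real.pi ^ a / (a.factorial : ℝ) * E a :=
    mul_nonneg hQ0 (Finset.sum_nonneg fun a _ => mul_nonneg (hpos a) (hE0 a))
  set R := Q * ∑ a ∈ range A0, Real.pi ^ a / (a.factorial : ℝ) * E a with hR
  have hm2 := mul_le_mul_of_nonneg_left hmain (by positivity : 0 ≤ 2 * Real.exp Real.pi)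
  have hW0 : 0 ≤ H ^ 2 * (Ws.card : ℝ) := by positivity
  have f1 : (Ws.card : ℝ) * (8 * CA ^ 2 * H ^ 2) = 8 * CA ^ 2 * (H ^ 2 * (Ws.card : ℝ)) := by ring
  rw [f1]
  have f2 : 8 * CA ^ 2 * (H ^ 2 * (Ws.card : ℝ)) ≤
      (CC + 8 * CA ^ 2 + 2 * Real.exp Real.pi * CC) * (H ^ 2 * (Ws.card : ℝ)) :=
    mul_le_mul_of_nonneg_right (by linarith) hW0
  have f3 : 2 * Real.exp Real.pi * (CC * R) ≤
      (CC + 8 * CA ^ 2 + 2 * Real.exp Real.pi * CC) * R := by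
    rw [← mul_assoc]
    exact mul_le_mul_of_nonneg_right (by linarith) hS0
  rw [mul_add]
  linarith

end Pool.Agent.LibSX15
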