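import Pool.Agent.LibEX15.FE8
import Pool.Agent.LibEX15.MB1
import Pool.Agent.LibEX15.MW1

/-! ROW [EX MW2] (uses fe8, LV_bessel2, LV_one2, sum_taylor_le as stated). The sum over `p` for one window.
PLAN. `K` = the filtered clusters. For every `p` and `a`: `u = ‖U W (cx c P a) ..‖`, `0 ≤ u κ ≤ mu W P κ` (`‖cx c P a t‖ ≤ 1`; as `lvd_U_le`), `|P(κ-κ')| ≤ C0 P N`, so
fe8 (`A = C0`): `Ek ≤ C (1+log P)² (H² ∑u² + (HP/N)(∑u)³)`, `∑_K u ≤ ∑_K mu ≤ |W|` (LVC8_fib), and by LV_bessel2 `∑_p ∑_K u² ≤ C P ∑_K mu ≤ C P |W|`.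
Hence `∑_p Ek ≤ C (1+log P)² (H² P |W| + P (HP/N) |W|³)` uniformly in `a`, `∑_p √Ek ≤ √(P ∑_p Ek)` (lvd_sqrt_sum).  `1 + log P ≤ 1 + log C0 + log M ≤ (1 + log C0) Λ`.
LV_one2 for every `p` gives an `A0 = A0(p)`: `∑_{a<A0(p)} (π^a/a!) √Ek_{p,a} ≤ ∑_{a<A*}`, `A* = ` the maximum over `p ∈ [P, 2P)`; interchange the sums, `∑_a π^a/a! ≤ exp π`.
`∑_p H² |Ws| = P H² |Ws|`. -/

set_option autoImplicit false

namespace Pool.Agent.LibSX15

open Finset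

theorem mw2_cx (c : ℤ → ℂ) (hc : ∀ t, ‖c t‖ ≤ 1) (P a : ℕ) (hP : 1 ≤ P) (t : ℤ) :
    ‖cx c P a t‖ ≤ 1 := by
  have hP0 : (0 : ℤ) < P := by exact_mod_cast hP
  have hPR : (0 : ℝ) < P := by exact_mod_cast hP
  have h1 := Int.emod_nonneg t hP0.ne'
  have h2 := Int.emod_lt_of_pos t hP0
  have h1R : (0 : ℝ) ≤ ((t % (P : ℤ) : ℤ) : ℝ) := by exact_mod_cast h1
  have h2R : ((t % (P : ℤ) : ℤ) : ℝ) ≤ (P : ℝ) := by exact_mod_cast h2.le
  have hx0 : 0 ≤ ((t % (P : ℤ) : ℤ) : ℝ) / P := div_nonneg h1R hPR.le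
  have hx1 : ((t % (P : ℤ) : ℤ) : ℝ) / P ≤ 1 := by
    rw [div_le_one hPR]
    exact h2R
  unfold cx
  rw [norm_mul, Complex.norm_real, Real.norm_eq_abs, abs_of_nonneg (pow_nonneg hx0 a)]
  calc ‖c t‖ * (((t % (P : ℤ) : ℤ) : ℝ) / P) ^ a ≤ 1 * 1 :=
        mul_le_mul (hc t) (pow_le_one₀ hx0 hx1) (pow_nonneg hx0 a) (by norm_num)
    _ = 1 := one_mul 1

theorem mw2_U_le (d : Dat) (W : Finset ℤ) (c : ℤ → ℂ) (hc : ∀ t, ‖c t‖ ≤ 1) (L : ℕ) (s0 : ℤ)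
    (p : ℕ) (κ : ℤ) : ‖d.U W c L s0 p κ‖ ≤ mu W L κ := by
  unfold Dat.U
  split_ifs
  · rw [norm_zero]
    positivity
  · refine (norm_sum_le _ _).trans ?_
    rw [mu]
    calc ∑ t ∈ W.filter (fun t => t / (L : ℤ) = κ), ‖c t * ee (d.nu p ((L * κ - s0 : ℤ) : ℝ) *
          ((t % (L : ℤ) : ℤ) : ℝ))‖
        ≤ ∑ t ∈ W.filter (fun t => t / (L : ℤ) = κ), (1 : ℝ) :=
          Finset.sum_le_sum fun t _ => by
            rw [norm_mul, norm_ee, mul_one]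
            exact hc t
      _ = ((W.filter (fun t => t / (L : ℤ) = κ)).card : ℝ) := by simp

theorem mw2_mu (W : Finset ℤ) (L : ℕ) (K : Finset ℤ) :
    ∑ κ ∈ K, (mu W L κ : ℝ) ≤ W.card := by
  have h : ∑ κ ∈ K, mu W L κ ≤ W.card := by
    rw [LVC8_fib]
    exact Finset.card_le_card (Finset.filter_subset _ _)
  exact_mod_cast h

theorem mw2_sqrt (A B : ℝ) (hA : 1 ≤ A) :
    Real.sqrt (A * B) ≤ A * Real.sqrt B := by
  rw [Real.sqrt_mul (by linarith)]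
  refine mul_le_mul_of_nonneg_right ?_ (Real.sqrt_nonneg _)
  rw [Real.sqrt_le_left (by linarith)]
  nlinarith

theorem LV_win2 (C0 C1 : ℝ) (hC0 : 1 ≤ C0) (hC1 : 1 ≤ C1) : ∃ C : ℝ, 1 ≤ C ∧
    ∀ (d : Dat) (S : Finset ℕ) (Λ Y H : ℝ) (a : ℕ → ℂ) (W : Finset ℤ) (c : ℤ → ℂ),
    LVH d C0 Λ Y H a W → S ⊆ d.S → Spc d.N S d.ξ → (∀ n, n ∉ S → a n = 0) →
    Win C1 d.N H W → (∀ t, ‖c t‖ = 1) → Real.log d.M + 1 ≤ Λ → C * (1 + d.ε) * d.M ^ 2 ≤ d.N →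
    ∀ (P n0 : ℕ) (s0 : ℤ), 1 ≤ P → (P : ℝ) ≤ C0 * d.M → 1 ≤ n0 → (n0 : ℝ) * (1 + d.ε) ≤ d.N →
    d.N ≤ 4 * (n0 * (1 + d.ε)) →
    ∑ p ∈ Finset.Ico P (2 * P), ∑ s ∈ W.filter (fun s => s0 ≤ s ∧ s < s0 + n0),
      ‖∑ t ∈ W, c t * d.chirp p ((t : ℝ) - s)‖ ^ 2 ≤
    C * (Real.sqrt (d.N * (W.filter (fun s => s0 ≤ s ∧ s < s0 + n0)).card) *
        (Λ * P * Real.sqrt (H ^ 2 * W.card + H * P / d.N * (W.card : ℝ) ^ 3)) +
      P * (W.filter (fun s => s0 ≤ s ∧ s < s0 + n0)).card * H ^ 2) := by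
  classical
  obtain ⟨CF, hCF, hF⟩ := fe8 C0 hC0
  obtain ⟨CB, hCB, hB⟩ := LV_bessel2 C0 hC0
  obtain ⟨CO, hCO, hO⟩ := LV_one2 C0 C1 hC0 hC1
  have hlC0 : 0 ≤ Real.log C0 := Real.log_nonneg hC0
  have hexp : 0 < Real.exp Real.pi := Real.exp_pos _
  set G : ℝ := Real.exp Real.pi * ((CF * CB) * (1 + Real.log C0)) with hG
  have hG0 : 0 ≤ G := by positivity
  have hOG : 0 ≤ CO * G := by positivity
  refine ⟨C0 ^ 2 + CB + CO + CO * G, by nlinarith, ?_⟩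
  intro d S Λ Y H a W c hL hS hSpc ha0 hWin hc hΛM hCM P n0 s0 hP1 hPM hn1 hn0 hn4
  set C : ℝ := C0 ^ 2 + CB + CO + CO * G with hCdef
  have hd := hL.good
  have hN2 : 2 ≤ d.N := hd.hN
  have hN0 : 0 < d.N := by linarith
  have hM1 : 1 ≤ d.M := hd.hM
  have hΛ1 : 1 ≤ Λ := hL.hΛ
  have hε0 : 0 ≤ d.ε := hd.hε
  have hH0 : 0 < H := by
    rw [hL.hH]
    have := hL.hY
    positivity
  have hP1R : (1 : ℝ) ≤ P := by exact_mod_cast hP1
  have hC00 : 0 ≤ C0 ^ 2 := sq_nonneg _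
  have hM2 : 1 ≤ d.M ^ 2 := one_le_pow₀ hM1
  have hεM : d.ε ≤ (1 + d.ε) * d.M ^ 2 := by nlinarith
  have hCM' : C * ((1 + d.ε) * d.M ^ 2) ≤ d.N := by
    rw [← mul_assoc]
    exact hCM
  have hX0 : 0 ≤ (1 + d.ε) * d.M ^ 2 := by positivity
  have hεB : CB * d.ε ≤ d.N :=
    (mul_le_mul_of_nonneg_left hεM (by linarith)).trans
      ((mul_le_mul_of_nonneg_right (by linarith) hX0).trans hCM')
  have hεO : CO * d.ε ≤ d.N :=
    (mul_le_mul_of_nonneg_left hεM (by linarith)).trans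
      ((mul_le_mul_of_nonneg_right (by linarith) hX0).trans hCM')
  have hPN2 : (P : ℝ) ^ 2 * (1 + d.ε) ≤ d.N := by
    have h1 : (P : ℝ) ^ 2 ≤ (C0 * d.M) ^ 2 := pow_le_pow_left₀ (by positivity) hPM 2
    have h2 : (P : ℝ) ^ 2 * (1 + d.ε) ≤ (C0 * d.M) ^ 2 * (1 + d.ε) :=
      mul_le_mul_of_nonneg_right h1 (by linarith)
    have h3 : (C0 * d.M) ^ 2 * (1 + d.ε) = C0 ^ 2 * ((1 + d.ε) * d.M ^ 2) := by ring
    have h4 : C0 ^ 2 * ((1 + d.ε) * d.M ^ 2) ≤ C * ((1 + d.ε) * d.M ^ 2) :=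
      mul_le_mul_of_nonneg_right (by linarith) hX0
    linarith
  have hPN : (P : ℝ) ≤ d.N := by
    have h1 : (P : ℝ) ≤ (P : ℝ) ^ 2 * (1 + d.ε) := by
      have h2 : (P : ℝ) ≤ (P : ℝ) ^ 2 := by nlinarith
      have h3 : (0 : ℝ) ≤ (P : ℝ) ^ 2 * d.ε := by positivity
      nlinarith
    linarith
  -- the clusters
  set K : Finset ℤ := (Ks W P).filter (fun κ => 0 < ((P * κ - s0 : ℤ) : ℝ) ∧
    ((P * κ - s0 : ℤ) : ℝ) ≤ C0 * P * d.N) with hK
  set Ws : Finset ℤ := W.filter (fun s => s0 ≤ s ∧ s < s0 + n0) with hWs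
  set u : ℕ → ℕ → ℤ → ℝ := fun p b κ => ‖d.U W (cx c P b) P s0 p κ‖ with hu
  have hc1 : ∀ t, ‖c t‖ ≤ 1 := fun t => (hc t).le
  have hcx : ∀ b t, ‖cx c P b t‖ ≤ 1 := fun b t => mw2_cx c hc1 P b hP1 t
  have hu0 : ∀ p b κ, 0 ≤ u p b κ := fun p b κ => norm_nonneg _
  have humu : ∀ p b κ, u p b κ ≤ mu W P κ := fun p b κ =>
    mw2_U_le d W (cx c P b) (hcx b) P s0 p κ
  have hKd : ∀ κ ∈ K, ∀ κ' ∈ K, |((P * (κ - κ') : ℤ) : ℝ)| ≤ C0 * P * d.N := by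
    intro κ hκ κ' hκ'
    rw [hK, Finset.mem_filter] at hκ hκ'
    have e : ((P * (κ - κ') : ℤ) : ℝ) = ((P * κ - s0 : ℤ) : ℝ) - ((P * κ' - s0 : ℤ) : ℝ) := by
      push_cast
      ring
    rw [e, abs_le]
    constructor <;> linarith [hκ.2.1, hκ.2.2, hκ'.2.1, hκ'.2.2]
  set E : ℕ → ℕ → ℝ := fun p b => Real.sqrt (Ek P P K (u p b)) with hE
  have hE0 : ∀ p b, 0 ≤ E p b := fun p b => Real.sqrt_nonneg _
  -- one `p`
  have hex : ∀ p : ℕ, ∃ A0 : ℕ, p ∈ Finset.Ico P (2 * P) →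
      ∑ s ∈ Ws, ‖∑ t ∈ W, c t * d.chirp p ((t : ℝ) - s)‖ ^ 2 ≤
      CO * (H ^ 2 * Ws.card + Real.sqrt (d.N * Ws.card) *
        ∑ b ∈ range A0, Real.pi ^ b / (b.factorial : ℝ) * E p b) := by
    intro p
    by_cases hp : p ∈ Finset.Ico P (2 * P)
    · rw [Finset.mem_Ico] at hp
      obtain ⟨A0, hA0⟩ := hO d H W c hd hH0.le hWin hc1 hεO P p n0 s0 (E p) hP1 hPN2 hp.1 hp.2 hn1
        hn0 hn4 (fun b => rfl)
      exact ⟨A0, fun _ => hA0⟩
    · exact ⟨0, fun h => absurd h hp⟩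
  choose A0 hA0 using hex
  set As : ℕ := (Finset.Ico P (2 * P)).sup A0 with hAs
  have hpos : ∀ b : ℕ, 0 ≤ Real.pi ^ b / (b.factorial : ℝ) := fun b => by positivity
  set Q := Real.sqrt (d.N * Ws.card) with hQ
  have hQ0 : 0 ≤ Q := Real.sqrt_nonneg _
  have hone : ∀ p ∈ Finset.Ico P (2 * P),
      ∑ s ∈ Ws, ‖∑ t ∈ W, c t * d.chirp p ((t : ℝ) - s)‖ ^ 2 ≤
      CO * (H ^ 2 * Ws.card + Q * ∑ b ∈ range As, Real.pi ^ b / (b.factorial : ℝ) * E p b) := by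
    intro p hp
    refine (hA0 p hp).trans ?_
    refine mul_le_mul_of_nonneg_left ?_ (by linarith)
    have h1 : ∑ b ∈ range (A0 p), Real.pi ^ b / (b.factorial : ℝ) * E p b ≤
        ∑ b ∈ range As, Real.pi ^ b / (b.factorial : ℝ) * E p b := by
      refine Finset.sum_le_sum_of_subset_of_nonneg ?_ fun b _ _ => mul_nonneg (hpos b) (hE0 p b)
      exact Finset.range_subset_range.2 (Finset.le_sup (f := A0) hp)
    have h2 := mul_le_mul_of_nonneg_left h1 hQ0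
    linarith
  -- the energies
  set R : ℝ := H ^ 2 * W.card + H * P / d.N * (W.card : ℝ) ^ 3 with hR
  have hR0 : 0 ≤ R := by positivity
  set ℓ : ℝ := 1 + Real.log P with hℓ
  have hlP : 0 ≤ Real.log P := Real.log_nonneg hP1R
  have hℓ1 : 1 ≤ ℓ := by linarith
  have hℓΛ : ℓ ≤ (1 + Real.log C0) * Λ := by
    have h1 : Real.log P ≤ Real.log C0 + Real.log d.M := by
      rw [← Real.log_mul (by linarith) (by linarith)]
      exact Real.log_le_log (by linarith) hPM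
    nlinarith
  have hEkb : ∀ p b, Ek P P K (u p b) ≤ CF * ℓ ^ 2 *
      (H ^ 2 * ∑ κ ∈ K, u p b κ ^ 2 + H * P / d.N * (∑ κ ∈ K, u p b κ) ^ 3) := by
    intro p b
    refine hF d S Λ Y H a W (by linarith) hS hSpc hΛ1 hL.hY ?_ ha0 hL.hD hL.hH P K (u p b) hP1 hPN
      (fun κ _ => hu0 p b κ) (fun κ _ => humu p b κ) hKd
    intro n
    refine (hL.ha n).trans ?_
    have := hd.hω1 n
    nlinarith
  have hEs : ∀ b, ∑ p ∈ Finset.Ico P (2 * P), E p b ≤ (CF * CB) * (ℓ * (P * Real.sqrt R)) := by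
    intro b
    have hEk0 : ∀ p ∈ Finset.Ico P (2 * P), 0 ≤ Ek P P K (u p b) := by
      intro p _
      refine Qe_nonneg _ _ _ _ fun x _ => ?_
      exact mul_nonneg (hu0 p b _) (hu0 p b _)
    refine (lvd_sqrt_sum _ _ hEk0).trans ?_
    have hcard : ((Finset.Ico P (2 * P)).card : ℝ) = P := by
      rw [Nat.card_Ico]
      have : 2 * P - P = P := by omega
      rw [this]
    rw [hcard]
    have hsu : ∀ p, ∑ κ ∈ K, u p b κ ≤ W.card := fun p =>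
      (Finset.sum_le_sum fun κ _ => humu p b κ).trans (mw2_mu W P K)
    have hsu0 : ∀ p, 0 ≤ ∑ κ ∈ K, u p b κ := fun p => Finset.sum_nonneg fun κ _ => hu0 p b κ
    have hs1 : ∑ p ∈ Finset.Ico P (2 * P), Ek P P K (u p b) ≤
        CF * ℓ ^ 2 * (H ^ 2 * (CB * P * W.card) + P * (H * P / d.N * (W.card : ℝ) ^ 3)) := by
      calc ∑ p ∈ Finset.Ico P (2 * P), Ek P P K (u p b)
          ≤ ∑ p ∈ Finset.Ico P (2 * P), CF * ℓ ^ 2 *
            (H ^ 2 * ∑ κ ∈ K, u p b κ ^ 2 + H * P / d.N * (W.card : ℝ) ^ 3) := by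
            refine Finset.sum_le_sum fun p _ => (hEkb p b).trans ?_
            refine mul_le_mul_of_nonneg_left ?_ (by positivity)
            have h1 : (∑ κ ∈ K, u p b κ) ^ 3 ≤ (W.card : ℝ) ^ 3 :=
              pow_le_pow_left₀ (hsu0 p) (hsu p) 3
            have h2 := mul_le_mul_of_nonneg_left h1 (by positivity : 0 ≤ H * P / d.N)
            linarith
        _ = CF * ℓ ^ 2 * (H ^ 2 * ∑ κ ∈ K, ∑ p ∈ Finset.Ico P (2 * P), u p b κ ^ 2 +
            P * (H * P / d.N * (W.card : ℝ) ^ 3)) := by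
            rw [← Finset.mul_sum, Finset.sum_add_distrib, ← Finset.mul_sum, Finset.sum_comm,
              Finset.sum_const, nsmul_eq_mul, hcard]
        _ ≤ CF * ℓ ^ 2 * (H ^ 2 * (CB * P * W.card) + P * (H * P / d.N * (W.card : ℝ) ^ 3)) := by
            refine mul_le_mul_of_nonneg_left ?_ (by positivity)
            have h1 : ∑ κ ∈ K, ∑ p ∈ Finset.Ico P (2 * P), u p b κ ^ 2 ≤ CB * P * W.card := by
              calc ∑ κ ∈ K, ∑ p ∈ Finset.Ico P (2 * P), u p b κ ^ 2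
                  ≤ ∑ κ ∈ K, CB * P * mu W P κ :=
                    Finset.sum_le_sum fun κ _ =>
                      hB d W (cx c P b) hd (hcx b) hεB P P s0 κ hP1 hP1 le_rfl
                _ = CB * P * ∑ κ ∈ K, (mu W P κ : ℝ) := by rw [Finset.mul_sum]
                _ ≤ CB * P * W.card :=
                    mul_le_mul_of_nonneg_left (mw2_mu W P K) (by positivity)
            have h2 := mul_le_mul_of_nonneg_left h1 (by positivity : 0 ≤ H ^ 2)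
            linarith
    have hs2 : (P : ℝ) * ∑ p ∈ Finset.Ico P (2 * P), Ek P P K (u p b) ≤
        (CF * CB) * ((ℓ * P) ^ 2 * R) := by
      refine (mul_le_mul_of_nonneg_left hs1 (by positivity)).trans ?_
      have h1 : (P : ℝ) * (CF * ℓ ^ 2 * (H ^ 2 * (CB * P * W.card) +
          P * (H * P / d.N * (W.card : ℝ) ^ 3))) = CF * ((ℓ * P) ^ 2 *
            (CB * (H ^ 2 * W.card) + H * P / d.N * (W.card : ℝ) ^ 3)) := by ring
      rw [h1, mul_assoc]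
      refine mul_le_mul_of_nonneg_left ?_ (by linarith)
      have h2 : 0 ≤ H * P / d.N * (W.card : ℝ) ^ 3 := by positivity
      have h3 : CB * (H ^ 2 * W.card) + H * P / d.N * (W.card : ℝ) ^ 3 ≤ CB * R := by
        rw [hR]
        nlinarith
      calc (ℓ * P) ^ 2 * (CB * (H ^ 2 * W.card) + H * P / d.N * (W.card : ℝ) ^ 3)
          ≤ (ℓ * P) ^ 2 * (CB * R) := mul_le_mul_of_nonneg_left h3 (by positivity)
        _ = CB * ((ℓ * P) ^ 2 * R) := by ring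
    refine (Real.sqrt_le_sqrt hs2).trans ?_
    refine (mw2_sqrt _ _ (one_le_mul_of_one_le_of_one_le hCF hCB)).trans ?_
    refine mul_le_mul_of_nonneg_left (le_of_eq ?_) (by positivity)
    rw [Real.sqrt_mul (by positivity), Real.sqrt_sq (by positivity)]
    ring
  -- sum over `p`
  refine (Finset.sum_le_sum hone).trans ?_
  have hcard : ((Finset.Ico P (2 * P)).card : ℝ) = P := by
    rw [Nat.card_Ico]
    have : 2 * P - P = P := by omega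
    rw [this]
  have e1 : ∑ p ∈ Finset.Ico P (2 * P), CO * (H ^ 2 * Ws.card +
      Q * ∑ b ∈ range As, Real.pi ^ b / (b.factorial : ℝ) * E p b) =
      CO * (P * (H ^ 2 * Ws.card) + Q * ∑ b ∈ range As, Real.pi ^ b / (b.factorial : ℝ) *
        ∑ p ∈ Finset.Ico P (2 * P), E p b) := by
    rw [← Finset.mul_sum, Finset.sum_add_distrib, Finset.sum_const, nsmul_eq_mul, hcard,
      ← Finset.mul_sum, Finset.sum_comm]
    congr 3
    exact Finset.sum_congr rfl fun b _ => by rw [Finset.mul_sum]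
  rw [e1]
  have hsb : ∑ b ∈ range As, Real.pi ^ b / (b.factorial : ℝ) *
      ∑ p ∈ Finset.Ico P (2 * P), E p b ≤ G * (Λ * P * Real.sqrt R) := by
    calc ∑ b ∈ range As, Real.pi ^ b / (b.factorial : ℝ) * ∑ p ∈ Finset.Ico P (2 * P), E p b
        ≤ ∑ b ∈ range As, Real.pi ^ b / (b.factorial : ℝ) *
          ((CF * CB) * (ℓ * (P * Real.sqrt R))) :=
          Finset.sum_le_sum fun b _ => mul_le_mul_of_nonneg_left (hEs b) (hpos b)
      _ = (∑ b ∈ range As, Real.pi ^ b / (b.factorial : ℝ)) *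
          ((CF * CB) * (ℓ * (P * Real.sqrt R))) := by rw [Finset.sum_mul]
      _ ≤ Real.exp Real.pi * ((CF * CB) * (ℓ * (P * Real.sqrt R))) :=
          mul_le_mul_of_nonneg_right (sum_taylor_le Real.pi Real.pi_pos.le As) (by positivity)
      _ ≤ Real.exp Real.pi * ((CF * CB) * (((1 + Real.log C0) * Λ) * (P * Real.sqrt R))) := by
          gcongr
      _ = G * (Λ * P * Real.sqrt R) := by
          rw [hG]
          ring
  set Z : ℝ := Λ * P * Real.sqrt R with hZ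
  have hZ0 : 0 ≤ Z := by positivity
  have g1 : Q * ∑ b ∈ range As, Real.pi ^ b / (b.factorial : ℝ) *
      ∑ p ∈ Finset.Ico P (2 * P), E p b ≤ G * (Q * Z) := by
    refine (mul_le_mul_of_nonneg_left hsb hQ0).trans (le_of_eq ?_)
    ring
  have g2 : 0 ≤ Q * Z := mul_nonneg hQ0 hZ0
  have g3 : 0 ≤ (P : ℝ) * Ws.card * H ^ 2 := by positivity
  have g4 : CO * (P * (H ^ 2 * Ws.card) + Q * ∑ b ∈ range As, Real.pi ^ b / (b.factorial : ℝ) *
      ∑ p ∈ Finset.Ico P (2 * P), E p b) ≤ CO * (P * (H ^ 2 * Ws.card) + G * (Q * Z)) :=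
    mul_le_mul_of_nonneg_left (by linarith) (by linarith)
  refine g4.trans ?_
  have g5 : CO * (P * (H ^ 2 * Ws.card) + G * (Q * Z)) =
      CO * ((P : ℝ) * Ws.card * H ^ 2) + (CO * G) * (Q * Z) := by ring
  rw [g5, mul_add]
  have g6 := mul_le_mul_of_nonneg_right (by linarith : CO ≤ C) g3
  have g7 := mul_le_mul_of_nonneg_right (by linarith : CO * G ≤ C) g2
  linarith

end Pool.Agent.LibSX15
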